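import Mathlib

/-!
# Hyperbolic three-space (upper half-space model)
-/

set_option autoImplicit false

noncomputable section

open Filter Metric Real Set Topology MeasureTheory

namespace Pool.Agent.H934R3

/-- Euclidean three-space with coordinates `p 0, p 1, p 2`. -/
abbrev E3 := EuclideanSpace ℝ (Fin 3)

/-- Hyperbolic three-space, the upper half-space model `{p : p 2 > 0}`. -/
structure H3 where
  /-- the point of Euclidean space -/
  val : E3
  /-- the height is positive -/
  pos : 0 < val 2

namespace H3

instance : Coe H3 E3 := ⟨H3.val⟩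

@[ext] theorem ext {p q : H3} (h : p.val = q.val) : p = q := by
  cases p; cases q; simp_all

theorem val_injective : Function.Injective H3.val := fun _ _ h => ext h

instance : TopologicalSpace H3 := TopologicalSpace.induced H3.val inferInstance

/-- The hyperbolic distance:
`dist p q = 2 arsinh (‖p - q‖ / (2 √(p 2 * q 2)))`,
equivalently `cosh (dist p q) = 1 + ‖p - q‖² / (2 (p 2) (q 2))`. -/
instance : Dist H3 :=
  ⟨fun p q => 2 * arsinh (dist p.val q.val / (2 * √(p.val 2 * q.val 2)))⟩

theorem dist_eq (p q : H3) :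
    dist p q = 2 * arsinh (dist p.val q.val / (2 * √(p.val 2 * q.val 2))) := rfl

theorem sinh_half_dist (p q : H3) :
    sinh (dist p q / 2) = dist p.val q.val / (2 * √(p.val 2 * q.val 2)) := by
  rw [dist_eq, mul_div_cancel_left₀ (arsinh _) two_ne_zero, sinh_arsinh]

/-- reflection in the boundary plane -/
def refl (p : E3) : E3 := !₂[p 0, p 1, -p 2]

theorem dist_sq (p q : E3) :
    dist p q ^ 2 = (p 0 - q 0) ^ 2 + (p 1 - q 1) ^ 2 + (p 2 - q 2) ^ 2 := by
  rw [EuclideanSpace.dist_eq, sq_sqrt (by positivity)]
  simp [Fin.sum_univ_three, Real.dist_eq, sq_abs]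

theorem norm_sq (p : E3) :
    ‖p‖ ^ 2 = (p 0) ^ 2 + (p 1) ^ 2 + (p 2) ^ 2 := by
  rw [EuclideanSpace.norm_eq, sq_sqrt (by positivity)]
  simp [Fin.sum_univ_three, sq_abs]

theorem dist_refl_sq (p q : E3) :
    dist p (refl q) ^ 2 = (p 0 - q 0) ^ 2 + (p 1 - q 1) ^ 2 + (p 2 + q 2) ^ 2 := by
  rw [dist_sq]; simp [refl]

theorem dist_refl_comm (p q : E3) : dist p (refl q) = dist q (refl p) := by
  have h1 := dist_refl_sq p q
  have h2 := dist_refl_sq q p
  have : dist p (refl q) ^ 2 = dist q (refl p) ^ 2 := by rw [h1, h2]; ring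
  exact (sq_eq_sq₀ dist_nonneg dist_nonneg).1 this

theorem dist_self_refl (p : H3) : dist p.val (refl p.val) = 2 * p.val 2 := by
  have h1 := dist_refl_sq p.val p.val
  have : dist p.val (refl p.val) ^ 2 = (2 * p.val 2) ^ 2 := by rw [h1]; ring
  exact (sq_eq_sq₀ dist_nonneg (by have := p.pos; positivity)).1 this

theorem cosh_half_dist (p q : H3) :
    cosh (dist p q / 2) = dist p.val (refl q.val) / (2 * √(p.val 2 * q.val 2)) := by
  have hp := p.pos
  have hq := q.pos
  rw [← sq_eq_sq₀, cosh_sq', sinh_half_dist, div_pow, div_pow, one_add_div, mul_pow, sq_sqrt]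
  · congr 1
    rw [dist_refl_sq, dist_sq]
    ring
  all_goals positivity

theorem cosh_dist (p q : H3) :
    cosh (dist p q) = 1 + dist p.val q.val ^ 2 / (2 * p.val 2 * q.val 2) := by
  have hp := p.pos
  have hq := q.pos
  rw [dist_eq, cosh_two_mul, cosh_sq', add_assoc, ← two_mul, sinh_arsinh, div_pow, mul_pow,
    sq_sqrt, sq (2 : ℝ), mul_assoc, ← mul_div_assoc, mul_assoc, mul_div_mul_left] <;> positivity

theorem sinh_half_dist_add_dist (a b c : H3) : sinh ((dist a b + dist b c) / 2) =
    (dist a.val b.val * dist c.val (refl b.val) + dist b.val c.val * dist a.val (refl b.val)) /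
      (2 * √(a.val 2 * c.val 2) * dist b.val (refl b.val)) := by
  have ha := a.pos
  have hb := b.pos
  have hc := c.pos
  rw [add_div _ _ (2 : ℝ), sinh_add, sinh_half_dist, cosh_half_dist, sinh_half_dist,
    cosh_half_dist, div_mul_div_comm, div_mul_div_comm, ← add_div, dist_self_refl,
    dist_refl_comm b.val c.val]
  have h1 : √(a.val 2 * b.val 2) * √(b.val 2 * c.val 2) = √(a.val 2 * c.val 2) * b.val 2 := by
    rw [sqrt_mul ha.le, sqrt_mul hb.le, sqrt_mul ha.le]
    have := mul_self_sqrt hb.le
    linear_combination (√(a.val 2) * √(c.val 2)) * this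
  congr 1
  · ring
  · linear_combination 4 * h1

protected theorem dist_comm' (p q : H3) : dist p q = dist q p := by
  simp only [dist_eq, dist_comm p.val, mul_comm (p.val 2)]

protected theorem dist_triangle' (a b c : H3) : dist a c ≤ dist a b + dist b c := by
  have hb := b.pos
  rw [← div_le_div_iff_of_pos_right (zero_lt_two' ℝ), ← sinh_le_sinh, sinh_half_dist,
    sinh_half_dist_add_dist, div_mul_eq_div_div _ _ (dist _ _), le_div_iff₀,
    div_mul_eq_mul_div]
  · gcongr
    exact EuclideanGeometry.mul_dist_le_mul_dist_add_mul_dist a.val b.val c.val (refl b.val)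
  · rw [dist_self_refl]; positivity

/-- auxiliary metric structure, with the metric topology -/
@[instance_reducible]
def metricSpaceAux : MetricSpace H3 where
  dist := dist
  dist_self z := by rw [dist_eq, dist_self, zero_div, arsinh_zero, mul_zero]
  dist_comm := H3.dist_comm'
  dist_triangle := H3.dist_triangle'
  eq_of_dist_eq_zero {z w} h := by
    have hz := z.pos
    have hw := w.pos
    rw [dist_eq] at h
    have h2 : arsinh (dist z.val w.val / (2 * √(z.val 2 * w.val 2))) = 0 := by linarith
    rw [arsinh_eq_zero_iff, div_eq_zero_iff] at h2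
    rcases h2 with h2 | h2
    · exact ext (dist_eq_zero.1 h2)
    · exfalso
      have : 0 < 2 * √(z.val 2 * w.val 2) := by positivity
      linarith

theorem continuous_val : Continuous (H3.val : H3 → E3) := continuous_induced_dom

theorem continuous_height : Continuous fun p : H3 => p.val 2 := by
  have : Continuous fun x : E3 => x 2 := by fun_prop
  exact this.comp continuous_val

theorem continuous_dist' : Continuous fun x : H3 × H3 => dist x.1 x.2 := by
  have h1 : Continuous fun x : H3 × H3 => dist x.1.val x.2.val :=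
    (continuous_val.comp continuous_fst).dist (continuous_val.comp continuous_snd)
  have h2 : Continuous fun x : H3 × H3 => 2 * √(x.1.val 2 * x.2.val 2) :=
    continuous_const.mul ((continuous_height.comp continuous_fst).mul
      (continuous_height.comp continuous_snd)).sqrt
  refine continuous_const.mul (Continuous.arsinh (h1.div h2 fun x => ?_))
  have := x.1.pos
  have := x.2.pos
  positivity

/-- Euclidean distance is controlled by the hyperbolic distance. -/
theorem dist_val_le (p q : H3) :
    dist p.val q.val ≤ (2 * √(p.val 2 * q.val 2)) * sinh (dist p q / 2) := by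
  have hp := p.pos
  have hq := q.pos
  rw [sinh_half_dist, mul_div_cancel₀]
  positivity

/-- heights are comparable -/
theorem height_le (p q : H3) : q.val 2 ≤ p.val 2 * exp (dist p q) := by
  have hp := p.pos
  have hq := q.pos
  have hd : 0 ≤ dist p q := @dist_nonneg _ metricSpaceAux.toPseudoMetricSpace p q
  -- (p2 - q2)^2 ≤ ‖p-q‖^2 = 2 p2 q2 (cosh d - 1)
  have h1 : (p.val 2 - q.val 2) ^ 2 ≤ 2 * p.val 2 * q.val 2 * (cosh (dist p q) - 1) := by
    rw [cosh_dist]
    have : 2 * p.val 2 * q.val 2 * (1 + dist p.val q.val ^ 2 / (2 * p.val 2 * q.val 2) - 1)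
        = dist p.val q.val ^ 2 := by field_simp; ring
    rw [this, dist_sq]
    nlinarith [sq_nonneg (p.val 0 - q.val 0), sq_nonneg (p.val 1 - q.val 1)]
  by_contra hcon
  push Not at hcon
  -- let r = q2/p2 > e^d ≥ 1: then (1-r)^2 > r (e^d + e^{-d} - 2)
  have h2 : cosh (dist p q) = (exp (dist p q) + exp (-dist p q)) / 2 := cosh_eq _
  rw [h2] at h1
  have he : exp (dist p q) * exp (-dist p q) = 1 := by rw [← exp_add]; simp
  have he1 : 1 ≤ exp (dist p q) := one_le_exp hd
  have he2 : 0 < exp (-dist p q) := exp_pos _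
  set e := exp (dist p q)
  set f := exp (-dist p q)
  have hfle : f ≤ 1 := by nlinarith
  have h3 : (q.val 2 - p.val 2 * e) * (q.val 2 - p.val 2 * f) ≤ 0 := by
    have : (q.val 2 - p.val 2 * e) * (q.val 2 - p.val 2 * f)
        = (p.val 2 - q.val 2) ^ 2 - 2 * p.val 2 * q.val 2 * ((e + f) / 2 - 1) := by
      have : (q.val 2 - p.val 2 * e) * (q.val 2 - p.val 2 * f) =
        q.val 2 ^ 2 - p.val 2 * q.val 2 * (e + f) + p.val 2 ^ 2 * (e * f) := by ring
      rw [this, he]; ring
    rw [this]; linarith
  have h4 : 0 < q.val 2 - p.val 2 * e := by linarith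
  have h5 : 0 < q.val 2 - p.val 2 * f := by nlinarith
  nlinarith [mul_pos h4 h5]

theorem eps_delta (p : H3) (ε : ℝ) (hε : 0 < ε) :
    ∃ δ > 0, ∀ q : H3, dist q p < δ → dist q.val p.val < ε := by
  have hc : Continuous (fun t : ℝ => (2 * √((p.val 2 * exp t) * p.val 2)) * sinh (t / 2)) := by
    fun_prop
  have h2 := hc.tendsto 0
  have h2' : Tendsto (fun t : ℝ => (2 * √((p.val 2 * exp t) * p.val 2)) * sinh (t / 2))
      (𝓝 0) (𝓝 0) := by simpa using h2
  obtain ⟨δ, hδ, h⟩ := Metric.eventually_nhds_iff.1 (h2'.eventually (gt_mem_nhds hε))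
  refine ⟨δ, hδ, fun q hq => ?_⟩
  have hd : 0 ≤ dist q p := @dist_nonneg _ metricSpaceAux.toPseudoMetricSpace q p
  have h4 := h (y := dist q p) (by rw [Real.dist_eq, sub_zero, abs_of_nonneg hd]; exact hq)
  refine lt_of_le_of_lt ?_ h4
  refine (dist_val_le q p).trans ?_
  have hp := p.pos
  have h3 := height_le p q
  rw [H3.dist_comm'] at h3
  have : 0 ≤ sinh (dist q p / 2) := sinh_nonneg_iff.2 (by positivity)
  gcongr

/-- the hyperbolic metric is compatible with the topology induced by the inclusion in `E3` -/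
instance : MetricSpace H3 :=
  metricSpaceAux.replaceTopology <| by
    refine le_antisymm (continuous_id_iff_le.1 ?_) ?_
    · refine (@continuous_iff_continuous_dist H3 H3 metricSpaceAux.toPseudoMetricSpace _ _).2 ?_
      exact continuous_dist'
    · refine continuous_iff_le_induced.1 ?_
      refine (@Metric.continuous_iff H3 E3 metricSpaceAux.toPseudoMetricSpace _ H3.val).2 ?_
      intro p ε hε
      exact eps_delta p ε hε

end H3

end Pool.Agent.H934R3
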