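import Mathlib
import Pool.Agent.H934R3.Basic

/-!
# Surfaces in hyperbolic three-manifolds `H3 / Γ`
-/

set_option autoImplicit false

noncomputable section

open Filter Metric Real Set Topology MeasureTheory
open scoped ContDiff

namespace Pool.Agent.H934R3

instance : MeasurableSpace H3 := borel H3
instance : BorelSpace H3 := ⟨rfl⟩

/-- isometries act on hyperbolic space by evaluation -/
instance : MulAction (H3 ≃ᵢ H3) H3 where
  smul g p := g p
  one_smul _ := rfl
  mul_smul _ _ _ := rfl

theorem smul_def (g : H3 ≃ᵢ H3) (p : H3) : g • p = g p := rfl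

/-- the open upper half-space, as a subset of Euclidean space -/
def UHS : Set E3 := {x | 0 < x 2}

/-- coordinate expression of a self-map of `H3` -/
def coordMap (g : H3 → H3) : E3 → E3 :=
  fun x => if h : 0 < x 2 then (g ⟨x, h⟩).val else x

/-- `Γ` is a discrete group of isometries of `H3`. -/
def IsDiscreteGroup (Γ : Subgroup (H3 ≃ᵢ H3)) : Prop :=
  ∀ (p : H3) (R : ℝ), {γ : H3 ≃ᵢ H3 | γ ∈ Γ ∧ dist p (γ p) ≤ R}.Finite

/-- `Γ` is torsion-free. -/
def IsTorsionFreeGroup (Γ : Subgroup (H3 ≃ᵢ H3)) : Prop :=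
  ∀ γ ∈ Γ, γ ≠ 1 → ∀ n : ℕ, 0 < n → γ ^ n ≠ 1

/-- `g` is a parabolic isometry: its displacement `dist p (g p)` has infimum `0`, and the infimum
is not attained. -/
def IsParabolic (g : H3 ≃ᵢ H3) : Prop :=
  (∀ p : H3, g p ≠ p) ∧ ∀ ε > 0, ∃ p : H3, dist p (g p) < ε

/-- `S` is a smooth embedded surface (without boundary) in `H3`: near each of its points it is
the zero set of a smooth function with nonvanishing derivative. -/
def IsEmbeddedSurface (S : Set H3) : Prop :=
  ∀ p ∈ S, ∃ U : Set E3, IsOpen U ∧ p.val ∈ U ∧ ∃ f : E3 → ℝ, ContDiffOn ℝ ∞ f U ∧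
    fderiv ℝ f p.val ≠ 0 ∧ ∀ q : H3, q.val ∈ U → (q ∈ S ↔ f q.val = 0)

/-- `S` is complete in the induced metric: every curve `[0,1) → S` of finite speed converges in
`S` (no curve of finite length leaves every compact subset of `S`). -/
def IsCompleteSurface (S : Set H3) : Prop :=
  ∀ (c : ℝ → H3) (L : ℝ), (∀ s ∈ Ico (0 : ℝ) 1, c s ∈ S) →
    (∀ s ∈ Ico (0 : ℝ) 1, ∀ s' ∈ Ico (0 : ℝ) 1, dist (c s) (c s') ≤ L * |s - s'|) →
    ∃ p ∈ S, Tendsto c (𝓝[<] 1) (𝓝 p)

/-- the tangent plane of `S` at `p`, as a linear subspace of `E3` -/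
def tangentPlane (S : Set H3) (p : H3) : Submodule ℝ E3 :=
  Submodule.span ℝ (tangentConeAt ℝ (H3.val '' S) p.val)

/-- The divergence along the surface `S` of the vector field `X`, with respect to the hyperbolic
metric `|dx|² / (x 2)²`: the trace over the tangent plane of the covariant derivative of `X`, which
in Euclidean coordinates is `tr (DX ∘ π) - 2 (X p) 2 / (p 2)`, with `π` the orthogonal projection
to the tangent plane. -/
def surfaceDiv (S : Set H3) (X : E3 → E3) (p : H3) : ℝ :=
  LinearMap.trace ℝ E3 ((fderiv ℝ X p.val : E3 →ₗ[ℝ] E3) ∘ₗ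
    ((tangentPlane S p).starProjection : E3 →ₗ[ℝ] E3)) - 2 * (X p.val) 2 / p.val 2

/-- hyperbolic area on `S`: two-dimensional Hausdorff measure of the hyperbolic metric -/
def areaMeasure (S : Set H3) : Measure H3 := (μH[2] : Measure H3).restrict S

/-- the support of a vector field -/
def fieldSupport (X : E3 → E3) : Set H3 := closure {p : H3 | X p.val ≠ 0}

/-- `X` is a `C¹` vector field on `M = H3 / Γ` (a `Γ`-invariant field on `H3`) with compact support
in `M` whose intersection with the surface `S / Γ` is a compact subset of the surface. -/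
structure IsTestField (Γ : Subgroup (H3 ≃ᵢ H3)) (S : Set H3) (X : E3 → E3) : Prop where
  smooth : ContDiffOn ℝ 1 X UHS
  invariant : ∀ γ ∈ Γ, ∀ p : H3, X (γ p).val = fderiv ℝ (coordMap γ) p.val (X p.val)
  compact_support : ∃ K : Set H3, IsCompact K ∧ ∀ p ∈ fieldSupport X, ∃ γ ∈ Γ, γ p ∈ K
  compact_on_surface : ∃ K : Set H3, IsCompact K ∧ K ⊆ S ∧
    ∀ p ∈ fieldSupport X ∩ S, ∃ γ ∈ Γ, γ p ∈ K

/-- The `Γ`-invariant set `S` is the preimage in `H3` of a nonempty complete embedded minimal
surface of finite area in the hyperbolic manifold `H3 / Γ`. Minimality is the vanishing of the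
first variation of area, area and integrals over the surface `S / Γ` being computed on a
fundamental domain `D`. -/
structure IsFiniteAreaMinimal (Γ : Subgroup (H3 ≃ᵢ H3)) (S : Set H3) : Prop where
  nonempty : S.Nonempty
  invariant : ∀ γ ∈ Γ, ∀ p ∈ S, γ p ∈ S
  embedded : IsEmbeddedSurface S
  complete : IsCompleteSurface S
  finite_minimal : ∃ D : Set H3, IsFundamentalDomain Γ D (areaMeasure S) ∧
    areaMeasure S D < ⊤ ∧
    ∀ X : E3 → E3, IsTestField Γ S X → ∫ p in D, surfaceDiv S X p ∂(areaMeasure S) = 0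

end Pool.Agent.H934R3
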