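import Mathlib
import Pool.Agent.H934R3.Defs

/-!
# Cusps of rank one
-/

set_option autoImplicit false

noncomputable section

namespace Pool.Agent.H934R3

/-- `P` is a maximal parabolic subgroup of `Γ`: it is nontrivial, its nontrivial elements are
parabolic, and it is maximal among the subgroups of `Γ` with this property. -/
structure IsMaximalParabolic (Γ P : Subgroup (H3 ≃ᵢ H3)) : Prop where
  le : P ≤ Γ
  nontrivial : P ≠ ⊥
  parabolic : ∀ g ∈ P, g ≠ 1 → IsParabolic g
  maximal : ∀ Q : Subgroup (H3 ≃ᵢ H3), Q ≤ Γ → P ≤ Q → (∀ g ∈ Q, g ≠ 1 → IsParabolic g) → Q = P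

/-- `H3 / Γ` has a rank-one cusp: some maximal parabolic subgroup of `Γ` is isomorphic to `ℤ`. -/
def HasRankOneCusp (Γ : Subgroup (H3 ≃ᵢ H3)) : Prop :=
  ∃ P : Subgroup (H3 ≃ᵢ H3), IsMaximalParabolic Γ P ∧ Nonempty (Multiplicative ℤ ≃* P)

end Pool.Agent.H934R3
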