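import Mathlib
import Pool.Agent.H934R3.Defs

set_option autoImplicit false

noncomputable section

open Filter Metric Real Set Topology MeasureTheory
open scoped ContDiff NNReal ENNReal

namespace Pool.Agent.H934R3

namespace H3

theorem isInducing_val : IsInducing (H3.val : H3 → E3) := ⟨rfl⟩

theorem range_val : range (H3.val : H3 → E3) = UHS := by
  ext x; constructor
  · rintro ⟨p, rfl⟩; exact p.pos
  · intro h; exact ⟨⟨x, h⟩, rfl⟩

theorem isOpen_UHS : IsOpen UHS := by
  have : Continuous fun x : E3 => x 2 := by fun_prop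
  exact isOpen_lt continuous_const this

theorem isOpenEmbedding_val : IsOpenEmbedding (H3.val : H3 → E3) :=
  ⟨⟨isInducing_val, val_injective⟩, by rw [range_val]; exact isOpen_UHS⟩

theorem val_mem (p : H3) : p.val ∈ UHS := p.pos

/-- `cosh dist - 1` -/
def qq (p q : H3) : ℝ := dist p.val q.val ^ 2 / (2 * p.val 2 * q.val 2)

theorem cosh_dist_eq (p q : H3) : cosh (dist p q) = 1 + qq p q := cosh_dist p q

theorem qq_nonneg (p q : H3) : 0 ≤ qq p q := by
  have := p.pos; have := q.pos
  unfold qq; positivity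

theorem qq_comm (p q : H3) : qq p q = qq q p := by
  unfold qq; rw [dist_comm]; ring

theorem qq_self (p : H3) : qq p p = 0 := by simp [qq]

theorem dist_le_div_sqrt (p q : H3) : dist p q ≤ dist p.val q.val / √(p.val 2 * q.val 2) := by
  have hp := p.pos; have hq := q.pos
  have h0 : (0 : ℝ) ≤ dist p.val q.val / (2 * √(p.val 2 * q.val 2)) := by positivity
  have h1 : arsinh (dist p.val q.val / (2 * √(p.val 2 * q.val 2))) ≤
      dist p.val q.val / (2 * √(p.val 2 * q.val 2)) := by
    rw [← sinh_le_sinh, sinh_arsinh]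
    exact self_le_sinh_iff.2 h0
  calc dist p q = 2 * arsinh (dist p.val q.val / (2 * √(p.val 2 * q.val 2))) := rfl
    _ ≤ 2 * (dist p.val q.val / (2 * √(p.val 2 * q.val 2))) := by linarith
    _ = dist p.val q.val / √(p.val 2 * q.val 2) := by
        have : 0 < √(p.val 2 * q.val 2) := by positivity
        field_simp

/-- `dist² / 2 ≤ cosh dist - 1` -/
theorem dist_sq_le (p q : H3) : dist p q ^ 2 ≤ 2 * qq p q := by
  have h := cosh_dist_eq p q
  have h1 : cosh (dist p q) = 1 + 2 * sinh (dist p q / 2) ^ 2 := by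
    have := Real.cosh_two_mul (dist p q / 2)
    have h3 := Real.cosh_sq (dist p q / 2)
    have h4 : 2 * (dist p q / 2) = dist p q := by ring
    rw [h4] at this
    rw [this, h3]; ring
  have h2 : dist p q / 2 ≤ sinh (dist p q / 2) := self_le_sinh_iff.2 (by positivity)
  have h0 : 0 ≤ dist p q := dist_nonneg
  nlinarith

theorem height_ge (p q : H3) : p.val 2 * exp (-dist p q) ≤ q.val 2 := by
  have h := height_le q p
  rw [dist_comm] at h
  calc p.val 2 * exp (-dist p q) ≤ (q.val 2 * exp (dist p q)) * exp (-dist p q) := by gcongr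
    _ = q.val 2 := by rw [mul_assoc, ← exp_add]; simp

theorem isCompact_slab (x : E3) (C c : ℝ) (hc : 0 < c) :
    IsCompact (H3.val ⁻¹' (closedBall x C ∩ {y : E3 | c ≤ y 2})) := by
  have h2 : Continuous fun x : E3 => x 2 := by fun_prop
  refine (isInducing_val.isCompact_preimage_iff ?_).2 ?_
  · rw [range_val]
    rintro y ⟨-, hy⟩
    exact lt_of_lt_of_le hc hy
  · exact (isCompact_closedBall x C).inter_right (isClosed_le continuous_const h2)

instance : ProperSpace H3 := by
  refine ⟨fun p r => ?_⟩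
  have hp := p.pos
  refine (isCompact_slab p.val ((2 * √(p.val 2 * (p.val 2 * exp r))) * sinh (r / 2))
    (p.val 2 * exp (-r)) (by positivity)).of_isClosed_subset isClosed_closedBall ?_
  intro q hq
  rw [mem_closedBall, dist_comm] at hq
  have hq0 := q.pos
  have hd : 0 ≤ dist p q := dist_nonneg
  constructor
  · rw [mem_closedBall, dist_comm]
    refine (dist_val_le p q).trans ?_
    have h1 := height_le p q
    have h2 : exp (dist p q) ≤ exp r := exp_le_exp.2 hq
    have h3 : 0 ≤ sinh (dist p q / 2) := sinh_nonneg_iff.2 (by positivity)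
    have h4 : sinh (dist p q / 2) ≤ sinh (r / 2) := sinh_le_sinh.2 (by linarith)
    have h5 : q.val 2 ≤ p.val 2 * exp r := h1.trans (by gcongr)
    gcongr
  · have h1 := height_ge p q
    refine le_trans ?_ h1
    gcongr

theorem isCompact_iff_slab (K : Set H3) (hK : IsCompact K) :
    ∃ c > 0, ∃ C : ℝ, ∀ p ∈ K, c ≤ p.val 2 ∧ ‖p.val‖ ≤ C := by
  rcases K.eq_empty_or_nonempty with rfl | hne
  · exact ⟨1, one_pos, 0, by simp⟩
  obtain ⟨p, hp, hmin⟩ := hK.exists_isMinOn hne continuous_height.continuousOn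
  obtain ⟨q, hq, hmax⟩ := hK.exists_isMaxOn hne
    (f := fun p : H3 => ‖p.val‖) (continuous_val.norm).continuousOn
  exact ⟨p.val 2, p.pos, ‖q.val‖, fun x hx => ⟨hmin hx, hmax hx⟩⟩

/-- affine similarity isometries -/
def affFun (s : ℝ) (hs : 0 < s) (a b : ℝ) (p : H3) : H3 :=
  ⟨!₂[s * p.val 0 + a, s * p.val 1 + b, s * p.val 2], by
    have := p.pos
    simpa using by positivity⟩

theorem cosh_inj_nonneg {a b : ℝ} (ha : 0 ≤ a) (hb : 0 ≤ b) (h : cosh a = cosh b) : a = b :=
  Real.cosh_strictMonoOn.injOn (mem_Ici.2 ha) (mem_Ici.2 hb) h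

theorem qq_dist_iff {p q p' q' : H3} : dist p q = dist p' q' ↔ qq p q = qq p' q' := by
  constructor
  · intro h
    have h1 := cosh_dist_eq p q
    have h2 := cosh_dist_eq p' q'
    rw [h] at h1; linarith
  · intro h
    have h1 := cosh_dist_eq p q
    have h2 := cosh_dist_eq p' q'
    rw [h] at h1
    have h3 : cosh (dist p q) = cosh (dist p' q') := by rw [h1, h2]
    exact cosh_inj_nonneg dist_nonneg dist_nonneg h3

theorem affFun_qq (s : ℝ) (hs : 0 < s) (a b : ℝ) (p q : H3) :
    qq (affFun s hs a b p) (affFun s hs a b q) = qq p q := by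
  have hp := p.pos; have hq := q.pos
  unfold qq
  rw [dist_sq, dist_sq]
  simp only [affFun]
  simp
  field_simp

/-- affine similarities as isometries -/
def aff (s : ℝ) (hs : 0 < s) (a b : ℝ) : H3 ≃ᵢ H3 where
  toFun := affFun s hs a b
  invFun := affFun s⁻¹ (inv_pos.2 hs) (-(a / s)) (-(b / s))
  left_inv p := by
    apply ext; ext i
    fin_cases i <;> simp [affFun] <;> field_simp <;> ring
  right_inv p := by
    apply ext; ext i
    fin_cases i <;> simp [affFun] <;> field_simp <;> ring
  isometry_toFun := Isometry.of_dist_eq fun p q => qq_dist_iff.2 (affFun_qq s hs a b p q)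

/-- the base point `(0,0,1)` -/
def base : H3 := ⟨!₂[0, 0, 1], by simp⟩

theorem exists_isometry (p : H3) : ∃ g : H3 ≃ᵢ H3, g base = p := by
  refine ⟨aff (p.val 2) p.pos (p.val 0) (p.val 1), ?_⟩
  apply ext; ext i
  fin_cases i <;> simp [aff, affFun, base]

end H3

end Pool.Agent.H934R3
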