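import Mathlib
import Pool.Agent.H934R3.Defs
import Pool.Agent.H934R3.Geom

/-!
# Limit sets, convex cores and geometric finiteness
-/

set_option autoImplicit false

noncomputable section

open Filter Metric Real Set Topology MeasureTheory

namespace Pool.Agent.H934R3

open H3

/-- The inclusion of upper half-space in the one-point compactification of `E3`. The image is an
open ball bounded by the sphere at infinity `{x 2 = 0} ∪ {∞}`. -/
def toSphere (p : H3) : OnePoint E3 := ((p.val : E3) : OnePoint E3)

/-- The limit set of `Γ`: the points at infinity in the closure of the orbit of `(0, 0, 1)`. -/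
def limitSet (Γ : Subgroup (H3 ≃ᵢ H3)) : Set (OnePoint E3) :=
  closure {x : OnePoint E3 | ∃ γ ∈ Γ, x = toSphere (γ base)} \ range toSphere

/-- `c` is a unit speed geodesic line with ends `ξ` and `η` at infinity. -/
structure IsLine (c : ℝ → H3) (ξ η : OnePoint E3) : Prop where
  isometry : Isometry c
  top : Tendsto (fun t => toSphere (c t)) atTop (𝓝 ξ)
  bot : Tendsto (fun t => toSphere (c t)) atBot (𝓝 η)

/-- `C` is geodesically convex: it contains the geodesic segment between any two of its points. -/
def IsConvexSet (C : Set H3) : Prop :=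
  ∀ p ∈ C, ∀ q ∈ C, ∀ z : H3, dist p z + dist z q = dist p q → z ∈ C

/-- The convex hull in `H3` of the limit set: the intersection of all closed convex sets which
contain every geodesic line with both ends in the limit set. -/
def limitHull (Γ : Subgroup (H3 ≃ᵢ H3)) : Set H3 :=
  {x | ∀ C : Set H3, IsClosed C → IsConvexSet C →
    (∀ (c : ℝ → H3) (ξ η : OnePoint E3), IsLine c ξ η → ξ ∈ limitSet Γ → η ∈ limitSet Γ →
      ∀ t, c t ∈ C) → x ∈ C}

/-- The image of `N` in `H3 / Γ` has finite volume: some set of finite hyperbolic volume has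
`Γ`-translates covering `N`. -/
def HasFiniteVolume (Γ : Subgroup (H3 ≃ᵢ H3)) (N : Set H3) : Prop :=
  ∃ D : Set H3, MeasurableSet D ∧ (μH[3] : Measure H3) D < ⊤ ∧
    ∀ x ∈ N, ∃ γ ∈ Γ, γ x ∈ D

/-- `H3 / Γ` is geometrically finite: the unit neighbourhood of its convex core has finite
volume. -/
def IsGeometricallyFinite (Γ : Subgroup (H3 ≃ᵢ H3)) : Prop :=
  HasFiniteVolume Γ (thickening 1 (limitHull Γ))

end Pool.Agent.H934R3
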