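import Mathlib
import Pool.Agent.H934R3.Geom

set_option autoImplicit false

noncomputable section

open Filter Metric Real Set Topology MeasureTheory
open scoped ContDiff NNReal ENNReal

namespace Pool.Agent.H934R3

namespace H3

/-- coordinates -/
def toPi (p : H3) : Fin 3 → ℝ := fun i => p.val i

/-- ball for `qq` -/
def qball (p : H3) (s : ℝ) : Set H3 := {z | qq p z < s}

theorem continuous_qq : Continuous fun x : H3 × H3 => qq x.1 x.2 := by
  have h1 : Continuous fun x : H3 × H3 => dist x.1.val x.2.val :=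
    (continuous_val.comp continuous_fst).dist (continuous_val.comp continuous_snd)
  have h2 : Continuous fun x : H3 × H3 => 2 * x.1.val 2 * x.2.val 2 :=
    (continuous_const.mul (continuous_height.comp continuous_fst)).mul
      (continuous_height.comp continuous_snd)
  refine (h1.pow 2).div h2 fun x => ?_
  have := x.1.pos
  have := x.2.pos
  positivity

theorem isOpen_qball (p : H3) (s : ℝ) : IsOpen (qball p s) := by
  have h1 : Continuous fun z : H3 => (p, z) := continuous_const.prodMk continuous_id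
  have h2 := continuous_qq.comp h1
  exact h2.isOpen_preimage (Iio s) isOpen_Iio

theorem qball_image (g : H3 ≃ᵢ H3) (p : H3) (s : ℝ) : g '' (qball p s) = qball (g p) s := by
  ext z
  constructor
  · rintro ⟨w, hw, rfl⟩
    have : qq (g p) (g w) = qq p w := qq_dist_iff.1 (g.dist_eq p w)
    simpa [qball, this] using hw
  · intro hz
    refine ⟨g.symm z, ?_, by simp⟩
    have : qq (g p) (g (g.symm z)) = qq p (g.symm z) := qq_dist_iff.1 (g.dist_eq p _)
    simp only [IsometryEquiv.apply_symm_apply] at this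
    simpa [qball, ← this] using hz

theorem measure_qball (p : H3) (s : ℝ) :
    (μH[3] : Measure H3) (qball p s) = (μH[3] : Measure H3) (qball base s) := by
  obtain ⟨g, rfl⟩ := exists_isometry p
  rw [← qball_image, IsometryEquiv.hausdorffMeasure_image]

theorem height_le_four {p q : H3} (h : qq p q ≤ 1) : p.val 2 ≤ 4 * q.val 2 := by
  have hp := p.pos; have hq := q.pos
  have h1 : dist p.val q.val ^ 2 ≤ 2 * p.val 2 * q.val 2 := by
    unfold qq at h
    rwa [div_le_one (by positivity)] at h
  rw [dist_sq] at h1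
  by_contra hcon
  push Not at hcon
  nlinarith [sq_nonneg (p.val 0 - q.val 0), sq_nonneg (p.val 1 - q.val 1)]

theorem dist_base_sq (z : H3) :
    dist base.val z.val ^ 2 = (z.val 0) ^ 2 + (z.val 1) ^ 2 + (1 - z.val 2) ^ 2 := by
  rw [dist_sq]; simp [base]

theorem toPi_dist_le (p q : H3) : dist (toPi p) (toPi q) ≤ dist p.val q.val := by
  rw [dist_pi_le_iff dist_nonneg]
  intro i
  have h := dist_sq p.val q.val
  rw [Real.dist_eq]
  refine abs_le_of_sq_le_sq ?_ dist_nonneg
  rw [h]
  simp only [toPi]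
  fin_cases i <;> simp <;> nlinarith [sq_nonneg (p.val 0 - q.val 0),
    sq_nonneg (p.val 1 - q.val 1), sq_nonneg (p.val 2 - q.val 2)]

/-- the chart `u ↦ u + base` with values in `H3` (with junk outside the half-space) -/
def chart (u : Fin 3 → ℝ) : H3 :=
  if h : 0 < u 2 then ⟨!₂[u 0, u 1, u 2], by simpa using h⟩ else base

theorem chart_toPi (p : H3) : chart (toPi p) = p := by
  have hp := p.pos
  have : 0 < toPi p 2 := hp
  rw [chart, dif_pos this]
  apply ext; ext i
  fin_cases i <;> simp [toPi]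

theorem toPi_chart (u : Fin 3 → ℝ) (h : 0 < u 2) : toPi (chart u) = u := by
  rw [chart, dif_pos h]
  ext i
  fin_cases i <;> simp [toPi]

/-- centre of the cubes -/
def ctr : Fin 3 → ℝ := toPi base

theorem ctr_eq : ctr 0 = 0 ∧ ctr 1 = 0 ∧ ctr 2 = 1 := by
  simp [ctr, toPi, base]

theorem mem_cube {u : Fin 3 → ℝ} {r : ℝ} (h : u ∈ closedBall ctr r) :
    |u 0| ≤ r ∧ |u 1| ≤ r ∧ |u 2 - 1| ≤ r := by
  rw [mem_closedBall] at h
  have hr : 0 ≤ r := dist_nonneg.trans h
  rw [dist_pi_le_iff hr] at h
  have h0 := h 0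
  have h1 := h 1
  have h2 := h 2
  rw [Real.dist_eq] at h0 h1 h2
  rw [ctr_eq.1, sub_zero] at h0
  rw [ctr_eq.2.1, sub_zero] at h1
  rw [ctr_eq.2.2] at h2
  exact ⟨h0, h1, h2⟩

theorem chart_lipschitz {r : ℝ} (hr : r ≤ 1 / 2) :
    LipschitzOnWith 4 chart (closedBall ctr r) := by
  refine LipschitzOnWith.of_dist_le_mul fun u hu v hv => ?_
  obtain ⟨hu0, hu1, hu2⟩ := mem_cube hu
  obtain ⟨hv0, hv1, hv2⟩ := mem_cube hv
  rw [abs_le] at hu2 hv2
  have hu3 : 1 / 2 ≤ u 2 := by linarith
  have hv3 : 1 / 2 ≤ v 2 := by linarith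
  have hu4 : 0 < u 2 := by linarith
  have hv4 : 0 < v 2 := by linarith
  refine (dist_le_div_sqrt _ _).trans ?_
  have e1 : (chart u).val 2 = u 2 := congrFun (toPi_chart u hu4) 2
  have e2 : (chart v).val 2 = v 2 := congrFun (toPi_chart v hv4) 2
  rw [e1, e2]
  have h1 : 1 / 2 ≤ √(u 2 * v 2) := by
    apply Real.le_sqrt_of_sq_le
    nlinarith
  have h2 : dist (chart u).val (chart v).val ≤ 2 * dist u v := by
    refine abs_le_of_sq_le_sq' ?_ (by positivity) |>.2
    rw [dist_sq]
    have f0 : (chart u).val 0 = u 0 := congrFun (toPi_chart u hu4) 0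
    have f1 : (chart u).val 1 = u 1 := congrFun (toPi_chart u hu4) 1
    have g0 : (chart v).val 0 = v 0 := congrFun (toPi_chart v hv4) 0
    have g1 : (chart v).val 1 = v 1 := congrFun (toPi_chart v hv4) 1
    rw [e1, e2, f0, f1, g0, g1]
    have k : ∀ i, (u i - v i) ^ 2 ≤ dist u v ^ 2 := fun i => by
      have := dist_le_pi_dist u v i
      rw [Real.dist_eq] at this
      rw [← sq_abs]
      gcongr
    have := k 0
    have := k 1
    have := k 2
    nlinarith [sq_nonneg (dist u v)]
  rw [div_le_iff₀ (by linarith)]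
  have h3 : 0 ≤ dist u v := dist_nonneg
  have : ((4 : ℝ≥0) : ℝ) = 4 := rfl
  rw [this]
  nlinarith

theorem qball_subset_chart {e : ℝ} (he : 0 < e) (he1 : e ≤ 1 / 64) :
    qball base (2 * e) ⊆ chart '' (closedBall ctr (4 * √e)) := by
  intro z hz
  refine ⟨toPi z, ?_, chart_toPi z⟩
  have hz0 := z.pos
  have hz' : qq base z < 2 * e := hz
  have h4 : z.val 2 ≤ 4 * base.val 2 := by
    apply height_le_four; rw [qq_comm]; linarith
  have hb : base.val 2 = 1 := by simp [base]
  rw [hb] at h4
  have h5 : dist base.val z.val ^ 2 < 16 * e := by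
    unfold qq at hz'
    rw [hb, div_lt_iff₀ (by positivity)] at hz'
    nlinarith
  rw [mem_closedBall, ctr]
  refine (toPi_dist_le _ _).trans ?_
  rw [dist_comm]
  refine abs_le_of_sq_le_sq' ?_ (by positivity) |>.2
  rw [mul_pow, sq_sqrt he.le]
  linarith

theorem toPi_lipschitz {e : ℝ} (he : 0 < e) (he1 : e ≤ 1 / 64) :
    LipschitzOnWith 8 toPi (qball base (e / 2)) := by
  refine LipschitzOnWith.of_dist_le_mul fun p hp q hq => ?_
  have hp' : qq base p < e / 2 := hp
  have hq' : qq base q < e / 2 := hq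
  have hp2 : p.val 2 ≤ 4 * base.val 2 := by
    apply height_le_four; rw [qq_comm]; linarith
  have hq2 : q.val 2 ≤ 4 * base.val 2 := by
    apply height_le_four; rw [qq_comm]; linarith
  have hb : base.val 2 = 1 := by simp [base]
  rw [hb] at hp2 hq2
  have hp0 := p.pos
  have hq0 := q.pos
  have dp : dist base p ≤ 1 := by
    have := dist_sq_le base p
    nlinarith [dist_nonneg (x := base) (y := p)]
  have dq : dist base q ≤ 1 := by
    have := dist_sq_le base q
    nlinarith [dist_nonneg (x := base) (y := q)]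
  have d2 : dist p q ≤ 2 := by
    have := dist_triangle p base q
    rw [dist_comm p base] at this
    linarith
  refine (toPi_dist_le _ _).trans ?_
  refine (dist_val_le _ _).trans ?_
  have h1 : √(p.val 2 * q.val 2) ≤ 4 := by
    rw [Real.sqrt_le_left (by norm_num)]
    nlinarith
  have h0 : 0 ≤ dist p q := dist_nonneg
  have h2 : sinh (dist p q / 2) ≤ dist p q := by
    -- convexity: sinh x ≤ x cosh x ≤ 2 x for x ≤ 1
    have hx : 0 ≤ dist p q / 2 := by positivity
    have h3 : sinh (dist p q / 2) ≤ (dist p q / 2) * cosh (dist p q / 2) := by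
      have hmono : ∀ x : ℝ, 0 ≤ x → sinh x ≤ x * cosh x := by
        intro x hx
        have hd : ∀ y ∈ Ici (0 : ℝ), 0 ≤ y * sinh y := fun y hy =>
          mul_nonneg hy (sinh_nonneg_iff.2 hy)
        have hmono : MonotoneOn (fun y : ℝ => y * cosh y - sinh y) (Ici 0) := by
          refine monotoneOn_of_deriv_nonneg (convex_Ici 0) ?_ ?_ ?_
          · exact ((continuous_id.mul continuous_cosh).sub continuous_sinh).continuousOn
          · intro y _
            exact ((differentiableAt_id.mul Real.differentiableAt_cosh).sub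
              Real.differentiableAt_sinh).differentiableWithinAt
          · intro y hy
            rw [interior_Ici] at hy
            have : HasDerivAt (fun y : ℝ => y * cosh y - sinh y)
                (1 * cosh y + y * sinh y - cosh y) y :=
              ((hasDerivAt_id y).mul (Real.hasDerivAt_cosh y)).sub (Real.hasDerivAt_sinh y)
            rw [this.deriv]
            have := mul_nonneg (le_of_lt hy) (sinh_nonneg_iff.2 (le_of_lt hy))
            linarith
        have := hmono (mem_Ici.2 le_rfl) (mem_Ici.2 hx) hx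
        simp at this
        linarith
      exact hmono _ hx
    have h4 : cosh (dist p q / 2) ≤ 2 := by
      have h5 : cosh (dist p q / 2) ≤ cosh 1 := by
        rw [cosh_le_cosh, abs_of_nonneg hx, abs_one]; linarith
      have h6 : cosh 1 ≤ 2 := by
        rw [cosh_eq]
        have := Real.exp_one_lt_d9
        have h7 : exp (-1) ≤ 1 := by
          rw [exp_le_one_iff]; norm_num
        linarith
      linarith
    nlinarith
  have h3 : 0 ≤ sinh (dist p q / 2) := sinh_nonneg_iff.2 (by positivity)
  have : ((8 : ℝ≥0) : ℝ) = 8 := rfl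
  rw [this]
  nlinarith [Real.sqrt_nonneg (p.val 2 * q.val 2)]

theorem cube_subset {e : ℝ} (he : 0 < e) (he1 : e ≤ 1 / 64) :
    closedBall ctr (√e / 4) ⊆ toPi '' (qball base (e / 2)) := by
  intro u hu
  obtain ⟨h0, h1, h2⟩ := mem_cube hu
  have hs : √e ≤ 1 / 8 := by
    rw [Real.sqrt_le_left (by norm_num)]; linarith
  rw [abs_le] at h0 h1 h2
  have hu2 : 0 < u 2 := by linarith
  refine ⟨chart u, ?_, toPi_chart u hu2⟩
  have f0 : (chart u).val 0 = u 0 := congrFun (toPi_chart u hu2) 0
  have f1 : (chart u).val 1 = u 1 := congrFun (toPi_chart u hu2) 1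
  have f2 : (chart u).val 2 = u 2 := congrFun (toPi_chart u hu2) 2
  show qq base (chart u) < e / 2
  have hb : base.val 2 = 1 := by simp [base]
  unfold qq
  rw [dist_base_sq, f0, f1, f2, hb, div_lt_iff₀ (by linarith)]
  have hsq : √e ^ 2 = e := sq_sqrt he.le
  have k0 : (u 0) ^ 2 ≤ (√e / 4) ^ 2 := by nlinarith
  have k1 : (u 1) ^ 2 ≤ (√e / 4) ^ 2 := by nlinarith
  have k2 : (1 - u 2) ^ 2 ≤ (√e / 4) ^ 2 := by nlinarith
  have k3 : (√e / 4) ^ 2 = e / 16 := by rw [div_pow, hsq]; norm_num
  rw [k3] at k0 k1 k2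
  nlinarith

theorem haus3 : (μH[(3 : ℝ)] : Measure (Fin 3 → ℝ)) = volume := by
  have := hausdorffMeasure_pi_real (ι := Fin 3)
  simpa using this

/-- upper bound for the volume of small balls -/
theorem vol_upper {e : ℝ} (he : 0 < e) (he1 : e ≤ 1 / 64) :
    (μH[3] : Measure H3) (qball base (2 * e)) ≤ ENNReal.ofReal (64 * (8 * √e) ^ 3) := by
  have h4 : 4 * √e ≤ 1 / 2 := by
    have : √e ≤ 1 / 8 := by
      rw [Real.sqrt_le_left (by norm_num)]; linarith
    linarith
  calc (μH[3] : Measure H3) (qball base (2 * e))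
      ≤ (μH[3] : Measure H3) (chart '' (closedBall ctr (4 * √e))) :=
        measure_mono (qball_subset_chart he he1)
    _ ≤ ((4 : ℝ≥0) : ℝ≥0∞) ^ (3 : ℝ) * (μH[3] : Measure (Fin 3 → ℝ)) (closedBall ctr (4 * √e)) :=
        (chart_lipschitz h4).hausdorffMeasure_image_le (by norm_num)
    _ = ENNReal.ofReal (64 * (8 * √e) ^ 3) := by
        rw [haus3, Real.volume_pi_closedBall _ (by positivity)]
        have : ((4 : ℝ≥0) : ℝ≥0∞) ^ (3 : ℝ) = ENNReal.ofReal 64 := by
          have h3 : (3 : ℝ) = ((3 : ℕ) : ℝ) := by norm_num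
          rw [h3, ENNReal.rpow_natCast, ENNReal.ofReal]
          norm_num
        rw [this, ← ENNReal.ofReal_mul (by norm_num)]
        congr 1
        simp only [Fintype.card_fin]
        ring

/-- lower bound for the volume of small balls -/
theorem vol_lower {e : ℝ} (he : 0 < e) (he1 : e ≤ 1 / 64) :
    ENNReal.ofReal ((√e / 2) ^ 3) ≤ ENNReal.ofReal 512 * (μH[3] : Measure H3) (qball base (e / 2)) := by
  calc ENNReal.ofReal ((√e / 2) ^ 3) = volume (closedBall ctr (√e / 4)) := by
        rw [Real.volume_pi_closedBall _ (by positivity)]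
        congr 1
        simp only [Fintype.card_fin]
        ring
    _ ≤ (μH[3] : Measure (Fin 3 → ℝ)) (toPi '' (qball base (e / 2))) := by
        rw [haus3]; exact measure_mono (cube_subset he he1)
    _ ≤ ((8 : ℝ≥0) : ℝ≥0∞) ^ (3 : ℝ) * (μH[3] : Measure H3) (qball base (e / 2)) :=
        (toPi_lipschitz he he1).hausdorffMeasure_image_le (by norm_num)
    _ = ENNReal.ofReal 512 * (μH[3] : Measure H3) (qball base (e / 2)) := by
        congr 1
        have h3 : (3 : ℝ) = ((3 : ℕ) : ℝ) := by norm_num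
        rw [h3, ENNReal.rpow_natCast, ENNReal.ofReal]
        norm_num

end H3

end Pool.Agent.H934R3
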