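import Mathlib
import Pool.Agent.H934R3.Volume

set_option autoImplicit false

noncomputable section

open Filter Metric Real Set Topology MeasureTheory
open scoped ContDiff NNReal ENNReal

namespace Pool.Agent.H934R3

namespace H3

/-- volume on `H3` -/
abbrev vol : Measure H3 := (μH[3] : Measure H3)

theorem vol_qball_lt_top (p : H3) {e : ℝ} (he : 0 < e) (he1 : e ≤ 1 / 64) :
    vol (qball p (2 * e)) < ⊤ := by
  rw [measure_qball]
  exact (vol_upper he he1).trans_lt ENNReal.ofReal_lt_top

theorem vol_qball_pos (p : H3) {e : ℝ} (he : 0 < e) (he1 : e ≤ 1 / 64) :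
    0 < vol (qball p (e / 2)) := by
  rw [measure_qball]
  by_contra hcon
  have h0 : vol (qball base (e / 2)) = 0 := by simpa using hcon
  have h := vol_lower he he1
  rw [h0, mul_zero] at h
  have h2 : 0 < ENNReal.ofReal ((√e / 2) ^ 3) := by
    rw [ENNReal.ofReal_pos]; positivity
  exact absurd h (not_le.2 h2)

/-- doubling -/
theorem doubling (p : H3) {e : ℝ} (he : 0 < e) (he1 : e ≤ 1 / 64) :
    (vol (qball p (2 * e))).toReal ≤ 134217728 * (vol (qball p (e / 2))).toReal := by
  rw [measure_qball, measure_qball p]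
  have h1 := vol_upper he he1
  have h2 := vol_lower he he1
  have hfin : vol (qball base (e / 2)) < ⊤ := by
    refine lt_of_le_of_lt (measure_mono ?_) (vol_qball_lt_top base he he1)
    intro z hz
    have : qq base z < e / 2 := hz
    show qq base z < 2 * e
    linarith
  have h3 : (vol (qball base (2 * e))).toReal ≤ 64 * (8 * √e) ^ 3 :=
    ENNReal.toReal_le_of_le_ofReal (by positivity) h1
  have h4 : (√e / 2) ^ 3 ≤ 512 * (vol (qball base (e / 2))).toReal := by
    have := ENNReal.toReal_mono (ENNReal.mul_lt_top ENNReal.ofReal_lt_top hfin).ne h2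
    rwa [ENNReal.toReal_ofReal (by positivity), ENNReal.toReal_mul,
      ENNReal.toReal_ofReal (by norm_num)] at this
  nlinarith

instance : IsFiniteMeasureOnCompacts vol := by
  refine ⟨fun K hK => ?_⟩
  refine hK.measure_lt_top_of_nhdsWithin fun p _ => ?_
  refine ⟨qball p (2 * (1 / 64)), mem_nhdsWithin_of_mem_nhds
    ((isOpen_qball _ _).mem_nhds ?_), vol_qball_lt_top p (by norm_num) le_rfl⟩
  show qq p p < _
  rw [qq_self]; norm_num

/-- the cutoff profile -/
def kap : ContDiffBump (0 : ℝ) := ⟨1 / 2, 1, by norm_num, by norm_num⟩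

theorem kap_nonneg (s : ℝ) : 0 ≤ kap s := kap.nonneg
theorem kap_le_one (s : ℝ) : kap s ≤ 1 := kap.le_one
theorem kap_one {s : ℝ} (h0 : 0 ≤ s) (h : s ≤ 1 / 2) : kap s = 1 := by
  apply kap.one_of_mem_closedBall
  rw [mem_closedBall, Real.dist_eq, sub_zero, abs_of_nonneg h0]
  exact h
theorem kap_zero {s : ℝ} (h : 1 ≤ s) : kap s = 0 := by
  apply kap.zero_of_le_dist
  rw [Real.dist_eq, sub_zero]
  exact h.trans (le_abs_self s)

theorem kap_lip : ∃ M : ℝ, 0 < M ∧ ∀ s t : ℝ, |kap s - kap t| ≤ M * |s - t| := by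
  obtain ⟨C, hC⟩ := kap.contDiff.lipschitzWith_of_hasCompactSupport kap.hasCompactSupport
    (n := 1) one_ne_zero
  refine ⟨C + 1, by positivity, fun s t => ?_⟩
  have := hC.dist_le_mul s t
  rw [Real.dist_eq, Real.dist_eq] at this
  nlinarith [abs_nonneg (s - t)]

/-- the smoothing kernel at scale `e` -/
def ker (e : ℝ) (x z : H3) : ℝ := kap (qq x z / e)

theorem ker_nonneg (e : ℝ) (x z : H3) : 0 ≤ ker e x z := kap_nonneg _
theorem ker_le_one (e : ℝ) (x z : H3) : ker e x z ≤ 1 := kap_le_one _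

theorem ker_eq_zero {e : ℝ} (he : 0 < e) {x z : H3} (h : e ≤ qq x z) : ker e x z = 0 :=
  kap_zero (by rwa [one_le_div he])

theorem ker_eq_one {e : ℝ} (he : 0 < e) {x z : H3} (h : qq x z ≤ e / 2) : ker e x z = 1 := by
  apply kap_one
  · exact div_nonneg (qq_nonneg _ _) he.le
  · rw [div_le_iff₀ he]; linarith

theorem continuous_ker (e : ℝ) (x : H3) : Continuous fun z => ker e x z := by
  have h1 : Continuous fun z : H3 => (x, z) := continuous_const.prodMk continuous_id
  have h2 := continuous_qq.comp h1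
  exact kap.continuous.comp (h2.div_const e)

theorem cosh_sub_le {a b d : ℝ} (ha : 0 ≤ a) (hb : 0 ≤ b) (had : a ≤ d) (hbd : b ≤ d) :
    |cosh a - cosh b| ≤ sinh d * |a - b| := by
  have := Convex.norm_image_sub_le_of_norm_deriv_le (f := cosh) (s := Icc 0 d) (C := sinh d)
    (x := b) (y := a) (fun x _ => Real.differentiableAt_cosh) (fun x hx => by
      rw [Real.deriv_cosh, Real.norm_eq_abs, abs_of_nonneg (sinh_nonneg_iff.2 hx.1)]
      exact sinh_le_sinh.2 hx.2) (convex_Icc 0 d) ⟨hb, hbd⟩ ⟨ha, had⟩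
  simpa [Real.norm_eq_abs] using this

theorem exists_cosh_eq {e : ℝ} (he : 0 < e) : ∃ d : ℝ, 0 ≤ d ∧ cosh d = 1 + e :=
  ⟨arcosh (1 + e), Real.arcosh_nonneg (by linarith), Real.cosh_arcosh (by linarith)⟩

theorem sinh_le_of_cosh {e d : ℝ} (he : 0 < e) (he1 : e ≤ 1) (hd : 0 ≤ d)
    (h : cosh d = 1 + e) : sinh d ≤ 2 * √e := by
  have h1 := Real.cosh_sq d
  have h0 : 0 ≤ sinh d := sinh_nonneg_iff.2 hd
  have h2 : sinh d ^ 2 = 2 * e + e ^ 2 := by rw [h] at h1; linarith
  refine abs_le_of_sq_le_sq' ?_ (by positivity) |>.2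
  rw [mul_pow, sq_sqrt he.le]
  nlinarith

/-- the kernel is Lipschitz with constant `O(e^{-1/2})` for the hyperbolic distance -/
theorem ker_lip : ∃ M : ℝ, 0 < M ∧ ∀ e : ℝ, 0 < e → e ≤ 1 → ∀ x x' z : H3,
    |ker e x z - ker e x' z| ≤ M / √e * dist x x' := by
  obtain ⟨M, hM, h⟩ := kap_lip
  refine ⟨2 * M, by positivity, fun e he he1 x x' z => ?_⟩
  obtain ⟨d, hd, hcd⟩ := exists_cosh_eq he
  have hg : ∀ y : H3, ker e y z = kap ((cosh (min (dist y z) d) - 1) / e) := by
    intro y
    rcases le_total (dist y z) d with h1 | h1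
    · rw [min_eq_left h1, cosh_dist_eq, ker]; congr 2; ring
    · rw [min_eq_right h1, hcd, kap_zero (by rw [add_sub_cancel_left, div_self he.ne'])]
      apply ker_eq_zero he
      have h2 : cosh d ≤ cosh (dist y z) := by
        rw [cosh_le_cosh, abs_of_nonneg hd, abs_of_nonneg dist_nonneg]; exact h1
      rw [cosh_dist_eq, hcd] at h2
      linarith
  rw [hg x, hg x']
  refine (h _ _).trans ?_
  have h1 : (cosh (min (dist x z) d) - 1) / e - (cosh (min (dist x' z) d) - 1) / e =
      (cosh (min (dist x z) d) - cosh (min (dist x' z) d)) / e := by ring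
  rw [h1, abs_div, abs_of_pos he]
  have h2 := cosh_sub_le (a := min (dist x z) d) (b := min (dist x' z) d) (d := d)
    (le_min dist_nonneg hd) (le_min dist_nonneg hd) (min_le_right _ _) (min_le_right _ _)
  have h3 := sinh_le_of_cosh he he1 hd hcd
  have h4 : |min (dist x z) d - min (dist x' z) d| ≤ dist x x' := by
    refine (abs_min_sub_min_le_max _ _ _ _).trans ?_
    rw [sub_self, abs_zero, max_eq_left (abs_nonneg _)]
    exact abs_dist_sub_le _ _ _
  have h5 : |cosh (min (dist x z) d) - cosh (min (dist x' z) d)| ≤ 2 * √e * dist x x' := by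
    refine h2.trans ?_
    gcongr
  have hse : 0 < √e := Real.sqrt_pos.2 he
  have h6 : √e * √e = e := Real.mul_self_sqrt he.le
  calc M * (|cosh (min (dist x z) d) - cosh (min (dist x' z) d)| / e)
      ≤ M * ((2 * √e * dist x x') / e) := by gcongr
    _ = 2 * M / √e * dist x x' := by
        field_simp
        linear_combination (dist x x') * h6

end H3

end Pool.Agent.H934R3
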