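import Mathlib
import Pool.Agent.H934R3.Kernel

set_option autoImplicit false

noncomputable section

open Filter Metric Real Set Topology MeasureTheory
open scoped ContDiff NNReal ENNReal Convolution

namespace Pool.Agent.H934R3

namespace H3

/-- `qq` with first argument in Euclidean space -/
def qE (x : E3) (w : E3) : ℝ := ‖x - w‖ ^ 2 / (2 * x 2 * w 2)

theorem qE_val (x z : H3) : qE x.val z.val = qq x z := by
  rw [qE, qq, dist_eq_norm]

/-- hyperbolic balls in Euclidean terms -/
theorem ball_subset_euclid {p z : H3} {r : ℝ} (h : dist p z ≤ r) (hr : 0 ≤ r) :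
    ‖z.val - !₂[p.val 0, p.val 1, p.val 2 * cosh r]‖ ≤ p.val 2 * sinh r := by
  have hp := p.pos; have hz := z.pos
  have h1 : cosh (dist p z) ≤ cosh r := by
    rw [cosh_le_cosh, abs_of_nonneg dist_nonneg, abs_of_nonneg hr]; exact h
  rw [cosh_dist] at h1
  have h2 : dist p.val z.val ^ 2 ≤ (cosh r - 1) * (2 * p.val 2 * z.val 2) := by
    have h3 : dist p.val z.val ^ 2 / (2 * p.val 2 * z.val 2) ≤ cosh r - 1 := by linarith
    rwa [div_le_iff₀ (by positivity)] at h3
  rw [dist_sq] at h2
  have hs : 0 ≤ sinh r := sinh_nonneg_iff.2 hr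
  refine abs_le_of_sq_le_sq' ?_ (by positivity) |>.2
  rw [norm_sq, mul_pow, Real.sinh_sq]
  simp
  nlinarith

/-- the extension of a function on `H3` to `E3` -/
def extE (ψ : H3 → ℝ) : E3 → ℝ := Function.extend H3.val ψ 0

theorem measurableEmbedding_val : MeasurableEmbedding (H3.val : H3 → E3) :=
  isOpenEmbedding_val.measurableEmbedding

theorem contDiffOn_smoothing_aux (ψ : H3 → ℝ) (hψ : Measurable ψ) (hb : ∀ z, |ψ z| ≤ 1)
    {e : ℝ} (he : 0 < e) (he1 : e ≤ 1 / 64) (p : H3) :
    ∃ U : Set E3, IsOpen U ∧ p.val ∈ U ∧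
      ContDiffOn ℝ ∞ (fun x : E3 => ∫ z, ψ z * kap (qE x z.val / e) ∂vol) U := by
  have hp := p.pos
  set C : Set H3 := closedBall p 1 with hC
  have hCc : IsCompact C := isCompact_closedBall _ _
  set c : E3 := !₂[p.val 0, p.val 1, p.val 2 * cosh 1] with hc
  have hsc : sinh 1 < cosh 1 := Real.sinh_lt_cosh 1
  have hs1 : 0 < sinh 1 := Real.sinh_pos_iff.2 one_pos
  let χ : ContDiffBump c := ⟨p.val 2 * sinh 1, p.val 2 * ((sinh 1 + cosh 1) / 2), by positivity,
    by apply mul_lt_mul_of_pos_left _ hp; linarith⟩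
  have hχ1 : ∀ z ∈ C, χ z.val = 1 := by
    intro z hz
    apply χ.one_of_mem_closedBall
    rw [mem_closedBall, dist_eq_norm]
    exact ball_subset_euclid (by rw [dist_comm]; exact hz) (by norm_num)
  have hχU : tsupport χ ⊆ UHS := by
    rw [χ.tsupport_eq]
    intro y hy
    rw [mem_closedBall, dist_eq_norm] at hy
    have h1 : |(y - c) 2| ≤ ‖y - c‖ := by
      have := EuclideanSpace.norm_eq (y - c)
      have h2 := norm_sq (y - c)
      refine abs_le_of_sq_le_sq ?_ (norm_nonneg _)
      nlinarith [sq_nonneg ((y - c) 0), sq_nonneg ((y - c) 1)]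
    have h2 : (y - c) 2 = y 2 - p.val 2 * cosh 1 := by simp [hc]
    rw [h2, abs_le] at h1
    have h3 : χ.rOut = p.val 2 * ((sinh 1 + cosh 1) / 2) := rfl
    rw [h3] at hy
    show 0 < y 2
    nlinarith
  set μ' : Measure E3 := Measure.map H3.val (vol.restrict C) with hμ'
  have : IsFiniteMeasure (vol.restrict C) := ⟨by
    rw [Measure.restrict_apply_univ]; exact hCc.measure_lt_top⟩
  have : IsFiniteMeasure μ' := by
    rw [hμ']
    exact Measure.isFiniteMeasure_map _ _
  have hf_meas : Measurable (extE ψ) :=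
    measurableEmbedding_val.measurable_extend hψ measurable_const
  have hf_bd : ∀ w, ‖extE ψ w‖ ≤ 1 := by
    intro w
    by_cases hw : ∃ z : H3, z.val = w
    · obtain ⟨z, rfl⟩ := hw
      rw [extE, val_injective.extend_apply]
      exact hb z
    · rw [extE, Function.extend_apply' _ _ _ hw]; simp
  have hf_int : LocallyIntegrable (extE ψ) μ' := by
    apply Integrable.locallyIntegrable
    exact Integrable.of_bound hf_meas.aestronglyMeasurable 1 (Eventually.of_forall hf_bd)
  let g : E3 → E3 → ℝ := fun x w => kap (qE x (-w) / e) * χ (-w)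
  have hs : IsOpen (H3.val '' (ball p (1 / 2))) := isOpenEmbedding_val.isOpenMap _ isOpen_ball
  have hk : IsCompact ((fun w : E3 => -w) ⁻¹' (tsupport χ)) := by
    have h1 : IsCompact (tsupport χ) := χ.hasCompactSupport
    have := h1.image (continuous_neg (G := E3))
    simpa [Set.image_neg_eq_neg] using this
  have hgs : ∀ x w, x ∈ H3.val '' (ball p (1 / 2)) → w ∉ (fun w : E3 => -w) ⁻¹' (tsupport χ) →
      g x w = 0 := by
    intro x w _ hw
    have : χ (-w) = 0 := image_eq_zero_of_notMem_tsupport hw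
    simp [g, this]
  have hg : ContDiffOn ℝ ∞ (Function.uncurry g) ((H3.val '' (ball p (1 / 2))) ×ˢ univ) := by
    rintro ⟨x, w⟩ ⟨hx, -⟩
    apply ContDiffAt.contDiffWithinAt
    obtain ⟨y, -, rfl⟩ := hx
    have hy := y.pos
    by_cases hw : 0 < (-w) 2
    · have hk : ContDiff ℝ ∞ (kap : ℝ → ℝ) := kap.contDiff
      have hχ' : ContDiff ℝ ∞ (χ : E3 → ℝ) := χ.contDiff
      have h1 : ContDiffAt ℝ ∞ (fun q : E3 × E3 => qE q.1 (-q.2) / e) (y.val, w) := by
        unfold qE
        have e1 : ContDiff ℝ ∞ (fun q : E3 × E3 => ‖q.1 - (-q.2)‖ ^ 2) :=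
          ContDiff.norm_sq ℝ (contDiff_fst.sub contDiff_snd.neg)
        have e0 : ContDiff ℝ ∞ (fun x : E3 => x 2) := by
          exact (EuclideanSpace.proj (𝕜 := ℝ) (2 : Fin 3)).contDiff
        have e2 : ContDiff ℝ ∞ (fun q : E3 × E3 => 2 * q.1 2 * (-q.2) 2) :=
          (contDiff_const.mul (e0.comp contDiff_fst)).mul (e0.comp contDiff_snd.neg)
        refine (e1.contDiffAt.div e2.contDiffAt ?_).div_const e
        have : 0 < 2 * y.val 2 * (-w) 2 := by positivity
        exact this.ne'
      have h2 : ContDiffAt ℝ ∞ (fun q : E3 × E3 => χ (-q.2)) (y.val, w) :=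
        (hχ'.comp contDiff_snd.neg).contDiffAt
      exact (hk.contDiffAt.comp _ h1).mul h2
    · have h1 : (-w) ∉ tsupport χ := fun h => hw (hχU h)
      have h2 : ∀ᶠ q : E3 × E3 in 𝓝 (y.val, w), (-q.2) ∉ tsupport χ := by
        have hc' : Continuous fun q : E3 × E3 => -q.2 := continuous_snd.neg
        exact ((isClosed_tsupport (χ : E3 → ℝ)).isOpen_compl.preimage hc').mem_nhds h1
      have h3 : Function.uncurry g =ᶠ[𝓝 (y.val, w)] fun _ => 0 := by
        filter_upwards [h2] with q hq
        have : χ (-q.2) = 0 := image_eq_zero_of_notMem_tsupport hq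
        simp [Function.uncurry, g, this]
      exact contDiffAt_const.congr_of_eventuallyEq h3
  have hmain := contDiffOn_convolution_right_with_param_comp (n := ⊤)
    (ContinuousLinearMap.mul ℝ ℝ) (v := fun _ : E3 => (0 : E3)) contDiffOn_const
    (f := extE ψ) (g := g) (μ := μ') hs hk hgs hf_int hg
  refine ⟨_, hs, ⟨p, by simp, rfl⟩, hmain.congr ?_⟩
  rintro x ⟨y, hy, rfl⟩
  -- identify the integrals
  rw [convolution_def, hμ', measurableEmbedding_val.integral_map]
  simp only [ContinuousLinearMap.mul_apply', zero_sub, g, neg_neg]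
  rw [← setIntegral_eq_integral_of_forall_compl_eq_zero (s := C)]
  · apply setIntegral_congr_fun measurableSet_closedBall
    intro z hz
    simp only
    rw [hχ1 z hz, extE, val_injective.extend_apply, mul_one]
  · intro z hz
    have h1 : 1 < dist z p := by
      rw [hC, mem_closedBall, not_le] at hz; exact hz
    rw [mem_ball] at hy
    have h2 : 1 / 2 < dist y z := by
      have := dist_triangle z y p
      rw [dist_comm z y] at this
      linarith
    have h3 := dist_sq_le y z
    have h4 : e ≤ qq y z := by nlinarith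
    have h5 : kap (qE y.val z.val / e) = 0 := by
      rw [qE_val]; exact ker_eq_zero he h4
    rw [h5, mul_zero]

theorem contDiffOn_smoothing (ψ : H3 → ℝ) (hψ : Measurable ψ) (hb : ∀ z, |ψ z| ≤ 1)
    {e : ℝ} (he : 0 < e) (he1 : e ≤ 1 / 64) :
    ContDiffOn ℝ ∞ (fun x : E3 => ∫ z, ψ z * kap (qE x z.val / e) ∂vol) UHS := by
  intro x hx
  obtain ⟨U, hU, hxU, h⟩ := contDiffOn_smoothing_aux ψ hψ hb he he1 ⟨x, hx⟩
  exact ((h x hxU).contDiffAt (hU.mem_nhds hxU)).contDiffWithinAt

end H3

end Pool.Agent.H934R3
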