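import Mathlib
import Pool.Agent.H934R3.Smooth

set_option autoImplicit false

noncomputable section

open Filter Metric Real Set Topology MeasureTheory
open scoped ContDiff NNReal ENNReal

namespace Pool.Agent.H934R3

namespace H3

/-- sup of `φ` over points of `S` close to `z` -/
def supNear (S : Set H3) (φ : H3 → ℝ) (e : ℝ) (z : H3) : ℝ :=
  sSup (insert 0 (φ '' {y | y ∈ S ∧ qq y z < 4 * e}))

section
variable {S : Set H3} {φ : H3 → ℝ} {e : ℝ}

theorem supNear_bdd (h1 : ∀ x, φ x ≤ 1) (z : H3) :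
    BddAbove (insert 0 (φ '' {y | y ∈ S ∧ qq y z < 4 * e})) := by
  refine ⟨1, ?_⟩
  rintro _ (rfl | ⟨y, -, rfl⟩)
  · norm_num
  · exact h1 y

theorem supNear_nonneg (h1 : ∀ x, φ x ≤ 1) (z : H3) : 0 ≤ supNear S φ e z :=
  le_csSup (supNear_bdd h1 z) (mem_insert _ _)

theorem supNear_le_one (h1 : ∀ x, φ x ≤ 1) (z : H3) : supNear S φ e z ≤ 1 := by
  refine csSup_le ⟨0, mem_insert _ _⟩ ?_
  rintro _ (rfl | ⟨y, -, rfl⟩)
  · norm_num
  · exact h1 y

theorem le_supNear (h1 : ∀ x, φ x ≤ 1) {y z : H3} (hy : y ∈ S) (h : qq y z < 4 * e) :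
    φ y ≤ supNear S φ e z :=
  le_csSup (supNear_bdd h1 z) (mem_insert_of_mem _ ⟨y, ⟨hy, h⟩, rfl⟩)

theorem supNear_measurable (h1 : ∀ x, φ x ≤ 1) : Measurable (supNear S φ e) := by
  refine measurable_of_Ioi fun a => ?_
  apply IsOpen.measurableSet
  have : supNear S φ e ⁻¹' Ioi a =
      {z | a < 0} ∪ ⋃ y ∈ {y | y ∈ S ∧ a < φ y}, {z | qq y z < 4 * e} := by
    ext z
    simp only [mem_preimage, mem_Ioi, supNear, mem_union, mem_ofPred_eq, mem_iUnion]
    rw [lt_csSup_iff (supNear_bdd h1 z) ⟨0, mem_insert _ _⟩]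
    constructor
    · rintro ⟨b, (rfl | ⟨y, ⟨hy, hyz⟩, rfl⟩), hab⟩
      · exact Or.inl hab
      · exact Or.inr ⟨y, ⟨hy, hab⟩, hyz⟩
    · rintro (h | ⟨y, ⟨hy, hab⟩, hyz⟩)
      · exact ⟨0, mem_insert _ _, h⟩
      · exact ⟨φ y, mem_insert_of_mem _ ⟨y, ⟨hy, hyz⟩, rfl⟩, hab⟩
  rw [this]
  refine IsOpen.union ?_ (isOpen_biUnion fun y _ => isOpen_qball y _)
  by_cases ha : a < 0 <;> simp [ha]

theorem dist_le_of_qq {x y : H3} {s : ℝ} (hs : 0 ≤ s) (h : qq x y ≤ s ^ 2 / 2) :
    dist x y ≤ s := by
  have := dist_sq_le x y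
  exact abs_le_of_sq_le_sq' (by linarith) hs |>.2

theorem near_dist {x y z : H3} (he : 0 < e) (h1 : qq x z < 2 * e) (h2 : qq y z < 4 * e) :
    dist x y ≤ 5 * √e := by
  have hs : √e ^ 2 = e := sq_sqrt he.le
  have h3 : dist x z ≤ 2 * √e := dist_le_of_qq (by positivity) (by nlinarith)
  have h4 : dist y z ≤ 3 * √e := dist_le_of_qq (by positivity) (by nlinarith)
  have := dist_triangle x z y
  rw [dist_comm z y] at this
  linarith

theorem supNear_close {B : ℝ} (h0 : ∀ x, 0 ≤ φ x) (h1 : ∀ x, φ x ≤ 1) (he : 0 < e)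
    (hB0 : 0 ≤ B) (hB : ∀ x ∈ S, ∀ y ∈ S, dist x y ≤ 5 * √e → φ y ≤ φ x + B)
    {x z : H3} (hx : x ∈ S) (hz : qq x z < 2 * e) : |supNear S φ e z - φ x| ≤ B := by
  have hlow : φ x ≤ supNear S φ e z := le_supNear h1 hx (by linarith)
  have hup : supNear S φ e z ≤ φ x + B := by
    refine csSup_le ⟨0, mem_insert _ _⟩ ?_
    rintro _ (rfl | ⟨y, ⟨hy, hyz⟩, rfl⟩)
    · have := h0 x; linarith
    · exact hB x hx y hy (near_dist he hz hyz)
  rw [abs_le]; constructor <;> linarith

theorem supNear_isometry (g : H3 ≃ᵢ H3) (hS : ∀ p, g p ∈ S ↔ p ∈ S) (hφ : ∀ p, φ (g p) = φ p)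
    (z : H3) : supNear S φ e (g z) = supNear S φ e z := by
  unfold supNear
  congr 2
  ext b
  constructor
  · rintro ⟨y, ⟨hy, hyz⟩, rfl⟩
    refine ⟨g.symm y, ⟨?_, ?_⟩, ?_⟩
    · rw [← hS]; simpa using hy
    · have : qq (g (g.symm y)) (g z) = qq (g.symm y) z := qq_dist_iff.1 (g.dist_eq _ _)
      rw [← this]; simpa using hyz
    · rw [← hφ]; simp
  · rintro ⟨y, ⟨hy, hyz⟩, rfl⟩
    refine ⟨g y, ⟨(hS y).2 hy, ?_⟩, hφ y⟩
    have : qq (g y) (g z) = qq y z := qq_dist_iff.1 (g.dist_eq _ _)
    rw [this]; exact hyz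

end

/-- weighted integral -/
def wint (e : ℝ) (ψ : H3 → ℝ) (x : H3) : ℝ := ∫ z, ψ z * ker e x z ∂vol

theorem integrable_mul_ker {e : ℝ} (he : 0 < e) (he1 : e ≤ 1 / 64) {ψ : H3 → ℝ}
    (hψ : Measurable ψ) {C : ℝ} (hb : ∀ z, |ψ z| ≤ C) (x : H3) :
    Integrable (fun z => ψ z * ker e x z) vol := by
  have hon : IntegrableOn (fun z => ψ z * ker e x z) (qball x (2 * e)) vol := by
    refine Measure.integrableOn_of_bounded (M := C) (vol_qball_lt_top x he he1).ne
      (hψ.mul (continuous_ker e x).measurable).aestronglyMeasurable ?_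
    refine Eventually.of_forall fun z => ?_
    rw [Real.norm_eq_abs, abs_mul, abs_of_nonneg (ker_nonneg e x z)]
    have h1 := hb z
    have h2 := ker_le_one e x z
    have h3 := ker_nonneg e x z
    have h4 := abs_nonneg (ψ z)
    nlinarith
  rw [← integrableOn_univ]
  refine (integrableOn_iff_integrable_of_support_subset ?_).1 hon |>.integrableOn
  intro z hz
  by_contra hcon
  apply hz
  have : 2 * e ≤ qq x z := by
    by_contra h; exact hcon (not_le.1 h)
  show ψ z * ker e x z = 0
  rw [ker_eq_zero he (by linarith), mul_zero]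

theorem wint_isometry (e : ℝ) (ψ : H3 → ℝ) (g : H3 ≃ᵢ H3) (x : H3) :
    wint e ψ (g x) = wint e (fun z => ψ (g z)) x := by
  have hmp : MeasurePreserving g vol vol :=
    IsometryEquiv.measurePreserving_hausdorffMeasure g 3
  have hme : MeasurableEmbedding g := g.toHomeomorph.measurableEmbedding
  unfold wint
  rw [← hmp.integral_comp hme]
  congr 1
  ext z
  have : qq (g x) (g z) = qq x z := qq_dist_iff.1 (g.dist_eq _ _)
  simp [ker, this]

/-- total mass of the kernel -/
def mass (e : ℝ) : ℝ := wint e (fun _ => 1) base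

theorem wint_one (e : ℝ) (x : H3) : wint e (fun _ => 1) x = mass e := by
  obtain ⟨g, rfl⟩ := exists_isometry x
  rw [wint_isometry]; rfl

theorem mass_ge {e : ℝ} (he : 0 < e) (he1 : e ≤ 1 / 64) (x : H3) :
    (vol (qball x (e / 2))).toReal ≤ mass e := by
  rw [← wint_one e x, wint]
  simp only [one_mul]
  have hfin : vol (qball x (e / 2)) < ⊤ := by
    refine lt_of_le_of_lt (measure_mono ?_) (vol_qball_lt_top x he he1)
    intro z hz
    have : qq x z < e / 2 := hz
    show qq x z < 2 * e
    linarith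
  have hint : Integrable (fun z => ker e x z) vol := by
    simpa using integrable_mul_ker he he1 (ψ := fun _ => (1 : ℝ)) measurable_const
      (C := 1) (by simp) x
  calc (vol (qball x (e / 2))).toReal = ∫ z in qball x (e / 2), (1 : ℝ) ∂vol := by
        simp [Measure.real]
    _ = ∫ z in qball x (e / 2), ker e x z ∂vol := by
        apply setIntegral_congr_fun (isOpen_qball _ _).measurableSet
        intro z hz
        have : qq x z < e / 2 := hz
        simp only
        rw [ker_eq_one he this.le]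
    _ ≤ ∫ z, ker e x z ∂vol := setIntegral_le_integral hint
        (Eventually.of_forall fun z => ker_nonneg e x z)

theorem mass_pos {e : ℝ} (he : 0 < e) (he1 : e ≤ 1 / 64) : 0 < mass e := by
  refine lt_of_lt_of_le ?_ (mass_ge he he1 base)
  have hfin : vol (qball base (e / 2)) < ⊤ := by
    refine lt_of_le_of_lt (measure_mono ?_) (vol_qball_lt_top base he he1)
    intro z hz
    have : qq base z < e / 2 := hz
    show qq base z < 2 * e
    linarith
  exact ENNReal.toReal_pos (vol_qball_pos base he he1).ne' hfin.ne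

theorem exists_eta {e : ℝ} (he : 0 < e) : ∃ η > 0, ∀ x x' z : H3, dist x x' < η →
    qq x' z < e → qq x z < 2 * e := by
  obtain ⟨d, hd, hcd⟩ := exists_cosh_eq he
  have hcont : Tendsto (fun t : ℝ => cosh (d + t)) (𝓝 0) (𝓝 (1 + e)) := by
    have : Continuous fun t : ℝ => cosh (d + t) := by fun_prop
    have h := this.tendsto 0
    simpa [hcd] using h
  obtain ⟨η, hη, h⟩ := Metric.eventually_nhds_iff.1
    (hcont.eventually (gt_mem_nhds (show 1 + e < 1 + 2 * e by linarith)))
  refine ⟨η, hη, fun x x' z hxx hz => ?_⟩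
  have h1 : cosh (dist x' z) < cosh d := by rw [cosh_dist_eq, hcd]; linarith
  rw [cosh_lt_cosh, abs_of_nonneg dist_nonneg, abs_of_nonneg hd] at h1
  have h2 := dist_triangle x x' z
  have h3 : cosh (dist x z) ≤ cosh (d + dist x x') := by
    rw [cosh_le_cosh, abs_of_nonneg dist_nonneg, abs_of_nonneg (by positivity)]
    linarith
  have h4 := h (y := dist x x') (by
    rw [Real.dist_eq, sub_zero, abs_of_nonneg dist_nonneg]; exact hxx)
  rw [cosh_dist_eq] at h3
  linarith

/-- the smoothed cutoff -/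
def smooth (S : Set H3) (φ : H3 → ℝ) (e : ℝ) (x : E3) : ℝ :=
  (∫ z, supNear S φ e z * kap (qE x z.val / e) ∂vol) / mass e

theorem smooth_val (S : Set H3) (φ : H3 → ℝ) (e : ℝ) (x : H3) :
    smooth S φ e x.val = wint e (supNear S φ e) x / mass e := by
  unfold smooth wint ker
  simp_rw [qE_val]

/-- a universal constant bounding gradients of smoothed cutoffs -/
theorem exists_smooth_bound : ∃ A : ℝ, 0 < A ∧ ∀ (S : Set H3) (φ : H3 → ℝ) (e B : ℝ),
    (∀ x, 0 ≤ φ x) → (∀ x, φ x ≤ 1) → 0 < e → e ≤ 1 / 64 → 0 ≤ B →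
    (∀ x ∈ S, ∀ y ∈ S, dist x y ≤ 5 * √e → φ y ≤ φ x + B) →
    ∀ x ∈ S, ‖fderiv ℝ (smooth S φ e) x.val‖ ≤ A * (B / √e) / x.val 2 := by
  obtain ⟨M, hM, hlip⟩ := ker_lip
  refine ⟨2 * (134217728 * M), by positivity, ?_⟩
  intro S φ e B h0 h1 he he1 hB0 hB x hx
  have hxp := x.pos
  have hse : 0 < √e := Real.sqrt_pos.2 he
  have hmeas : Measurable (supNear S φ e) := supNear_measurable h1
  have habs : ∀ z, |supNear S φ e z| ≤ 1 := fun z => by
    rw [abs_of_nonneg (supNear_nonneg h1 z)]; exact supNear_le_one h1 z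
  have hdiff : HasFDerivAt (smooth S φ e) (fderiv ℝ (smooth S φ e) x.val) x.val := by
    have h2 := contDiffOn_smoothing (supNear S φ e) hmeas habs he he1
    have h3 := (h2.differentiableOn (by simp)).differentiableAt (isOpen_UHS.mem_nhds x.val_mem)
    have h4 : DifferentiableAt ℝ (smooth S φ e) x.val := by
      have h5 : smooth S φ e = fun x : E3 =>
          (mass e)⁻¹ • ∫ z, supNear S φ e z * kap (qE x z.val / e) ∂vol := by
        funext y; simp only [smooth, smul_eq_mul]; ring
      rw [h5]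
      exact h3.fun_const_smul _
    exact h4.hasFDerivAt
  obtain ⟨η, hη, heta⟩ := exists_eta he
  set C1 : ℝ := 134217728 * M * (B / √e) with hC1
  have hC1n : 0 ≤ C1 := by positivity
  -- local Lipschitz estimate
  have key : ∀ x' : H3, dist x x' < η →
      |smooth S φ e x'.val - smooth S φ e x.val| ≤ C1 * dist x x' := by
    intro x' hx'
    rw [smooth_val, smooth_val, ← sub_div, abs_div, abs_of_pos (mass_pos he he1),
      div_le_iff₀ (mass_pos he he1)]
    have i1 := integrable_mul_ker he he1 hmeas habs x'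
    have i2 := integrable_mul_ker he he1 hmeas habs x
    have j1 : Integrable (fun z => φ x * ker e x' z) vol :=
      integrable_mul_ker he he1 (ψ := fun _ => φ x) measurable_const (C := |φ x|)
        (fun _ => le_rfl) x'
    have j2 : Integrable (fun z => φ x * ker e x z) vol :=
      integrable_mul_ker he he1 (ψ := fun _ => φ x) measurable_const (C := |φ x|)
        (fun _ => le_rfl) x
    have hconst : ∀ y, ∫ z, φ x * ker e y z ∂vol = φ x * mass e := by
      intro y
      rw [integral_const_mul]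
      congr 1
      have := wint_one e y
      simpa [wint] using this
    have e1 : wint e (supNear S φ e) x' - wint e (supNear S φ e) x =
        ∫ z, (supNear S φ e z - φ x) * (ker e x' z - ker e x z) ∂vol := by
      have : ∀ z, (supNear S φ e z - φ x) * (ker e x' z - ker e x z) =
          (supNear S φ e z * ker e x' z - supNear S φ e z * ker e x z) -
          (φ x * ker e x' z - φ x * ker e x z) := fun z => by ring
      simp_rw [this]
      have a1 := integral_sub (i1.sub i2) (j1.sub j2)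
      have a2 := integral_sub i1 i2
      have a3 := integral_sub j1 j2
      simp only [Pi.sub_apply] at a1
      rw [a1, a2, a3, hconst, hconst, sub_self, sub_zero]
      rfl
    rw [e1]
    have hsupp : ∀ z, z ∉ qball x (2 * e) →
        (supNear S φ e z - φ x) * (ker e x' z - ker e x z) = 0 := by
      intro z hz
      have h2 : 2 * e ≤ qq x z := by
        by_contra h; exact hz (not_le.1 h)
      have h3 : ker e x z = 0 := ker_eq_zero he (by linarith)
      have h4 : ker e x' z = 0 := by
        apply ker_eq_zero he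
        by_contra h
        have := heta x x' z hx' (not_le.1 h)
        linarith
      rw [h3, h4]; ring
    rw [← setIntegral_eq_integral_of_forall_compl_eq_zero hsupp]
    have hbd : ∀ z ∈ qball x (2 * e),
        ‖(supNear S φ e z - φ x) * (ker e x' z - ker e x z)‖ ≤ B * (M / √e * dist x x') := by
      intro z hz
      rw [Real.norm_eq_abs, abs_mul]
      have k1 := supNear_close h0 h1 he hB0 hB hx (z := z) hz
      have k2 := hlip e he (by linarith) x' x z
      rw [dist_comm x' x] at k2
      gcongr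
    have h5 := norm_setIntegral_le_of_norm_le_const (vol_qball_lt_top x he he1) hbd
    rw [Real.norm_eq_abs] at h5
    refine h5.trans ?_
    have h6 := doubling x he he1
    have h7 := mass_ge he he1 x
    have h8 : vol.real (qball x (2 * e)) ≤ 134217728 * mass e := by
      simp only [Measure.real]; linarith
    have h9 : 0 ≤ B * (M / √e * dist x x') := by positivity
    calc B * (M / √e * dist x x') * vol.real (qball x (2 * e))
        ≤ B * (M / √e * dist x x') * (134217728 * mass e) := by gcongr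
      _ = C1 * dist x x' * mass e := by rw [hC1]; ring
  have hfin := hdiff.le_of_lip' (C := 2 * C1 / x.val 2) (by positivity) (by
    -- transfer to Euclidean neighbourhoods
    have hn : ∀ᶠ y : E3 in 𝓝 x.val, ∃ x' : H3, x'.val = y ∧ dist x x' < η ∧
        x.val 2 / 4 ≤ x'.val 2 := by
      have hopen : IsOpen (H3.val '' ({x' : H3 | dist x x' < η ∧ x.val 2 / 4 < x'.val 2})) := by
        apply isOpenEmbedding_val.isOpenMap
        exact (isOpen_lt (continuous_const.dist continuous_id) continuous_const).inter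
          (isOpen_lt continuous_const continuous_height)
      filter_upwards [hopen.mem_nhds ⟨x, ⟨by simpa using hη, by linarith⟩, rfl⟩] with y hy
      obtain ⟨x', ⟨hx1, hx2⟩, rfl⟩ := hy
      exact ⟨x', rfl, hx1, hx2.le⟩
    filter_upwards [hn] with y hy
    obtain ⟨x', rfl, hx1, hx2⟩ := hy
    rw [Real.norm_eq_abs]
    refine (key x' hx1).trans ?_
    have h2 := dist_le_div_sqrt x x'
    have h3 : x.val 2 / 2 ≤ √(x.val 2 * x'.val 2) := by
      apply Real.le_sqrt_of_sq_le
      nlinarith
    have h4 : dist x x' ≤ dist x.val x'.val / (x.val 2 / 2) := by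
      refine h2.trans ?_
      gcongr
    rw [dist_comm x.val, dist_eq_norm] at h4
    calc C1 * dist x x' ≤ C1 * (‖x'.val - x.val‖ / (x.val 2 / 2)) := by gcongr
      _ = 2 * C1 / x.val 2 * ‖x'.val - x.val‖ := by field_simp)
  refine hfin.trans (le_of_eq ?_)
  rw [hC1]; ring

theorem smooth_nonneg {S : Set H3} {φ : H3 → ℝ} {e : ℝ} (h1 : ∀ x, φ x ≤ 1) (he : 0 < e)
    (he1 : e ≤ 1 / 64) (x : H3) : 0 ≤ smooth S φ e x.val := by
  rw [smooth_val]
  refine div_nonneg (integral_nonneg fun z => ?_) (mass_pos he he1).le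
  exact mul_nonneg (supNear_nonneg h1 z) (ker_nonneg _ _ _)

theorem smooth_le_one {S : Set H3} {φ : H3 → ℝ} {e : ℝ} (h1 : ∀ x, φ x ≤ 1) (he : 0 < e)
    (he1 : e ≤ 1 / 64) (x : H3) : smooth S φ e x.val ≤ 1 := by
  rw [smooth_val, div_le_one (mass_pos he he1), ← wint_one e x]
  have habs : ∀ z, |supNear S φ e z| ≤ 1 := fun z => by
    rw [abs_of_nonneg (supNear_nonneg h1 z)]; exact supNear_le_one h1 z
  refine integral_mono (integrable_mul_ker he he1 (supNear_measurable h1) habs x)
    (integrable_mul_ker he he1 measurable_const (C := 1) (by simp) x) fun z => ?_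
  have := supNear_le_one (S := S) (e := e) h1 z
  have := ker_nonneg e x z
  simp only
  gcongr

theorem le_smooth {S : Set H3} {φ : H3 → ℝ} {e : ℝ} (h1 : ∀ x, φ x ≤ 1) (he : 0 < e)
    (he1 : e ≤ 1 / 64) {x : H3} (hx : x ∈ S) : φ x ≤ smooth S φ e x.val := by
  rw [smooth_val, le_div_iff₀ (mass_pos he he1), ← wint_one e x, wint, wint,
    ← integral_const_mul]
  have habs : ∀ z, |supNear S φ e z| ≤ 1 := fun z => by
    rw [abs_of_nonneg (supNear_nonneg h1 z)]; exact supNear_le_one h1 z
  refine integral_mono ((integrable_mul_ker he he1 (ψ := fun _ => (1 : ℝ)) measurable_const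
    (C := 1) (by simp) x).const_mul _)
    (integrable_mul_ker he he1 (supNear_measurable h1) habs x) fun z => ?_
  simp only [one_mul]
  by_cases hz : qq x z < e
  · have := le_supNear (φ := φ) (e := e) h1 hx (z := z) (by linarith [qq_nonneg x z])
    have := ker_nonneg e x z
    gcongr
  · rw [ker_eq_zero he (not_lt.1 hz)]; simp

theorem smooth_support {S : Set H3} {φ : H3 → ℝ} {e : ℝ} (he : 0 < e)
    {x : H3} (hx : smooth S φ e x.val ≠ 0) : ∃ y ∈ S, 0 < φ y ∧ dist x y ≤ 5 * √e := by
  by_contra hcon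
  push Not at hcon
  apply hx
  rw [smooth_val, wint]
  have : ∀ z, supNear S φ e z * ker e x z = 0 := by
    intro z
    by_cases hz : qq x z < e
    · have h0 : supNear S φ e z = 0 := by
        refine le_antisymm ?_ ?_
        · refine csSup_le ⟨0, mem_insert _ _⟩ ?_
          rintro _ (rfl | ⟨y, ⟨hy, hyz⟩, rfl⟩)
          · exact le_rfl
          · by_contra h
            have hz2 : qq x z < 2 * e := by linarith
            exact absurd (hcon y hy (not_le.1 h)) (not_lt.2 (near_dist he hz2 hyz))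
        · by_contra h
          have h' := not_le.1 h
          have hb : BddAbove (insert 0 (φ '' {y | y ∈ S ∧ qq y z < 4 * e})) := by
            by_contra hnb
            rw [supNear, Real.sSup_of_not_bddAbove hnb] at h'
            exact lt_irrefl _ h'
          exact absurd (le_csSup hb (mem_insert _ _)) (not_le.2 h')
      rw [h0, zero_mul]
    · rw [ker_eq_zero he (not_lt.1 hz), mul_zero]
  simp [this]

theorem smooth_isometry {S : Set H3} {φ : H3 → ℝ} {e : ℝ} (g : H3 ≃ᵢ H3)
    (hS : ∀ p, g p ∈ S ↔ p ∈ S) (hφ : ∀ p, φ (g p) = φ p) (x : H3) :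
    smooth S φ e (g x).val = smooth S φ e x.val := by
  rw [smooth_val, smooth_val, wint_isometry]
  simp_rw [supNear_isometry g hS hφ]

theorem contDiffOn_smooth {S : Set H3} {φ : H3 → ℝ} {e : ℝ} (h1 : ∀ x, φ x ≤ 1) (he : 0 < e)
    (he1 : e ≤ 1 / 64) : ContDiffOn ℝ ∞ (smooth S φ e) UHS := by
  have habs : ∀ z, |supNear S φ e z| ≤ 1 := fun z => by
    rw [abs_of_nonneg (supNear_nonneg h1 z)]; exact supNear_le_one h1 z
  exact (contDiffOn_smoothing (supNear S φ e) (supNear_measurable h1) habs he he1).div_const _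

end H3

end Pool.Agent.H934R3
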