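import Mathlib
import Pool.Agent.H934R3.Cutoff

set_option autoImplicit false

noncomputable section

open Filter Metric Real Set Topology MeasureTheory
open scoped ContDiff NNReal ENNReal

namespace Pool.Agent.H934R3

open H3

/-- local defining function -/
structure LocalDef (S : Set H3) (p : H3) (U : Set E3) (f : E3 → ℝ) : Prop where
  isOpen : IsOpen U
  mem : p.val ∈ U
  contDiff : ContDiffOn ℝ ∞ f U
  fderiv_ne : fderiv ℝ f p.val ≠ 0
  iff_zero : ∀ q : H3, q.val ∈ U → (q ∈ S ↔ f q.val = 0)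

theorem IsEmbeddedSurface.exists_localDef {S : Set H3} (hS : IsEmbeddedSurface S) {p : H3}
    (hp : p ∈ S) : ∃ U f, LocalDef S p U f := by
  obtain ⟨U, h1, h2, f, h3, h4, h5⟩ := hS p hp
  exact ⟨U, f, h1, h2, h3, h4, h5⟩

theorem LocalDef.contDiffAt {S : Set H3} {p : H3} {U : Set E3} {f : E3 → ℝ}
    (h : LocalDef S p U f) : ContDiffAt ℝ ∞ f p.val :=
  h.contDiff.contDiffAt (h.isOpen.mem_nhds h.mem)

/-- straightening map -/
def stMap (f : E3 → ℝ) (p n : E3) (x : E3) : E3 :=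
  x - p + (f x - fderiv ℝ f p (x - p)) • n

theorem straighten {S : Set H3} {p : H3} {U : Set E3} {f : E3 → ℝ}
    (h : LocalDef S p U f) (hp : p ∈ S) :
    ∃ (n : E3) (Φ Ψ : E3 → E3), fderiv ℝ f p.val n = 1 ∧
      HasStrictFDerivAt Φ (ContinuousLinearMap.id ℝ E3) p.val ∧ Φ p.val = 0 ∧
      HasStrictFDerivAt Ψ (ContinuousLinearMap.id ℝ E3) 0 ∧ Ψ 0 = p.val ∧
      (∀ᶠ y in 𝓝 (0 : E3), Φ (Ψ y) = y) ∧ (∀ᶠ x in 𝓝 p.val, Ψ (Φ x) = x) ∧
      (∀ᶠ y in 𝓝 (0 : E3), fderiv ℝ f p.val y = 0 → ∃ q ∈ S, q.val = Ψ y) ∧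
      (∀ᶠ x in 𝓝 p.val, ∀ q ∈ S, q.val = x → fderiv ℝ f p.val (Φ x) = 0) ∧
      (∀ x : E3, Φ x = x - p.val + (f x - fderiv ℝ f p.val (x - p.val)) • n) := by
  obtain ⟨v, hv⟩ : ∃ v, fderiv ℝ f p.val v ≠ 0 := by
    by_contra hcon
    push Not at hcon
    exact h.fderiv_ne (ContinuousLinearMap.ext hcon)
  set m := fderiv ℝ f p.val with hm
  let n : E3 := (m v)⁻¹ • v
  have hn : m n = 1 := by simp [n, hv]
  have hf0 : f p.val = 0 := (h.iff_zero p h.mem).1 hp
  have hfs : HasStrictFDerivAt f m p.val := h.contDiffAt.hasStrictFDerivAt (by simp)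
  have hΦ : HasStrictFDerivAt (fun x : E3 => x - p.val + (f x - m (x - p.val)) • n)
      (ContinuousLinearMap.id ℝ E3) p.val := by
    have h1 : HasStrictFDerivAt (fun x : E3 => x - p.val) (ContinuousLinearMap.id ℝ E3) p.val :=
      (hasStrictFDerivAt_id _).sub_const _
    have h2 : HasStrictFDerivAt (fun x : E3 => m (x - p.val))
        (m.comp (ContinuousLinearMap.id ℝ E3)) p.val := m.hasStrictFDerivAt.comp _ h1
    have h3 := h1.add ((hfs.sub h2).smul_const n)
    refine h3.congr_fderiv ?_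
    ext w
    simp
  set Φ : E3 → E3 := fun x : E3 => x - p.val + (f x - m (x - p.val)) • n with hΦdef
  have hΦ' : HasStrictFDerivAt Φ ((ContinuousLinearEquiv.refl ℝ E3 : E3 ≃L[ℝ] E3) : E3 →L[ℝ] E3)
      p.val := hΦ
  have hΦ0 : Φ p.val = 0 := by simp [hΦdef, hf0]
  have hmΦ : ∀ x, m (Φ x) = f x := by
    intro x
    simp [hΦdef, hn]
  let Ψ := hΦ'.localInverse Φ _ _
  have hΨs : HasStrictFDerivAt Ψ (ContinuousLinearMap.id ℝ E3) 0 := by
    have := hΦ'.to_localInverse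
    rw [hΦ0] at this
    exact this
  have hΨ0 : Ψ 0 = p.val := by
    have := hΦ'.localInverse_apply_image
    rw [hΦ0] at this
    exact this
  have hright : ∀ᶠ y in 𝓝 (0 : E3), Φ (Ψ y) = y := by
    have := hΦ'.eventually_right_inverse
    rw [hΦ0] at this
    exact this
  have hleft : ∀ᶠ x in 𝓝 p.val, Ψ (Φ x) = x := hΦ'.eventually_left_inverse
  refine ⟨n, Φ, Ψ, hn, hΦ, hΦ0, hΨs, hΨ0, hright, hleft, ?_, ?_, fun _ => rfl⟩
  · have hcont : Tendsto Ψ (𝓝 0) (𝓝 p.val) := by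
      have := hΨs.continuousAt.tendsto
      rwa [hΨ0] at this
    filter_upwards [hright, hcont.eventually (h.isOpen.mem_nhds h.mem),
      hcont.eventually (isOpen_UHS.mem_nhds p.val_mem)] with y hy1 hy2 hy3 hy4
    refine ⟨⟨Ψ y, hy3⟩, ?_, rfl⟩
    rw [h.iff_zero ⟨Ψ y, hy3⟩ hy2]
    show f (Ψ y) = 0
    rw [← hmΦ, hy1, hy4]
  · filter_upwards [h.isOpen.mem_nhds h.mem] with x hx q hq hqx
    rw [hmΦ, ← hqx]
    exact (h.iff_zero q (by rw [hqx]; exact hx)).1 hq

/-- the tangent plane is the kernel of the differential of a defining function -/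
theorem tangentPlane_eq {S : Set H3} {p : H3} {U : Set E3} {f : E3 → ℝ}
    (h : LocalDef S p U f) (hp : p ∈ S) :
    tangentPlane S p = LinearMap.ker (fderiv ℝ f p.val : E3 →ₗ[ℝ] ℝ) := by
  apply le_antisymm
  · refine Submodule.span_le.2 ?_
    intro v hv
    have hf0 : f p.val = 0 := (h.iff_zero p h.mem).1 hp
    have hf : HasFDerivWithinAt f (fderiv ℝ f p.val) (H3.val '' S ∩ U) p.val :=
      (h.contDiffAt.differentiableAt (by simp)).hasFDerivAt.hasFDerivWithinAt
    have hv' : v ∈ tangentConeAt ℝ (H3.val '' S ∩ U) p.val := by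
      rwa [tangentConeAt_inter_nhds (h.isOpen.mem_nhds h.mem)]
    have hconst : HasFDerivWithinAt (fun _ : E3 => (0 : ℝ)) (0 : E3 →L[ℝ] ℝ)
        (H3.val '' S ∩ U) p.val := hasFDerivWithinAt_const _ _ _
    have hf2 : HasFDerivWithinAt f (0 : E3 →L[ℝ] ℝ) (H3.val '' S ∩ U) p.val := by
      refine hconst.congr ?_ hf0
      rintro _ ⟨⟨q, hq, rfl⟩, hqU⟩
      exact (h.iff_zero q hqU).1 hq
    have := hf.unique_on hf2 hv'
    simpa using this
  · obtain ⟨n, Φ, Ψ, hn, hΦ, hΦ0, hΨ, hΨ0, hr, hl, hS, -, -⟩ := straighten h hp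
    intro v hv
    have hv' : fderiv ℝ f p.val v = 0 := hv
    apply Submodule.subset_span
    have hd := hΨ.hasFDerivAt.lim_real v
    refine mem_tangentConeAt_of_seq atTop (fun n : ℕ => ((n : ℝ) + 1))
      (fun n : ℕ => Ψ ((1 / ((n : ℝ) + 1)) • v) - p.val) ?_ ?_ ?_
    · have h1 : Tendsto (fun n : ℕ => (1 / ((n : ℝ) + 1)) • v) atTop (𝓝 0) := by
        have := (tendsto_one_div_add_atTop_nhds_zero_nat (𝕜 := ℝ)).smul_const v
        simpa using this
      have h2 := (hΨ.continuousAt.tendsto.comp h1).sub_const p.val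
      rw [hΨ0, sub_self] at h2
      exact h2
    · have h1 : Tendsto (fun n : ℕ => (1 / ((n : ℝ) + 1)) • v) atTop (𝓝 0) := by
        have := (tendsto_one_div_add_atTop_nhds_zero_nat (𝕜 := ℝ)).smul_const v
        simpa using this
      filter_upwards [h1.eventually hS] with k hk
      obtain ⟨q, hq, hqe⟩ := hk (by simp [hv'])
      exact ⟨q, hq, by rw [hqe]; abel⟩
    · have hatTop : Tendsto (fun n : ℕ => ((n : ℝ) + 1)) atTop atTop :=
        tendsto_atTop_add_const_right _ _ tendsto_natCast_atTop_atTop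
      have h3 := hd.comp hatTop
      simp only [ContinuousLinearMap.id_apply] at h3
      refine h3.congr fun k => ?_
      simp [hΨ0]

theorem isLocallyClosed_of_embedded {S : Set H3} (hS : IsEmbeddedSurface S) :
    IsLocallyClosed S := by
  have := (isLocallyClosed_tfae S).out 3 0
  rw [← this]
  intro p hp
  obtain ⟨U, f, h⟩ := hS.exists_localDef hp
  refine ⟨H3.val ⁻¹' U, h.mem, h.isOpen.preimage continuous_val, ?_⟩
  rintro q ⟨hqU, hqc⟩
  rw [h.iff_zero q hqU]
  have hfc : ContinuousAt (fun r : H3 => f r.val) q := by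
    have h1 : ContinuousAt f q.val := (h.contDiff.continuousOn).continuousAt
      (h.isOpen.mem_nhds hqU)
    exact h1.comp continuous_val.continuousAt
  by_contra hne
  have h2 : ∀ᶠ r in 𝓝 q, f r.val ≠ 0 := hfc.eventually_ne hne
  have h3 : ∀ᶠ r in 𝓝 q, r.val ∈ U := (h.isOpen.preimage continuous_val).mem_nhds hqU
  obtain ⟨r, hrS, hr2, hr3⟩ :=
    ((mem_closure_iff_frequently.1 hqc).and_eventually (h2.and h3)).exists
  exact hr2 ((h.iff_zero r hr3).1 hrS)

theorem measurableSet_of_embedded {S : Set H3} (hS : IsEmbeddedSurface S) : MeasurableSet S := by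
  obtain ⟨U, Z, hU, hZ, rfl⟩ := isLocallyClosed_of_embedded hS
  exact hU.measurableSet.inter hZ.measurableSet

end Pool.Agent.H934R3
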