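import Mathlib
import Pool.Agent.H934R3.Surface

set_option autoImplicit false

noncomputable section

open Filter Metric Real Set Topology MeasureTheory
open scoped ContDiff NNReal ENNReal RealInnerProductSpace

namespace Pool.Agent.H934R3

open H3

theorem inner_eq (x y : E3) : ⟪x, y⟫ = x 0 * y 0 + x 1 * y 1 + x 2 * y 2 := by
  rw [PiLp.inner_apply, Fin.sum_univ_three]
  simp [mul_comm]

/-- the gradient (in the hyperbolic metric) of `x 1 / x 2` -/
def Zlin : E3 →ₗ[ℝ] E3 where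
  toFun x := !₂[0, x 2, -x 1]
  map_add' x y := by
    ext i; fin_cases i <;> simp; ring
  map_smul' c x := by
    ext i; fin_cases i <;> simp

/-- continuous linear version -/
def Zmap : E3 →L[ℝ] E3 := LinearMap.toContinuousLinearMap Zlin

theorem Zmap_apply (x : E3) : Zmap x = !₂[0, x 2, -x 1] := rfl

theorem Zmap_0 (x : E3) : Zmap x 0 = 0 := by simp [Zmap_apply]
theorem Zmap_1 (x : E3) : Zmap x 1 = x 2 := by simp [Zmap_apply]
theorem Zmap_2 (x : E3) : Zmap x 2 = -x 1 := by simp [Zmap_apply]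

theorem inner_Zmap_self (x : E3) : ⟪Zmap x, x⟫ = 0 := by
  rw [inner_eq, Zmap_0, Zmap_1, Zmap_2]; ring

theorem inner_Zmap (x v : E3) : ⟪Zmap x, v⟫ = x 2 * v 1 - x 1 * v 2 := by
  rw [inner_eq, Zmap_0, Zmap_1, Zmap_2]; ring

theorem norm_Zmap_sq (x : E3) : ‖Zmap x‖ ^ 2 = x 1 ^ 2 + x 2 ^ 2 := by
  rw [norm_sq, Zmap_0, Zmap_1, Zmap_2]; ring

theorem trace_Z_proj (K : Submodule ℝ E3) :
    LinearMap.trace ℝ E3 ((Zmap : E3 →ₗ[ℝ] E3) ∘ₗ (K.starProjection : E3 →ₗ[ℝ] E3)) = 0 := by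
  set P : E3 →ₗ[ℝ] E3 := (K.starProjection : E3 →ₗ[ℝ] E3) with hP
  have hPP : P ∘ₗ P = P := by
    ext1 v
    simp only [hP, LinearMap.comp_apply, ContinuousLinearMap.coe_coe]
    exact (K.starProjection_eq_self_iff).2 (K.starProjection_apply_mem v)
  have h1 : (Zmap : E3 →ₗ[ℝ] E3) ∘ₗ P = ((Zmap : E3 →ₗ[ℝ] E3) ∘ₗ P) ∘ₗ P := by
    rw [LinearMap.comp_assoc, hPP]
  rw [h1]
  have h2 : LinearMap.trace ℝ E3 (((Zmap : E3 →ₗ[ℝ] E3) ∘ₗ P) ∘ₗ P) =
      LinearMap.trace ℝ E3 (P ∘ₗ ((Zmap : E3 →ₗ[ℝ] E3) ∘ₗ P)) :=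
    LinearMap.trace_mul_comm ℝ _ _
  rw [h2, LinearMap.trace_eq_sum_inner _ (EuclideanSpace.basisFun (Fin 3) ℝ)]
  apply Finset.sum_eq_zero
  intro i _
  simp only [LinearMap.comp_apply, hP, ContinuousLinearMap.coe_coe]
  rw [← K.inner_starProjection_left_eq_right, real_inner_comm]
  exact inner_Zmap_self _

theorem trace_rank_one (l : E3 →ₗ[ℝ] ℝ) (z : E3) :
    LinearMap.trace ℝ E3 (l.smulRight z) = l z := by
  rw [LinearMap.trace_eq_sum_inner _ (EuclideanSpace.basisFun (Fin 3) ℝ)]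
  simp only [LinearMap.smulRight_apply, inner_smul_right]
  have h : z = ∑ i, (EuclideanSpace.basisFun (Fin 3) ℝ).repr z i •
      (EuclideanSpace.basisFun (Fin 3) ℝ) i :=
    ((EuclideanSpace.basisFun (Fin 3) ℝ).sum_repr z).symm
  conv_rhs => rw [h, map_sum]
  apply Finset.sum_congr rfl
  intro i _
  rw [map_smul, smul_eq_mul, OrthonormalBasis.repr_apply_apply]
  ring

/-- surface divergence of `u • Z` -/
theorem surfaceDiv_smul_Z (S : Set H3) (u : E3 → ℝ) (p : H3)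
    (hu : DifferentiableAt ℝ u p.val) :
    surfaceDiv S (fun x => u x • Zmap x) p =
      fderiv ℝ u p.val ((tangentPlane S p).starProjection (Zmap p.val)) +
        2 * u p.val * (p.val 1 / p.val 2) := by
  have hp := p.pos
  unfold surfaceDiv
  have h1 : fderiv ℝ (fun x => u x • Zmap x) p.val =
      u p.val • Zmap + (fderiv ℝ u p.val).smulRight (Zmap p.val) := by
    have h2 : HasFDerivAt (fun x => u x • Zmap x)
        (u p.val • Zmap + (fderiv ℝ u p.val).smulRight (Zmap p.val)) p.val :=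
      hu.hasFDerivAt.smul Zmap.hasFDerivAt
    exact h2.fderiv
  rw [h1]
  set P : E3 →L[ℝ] E3 := (tangentPlane S p).starProjection with hP
  have h3 : ((u p.val • Zmap + (fderiv ℝ u p.val).smulRight (Zmap p.val) : E3 →L[ℝ] E3) :
      E3 →ₗ[ℝ] E3) ∘ₗ (P : E3 →ₗ[ℝ] E3) =
      u p.val • ((Zmap : E3 →ₗ[ℝ] E3) ∘ₗ (P : E3 →ₗ[ℝ] E3)) +
      (((fderiv ℝ u p.val : E3 →ₗ[ℝ] ℝ) ∘ₗ (P : E3 →ₗ[ℝ] E3)).smulRight (Zmap p.val)) := by
    ext1 v
    simp
  rw [h3, map_add, map_smul, trace_Z_proj, trace_rank_one]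
  simp only [smul_eq_mul, mul_zero, zero_add, LinearMap.comp_apply, ContinuousLinearMap.coe_coe,
    PiLp.smul_apply, Zmap_2]
  ring

/-- the bounded odd function of the distance to the plane -/
def bfun (x : E3) : ℝ := x 1 * x 2 / (x 1 ^ 2 + x 2 ^ 2)

theorem ssum_pos {x : E3} (hx : x ∈ UHS) : 0 < x 1 ^ 2 + x 2 ^ 2 := by
  have : 0 < x 2 := hx
  positivity

theorem contDiff_coord (i : Fin 3) : ContDiff ℝ ∞ (fun x : E3 => x i) :=
  (EuclideanSpace.proj (𝕜 := ℝ) i).contDiff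

theorem hasFDerivAt_coord (i : Fin 3) (x : E3) :
    HasFDerivAt (fun x : E3 => x i) (EuclideanSpace.proj (𝕜 := ℝ) i : E3 →L[ℝ] ℝ) x :=
  (EuclideanSpace.proj (𝕜 := ℝ) i : E3 →L[ℝ] ℝ).hasFDerivAt

theorem hasFDerivAt_div' {f g : E3 → ℝ} {f' g' : E3 →L[ℝ] ℝ} {x : E3} (hf : HasFDerivAt f f' x)
    (hg : HasFDerivAt g g' x) (h : g x ≠ 0) :
    HasFDerivAt (fun y => f y / g y) ((g x ^ 2)⁻¹ • (g x • f' - f x • g')) x := by
  have h1 : HasFDerivAt (fun y => (g y)⁻¹) ((-(g x ^ 2)⁻¹) • g') x :=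
    (hasDerivAt_inv h).comp_hasFDerivAt x hg
  have h2 := hf.mul h1
  have h3 : (fun y => f y / g y) = f * fun y => (g y)⁻¹ := by
    funext y; simp [div_eq_mul_inv]
  rw [h3]
  refine h2.congr_fderiv ?_
  ext v
  simp
  field_simp
  ring

theorem contDiffOn_bfun : ContDiffOn ℝ ∞ bfun UHS := by
  unfold bfun
  refine ContDiffOn.div ?_ ?_ fun x hx => (ssum_pos hx).ne'
  · exact ((contDiff_coord 1).mul (contDiff_coord 2)).contDiffOn
  · exact (((contDiff_coord 1).pow 2).add ((contDiff_coord 2).pow 2)).contDiffOn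

theorem fderiv_bfun {x : E3} (hx : x ∈ UHS) (v : E3) :
    fderiv ℝ bfun x v = (x 2 ^ 2 - x 1 ^ 2) * ⟪Zmap x, v⟫ / (x 1 ^ 2 + x 2 ^ 2) ^ 2 := by
  have hs := ssum_pos hx
  have h1 := hasFDerivAt_coord 1 x
  have h2 := hasFDerivAt_coord 2 x
  have h3 : HasFDerivAt (fun y : E3 => y 1 * y 2) _ x := (h1.mul h2)
  have h4 : HasFDerivAt (fun y : E3 => y 1 ^ 2 + y 2 ^ 2) _ x := (h1.pow 2).add (h2.pow 2)
  have h5 : HasFDerivAt bfun _ x := hasFDerivAt_div' h3 h4 hs.ne'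
  rw [h5.fderiv, inner_Zmap]
  simp
  field_simp
  ring

/-- the quadratic form appearing in the divergence of `b Z` -/
def Qf (S : Set H3) (p : H3) : ℝ :=
  fderiv ℝ bfun p.val ((tangentPlane S p).starProjection (Zmap p.val)) +
    2 * bfun p.val * (p.val 1 / p.val 2)

theorem inner_proj_bounds (K : Submodule ℝ E3) (z : E3) :
    0 ≤ ⟪z, K.starProjection z⟫ ∧ ⟪z, K.starProjection z⟫ ≤ ‖z‖ ^ 2 := by
  have h1 : ⟪z, K.starProjection z⟫ = ‖K.starProjection z‖ ^ 2 := by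
    rw [← real_inner_self_eq_norm_sq, K.inner_starProjection_left_eq_right,
      (K.starProjection_eq_self_iff).2 (K.starProjection_apply_mem z)]
  rw [h1]
  refine ⟨by positivity, ?_⟩
  have := K.norm_starProjection_apply_le z
  gcongr

theorem Qf_bounds (S : Set H3) (p : H3) :
    p.val 1 ^ 2 / (p.val 1 ^ 2 + p.val 2 ^ 2) ≤ Qf S p ∧ Qf S p ≤ 3 := by
  have hp := p.pos
  have hs := ssum_pos p.val_mem
  obtain ⟨h1, h2⟩ := inner_proj_bounds (tangentPlane S p) (Zmap p.val)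
  rw [norm_Zmap_sq] at h2
  unfold Qf
  rw [fderiv_bfun p.val_mem, bfun]
  set w := ⟪Zmap p.val, (tangentPlane S p).starProjection (Zmap p.val)⟫
  set y := p.val 1
  set t := p.val 2
  have e1 : (t ^ 2 - y ^ 2) * w / (y ^ 2 + t ^ 2) ^ 2 + 2 * (y * t / (y ^ 2 + t ^ 2)) * (y / t) =
      ((t ^ 2 - y ^ 2) * w + 2 * y ^ 2 * (y ^ 2 + t ^ 2)) / (y ^ 2 + t ^ 2) ^ 2 := by
    field_simp
  rw [e1]
  constructor
  · rw [div_le_div_iff₀ hs (by positivity)]
    have : 0 ≤ (t ^ 2 - y ^ 2) * w + y ^ 2 * (y ^ 2 + t ^ 2) := by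
      rcases le_total (y ^ 2) (t ^ 2) with h | h
      · have : 0 ≤ (t ^ 2 - y ^ 2) * w := mul_nonneg (by linarith) h1
        positivity
      · nlinarith [mul_nonneg (sub_nonneg.2 h) (sub_nonneg.2 h2), sq_nonneg (t ^ 2)]
    nlinarith [mul_nonneg this hs.le]
  · rw [div_le_iff₀ (by positivity)]
    have hy : 0 ≤ y ^ 2 := sq_nonneg y
    have ht : 0 ≤ t ^ 2 := sq_nonneg t
    have h3 : (t ^ 2 - y ^ 2) * w ≤ (y ^ 2 + t ^ 2) ^ 2 := by
      have : (t ^ 2 - y ^ 2) * w ≤ (t ^ 2 + y ^ 2) * w := by nlinarith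
      nlinarith
    nlinarith

theorem abs_bfun_mul_le (p : H3) {C : ℝ} (hC : 0 ≤ C) {v : E3 →L[ℝ] ℝ} (hv : ‖v‖ ≤ C / p.val 2)
    (K : Submodule ℝ E3) : |bfun p.val * v (K.starProjection (Zmap p.val))| ≤ C := by
  have hp := p.pos
  have hs := ssum_pos p.val_mem
  have h1 : ‖v (K.starProjection (Zmap p.val))‖ ≤ C / p.val 2 * ‖Zmap p.val‖ := by
    refine (v.le_opNorm _).trans ?_
    have := K.norm_starProjection_apply_le (Zmap p.val)
    gcongr
  rw [Real.norm_eq_abs] at h1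
  have h2 : ‖Zmap p.val‖ = √(p.val 1 ^ 2 + p.val 2 ^ 2) := by
    rw [← norm_Zmap_sq, Real.sqrt_sq (norm_nonneg _)]
  rw [h2] at h1
  set s := p.val 1 ^ 2 + p.val 2 ^ 2 with hsdef
  have hss : 0 < √s := Real.sqrt_pos.2 hs
  have hsq : √s * √s = s := Real.mul_self_sqrt hs.le
  have h3 : |bfun p.val| ≤ p.val 2 / √s := by
    unfold bfun
    rw [abs_div, abs_of_pos hs, abs_mul, abs_of_pos hp, div_le_div_iff₀ hs hss]
    have h4 : |p.val 1| ≤ √s := by
      apply Real.abs_le_sqrt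
      nlinarith [sq_nonneg (p.val 2)]
    calc |p.val 1| * p.val 2 * √s ≤ √s * p.val 2 * √s := by gcongr
      _ = p.val 2 * (√s * √s) := by ring
      _ = p.val 2 * s := by rw [hsq]
  rw [abs_mul]
  calc |bfun p.val| * |v (K.starProjection (Zmap p.val))|
      ≤ (p.val 2 / √s) * (C / p.val 2 * √s) := by gcongr
    _ = C := by field_simp

/-- `p` lies on the plane iff `bfun` vanishes -/
def Plane : Set H3 := {p | p.val 1 = 0}

/-- `g` preserves the signed distance to the plane `{x 1 = 0}` and is differentiable -/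
structure GoodIso (g : H3 ≃ᵢ H3) : Prop where
  diff : ∀ p : H3, DifferentiableAt ℝ (coordMap g) p.val
  inv : ∀ p : H3, (g p).val 1 / (g p).val 2 = p.val 1 / p.val 2

theorem coordMap_val (g : H3 → H3) (p : H3) : coordMap g p.val = (g p).val := by
  rw [coordMap, dif_pos p.pos]

theorem GoodIso.bfun_eq {g : H3 ≃ᵢ H3} (hg : GoodIso g) (p : H3) :
    bfun (g p).val = bfun p.val := by
  have h1 := (g p).pos
  have h2 := p.pos
  have h := hg.inv p
  have key : ∀ q : H3, bfun q.val = (q.val 1 / q.val 2) / (1 + (q.val 1 / q.val 2) ^ 2) := by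
    intro q
    have hq := q.pos
    have := ssum_pos q.val_mem
    unfold bfun
    field_simp
    ring
  rw [key, key, h]

theorem GoodIso.norm_fderiv {g : H3 ≃ᵢ H3} (hg : GoodIso g) (p : H3) (v : E3) :
    ‖fderiv ℝ (coordMap g) p.val v‖ ^ 2 = ((g p).val 2 / p.val 2) ^ 2 * ‖v‖ ^ 2 := by
  have hp := p.pos
  have hgp := (g p).pos
  set A := fderiv ℝ (coordMap g) p.val with hA
  have hd : HasFDerivAt (coordMap g) A p.val := (hg.diff p).hasFDerivAt
  -- limits along t → 0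
  have hline : HasDerivAt (fun t : ℝ => coordMap g (p.val + t • v)) (A v) 0 := by
    have h1 : HasDerivAt (fun t : ℝ => p.val + t • v) v 0 := by
      simpa using ((hasDerivAt_id (0 : ℝ)).smul_const v).const_add p.val
    have h2 : HasFDerivAt (coordMap g) A (p.val + (0 : ℝ) • v) := by simpa using hd
    exact h2.comp_hasDerivAt (0 : ℝ) h1
  have hslope := hline.tendsto_slope_zero
  simp only [zero_add, zero_smul, add_zero] at hslope
  have hL : Tendsto (fun t : ℝ => ‖t⁻¹ • (coordMap g (p.val + t • v) - coordMap g p.val)‖ ^ 2)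
      (𝓝[≠] 0) (𝓝 (‖A v‖ ^ 2)) := (hslope.norm).pow 2
  have hcont : Tendsto (fun t : ℝ => p.val + t • v) (𝓝[≠] 0) (𝓝 p.val) := by
    have : Continuous fun t : ℝ => p.val + t • v := by fun_prop
    have h := this.tendsto 0
    simp only [zero_smul, add_zero] at h
    exact h.mono_left nhdsWithin_le_nhds
  have hR : Tendsto (fun t : ℝ => ‖v‖ ^ 2 * ((g p).val 2 * (coordMap g (p.val + t • v)) 2) /
      (p.val 2 * (p.val + t • v) 2)) (𝓝[≠] 0)
      (𝓝 (‖v‖ ^ 2 * ((g p).val 2 * (g p).val 2) / (p.val 2 * p.val 2))) := by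
    have c2 : Continuous fun x : E3 => x 2 := by fun_prop
    have h1 : Tendsto (fun t : ℝ => (coordMap g (p.val + t • v)) 2) (𝓝[≠] 0)
        (𝓝 ((g p).val 2)) := by
      have h2 : ContinuousAt (fun x => (coordMap g x) 2) p.val :=
        c2.continuousAt.comp hd.continuousAt
      have h3 := h2.tendsto.comp hcont
      rw [coordMap_val] at h3
      exact h3
    have h2 : Tendsto (fun t : ℝ => (p.val + t • v) 2) (𝓝[≠] 0) (𝓝 (p.val 2)) :=
      c2.continuousAt.tendsto.comp hcont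
    exact ((tendsto_const_nhds.mul (tendsto_const_nhds.mul h1))).div
      (tendsto_const_nhds.mul h2) (by positivity)
  have heq : (fun t : ℝ => ‖t⁻¹ • (coordMap g (p.val + t • v) - coordMap g p.val)‖ ^ 2)
      =ᶠ[𝓝[≠] 0] (fun t : ℝ => ‖v‖ ^ 2 * ((g p).val 2 * (coordMap g (p.val + t • v)) 2) /
      (p.val 2 * (p.val + t • v) 2)) := by
    filter_upwards [hcont.eventually (isOpen_UHS.mem_nhds p.val_mem), self_mem_nhdsWithin]
      with t ht ht0
    have ht0' : t ≠ 0 := ht0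
    let q : H3 := ⟨p.val + t • v, ht⟩
    have hq : q.val = p.val + t • v := rfl
    have hqp := q.pos
    have hgq := (g q).pos
    rw [← hq, coordMap_val, coordMap_val]
    have h1 : qq (g q) (g p) = qq q p := qq_dist_iff.1 (g.dist_eq _ _)
    unfold qq at h1
    have h2 : dist q.val p.val = |t| * ‖v‖ := by
      rw [dist_eq_norm, hq, add_sub_cancel_left, norm_smul, Real.norm_eq_abs]
    rw [h2, dist_eq_norm] at h1
    rw [norm_smul, mul_pow, norm_inv, Real.norm_eq_abs, inv_pow, sq_abs]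
    rw [mul_pow, sq_abs] at h1
    rw [div_eq_div_iff (by positivity) (by positivity)] at h1
    rw [eq_div_iff (by positivity)]
    field_simp
    linarith
  have := tendsto_nhds_unique (hL.congr' heq) hR
  rw [this]
  field_simp

theorem GoodIso.inner_fderiv {g : H3 ≃ᵢ H3} (hg : GoodIso g) (p : H3) (v w : E3) :
    ⟪fderiv ℝ (coordMap g) p.val v, fderiv ℝ (coordMap g) p.val w⟫ =
      ((g p).val 2 / p.val 2) ^ 2 * ⟪v, w⟫ := by
  have h1 := hg.norm_fderiv p (v + w)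
  have h2 := hg.norm_fderiv p v
  have h3 := hg.norm_fderiv p w
  rw [map_add] at h1
  have e1 := @norm_add_sq_real E3 _ _ (fderiv ℝ (coordMap g) p.val v)
    (fderiv ℝ (coordMap g) p.val w)
  have e2 := @norm_add_sq_real E3 _ _ v w
  rw [e1, e2, h2, h3] at h1
  linarith

theorem hasFDerivAt_ratio {x : E3} (hx : x ∈ UHS) (v : E3) :
    fderiv ℝ (fun x : E3 => x 1 / x 2) x v = ⟪Zmap x, v⟫ / x 2 ^ 2 := by
  have hx2 : 0 < x 2 := hx
  have h1 := hasFDerivAt_coord 1 x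
  have h2 := hasFDerivAt_coord 2 x
  have h5 := hasFDerivAt_div' h1 h2 hx2.ne'
  have h6 : fderiv ℝ (fun x : E3 => x 1 / x 2) x = _ := h5.fderiv
  rw [h6, inner_Zmap]
  simp
  field_simp

theorem GoodIso.Z_inv {g : H3 ≃ᵢ H3} (hg : GoodIso g) (p : H3) :
    Zmap (g p).val = fderiv ℝ (coordMap g) p.val (Zmap p.val) := by
  have hp := p.pos
  have hgp := (g p).pos
  set A := fderiv ℝ (coordMap g) p.val with hA
  have hd : HasFDerivAt (coordMap g) A p.val := (hg.diff p).hasFDerivAt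
  have hr : ∀ x ∈ UHS, DifferentiableAt ℝ (fun x : E3 => x 1 / x 2) x := fun x hx =>
    (hasFDerivAt_div' (hasFDerivAt_coord 1 x) (hasFDerivAt_coord 2 x)
      (ne_of_gt hx)).differentiableAt
  have hcomp : ∀ v, ⟪Zmap (g p).val, A v⟫ / (g p).val 2 ^ 2 = ⟪Zmap p.val, v⟫ / p.val 2 ^ 2 := by
    intro v
    have h1 : HasFDerivAt (fun x : E3 => (coordMap g x) 1 / (coordMap g x) 2)
        ((fderiv ℝ (fun x : E3 => x 1 / x 2) (coordMap g p.val)).comp A) p.val :=
      (hr _ (by rw [coordMap_val]; exact (g p).val_mem)).hasFDerivAt.comp p.val hd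
    have h2 : (fun x : E3 => (coordMap g x) 1 / (coordMap g x) 2) =ᶠ[𝓝 p.val]
        (fun x : E3 => x 1 / x 2) := by
      filter_upwards [isOpen_UHS.mem_nhds p.val_mem] with x hx
      have h3 : (⟨x, hx⟩ : H3).val = x := rfl
      rw [← h3, coordMap_val]
      exact hg.inv ⟨x, hx⟩
    have h4 := h2.fderiv_eq (𝕜 := ℝ)
    rw [h1.fderiv] at h4
    have h5 : ((fderiv ℝ (fun x : E3 => x 1 / x 2) (coordMap g p.val)).comp A) v =
        fderiv ℝ (fun x : E3 => x 1 / x 2) p.val v := by rw [h4]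
    rw [ContinuousLinearMap.comp_apply] at h5
    rw [coordMap_val, hasFDerivAt_ratio (g p).val_mem, hasFDerivAt_ratio p.val_mem] at h5
    exact h5
  have hinj : Function.Injective A := by
    rw [injective_iff_map_eq_zero]
    intro v hv
    have h1 := hg.norm_fderiv p v
    rw [← hA, hv, norm_zero] at h1
    have h2 : ((g p).val 2 / p.val 2) ^ 2 ≠ 0 := by positivity
    have h3 : ‖v‖ ^ 2 = 0 := by
      rcases mul_eq_zero.1 (by linarith : ((g p).val 2 / p.val 2) ^ 2 * ‖v‖ ^ 2 = 0) with h | h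
      · exact absurd h h2
      · exact h
    have h4 : ‖v‖ = 0 := by
      rwa [sq_eq_zero_iff] at h3
    exact norm_eq_zero.1 h4
  have hsurj : Function.Surjective A :=
    LinearMap.injective_iff_surjective (f := (A : E3 →ₗ[ℝ] E3)) |>.1 hinj
  obtain ⟨w, hw⟩ := hsurj (Zmap (g p).val - A (Zmap p.val))
  have h0 : ⟪Zmap (g p).val - A (Zmap p.val), A w⟫ = 0 := by
    rw [inner_sub_left, hg.inner_fderiv p (Zmap p.val) w]
    have h1 := hcomp w
    field_simp at h1 ⊢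
    linarith
  rw [hw, inner_self_eq_zero] at h0
  exact sub_eq_zero.1 h0

end Pool.Agent.H934R3
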