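import Mathlib
import Pool.Agent.H934R3.Field

set_option autoImplicit false

noncomputable section

open Filter Metric Real Set Topology MeasureTheory
open scoped ContDiff NNReal ENNReal RealInnerProductSpace

namespace Pool.Agent.H934R3

open H3

theorem proj_ker (m : E3 →L[ℝ] ℝ) (hm : m ≠ 0) (v : E3) :
    (LinearMap.ker (m : E3 →ₗ[ℝ] ℝ)).starProjection v =
      v - (m v / ‖(InnerProductSpace.toDual ℝ E3).symm m‖ ^ 2) •
        (InnerProductSpace.toDual ℝ E3).symm m := by
  set g := (InnerProductSpace.toDual ℝ E3).symm m with hg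
  have hmg : ∀ w, m w = ⟪g, w⟫ := fun w => by
    rw [hg, InnerProductSpace.toDual_symm_apply]
  have hg0 : g ≠ 0 := by
    intro h
    apply hm
    ext w
    rw [hmg, h]; simp
  have hgn : ‖g‖ ^ 2 ≠ 0 := by
    have : 0 < ‖g‖ := norm_pos_iff.2 hg0
    positivity
  apply Submodule.eq_starProjection_of_mem_of_inner_eq_zero
  · show m _ = 0
    rw [hmg, inner_sub_right, inner_smul_right, real_inner_self_eq_norm_sq, ← hmg]
    field_simp
    ring
  · intro w hw
    have hw' : m w = 0 := hw
    rw [sub_sub_cancel, inner_smul_left, ← hmg, hw', mul_zero]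

theorem continuousOn_proj {S : Set H3} (hS : IsEmbeddedSurface S) :
    ContinuousOn (fun p : H3 => (tangentPlane S p).starProjection (Zmap p.val)) S := by
  intro p hp
  obtain ⟨U, f, h⟩ := hS.exists_localDef hp
  have hfd : ContinuousOn (fderiv ℝ f) U := h.contDiff.continuousOn_fderiv_of_isOpen h.isOpen
    (by simp)
  have hfd1 : ContinuousAt (fderiv ℝ f) p.val := hfd.continuousAt (h.isOpen.mem_nhds h.mem)
  have hne : ∀ᶠ q : H3 in 𝓝 p, fderiv ℝ f q.val ≠ 0 :=
    (hfd1.comp continuous_val.continuousAt).eventually_ne h.fderiv_ne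
  have hU : ∀ᶠ q : H3 in 𝓝 p, q.val ∈ U := (h.isOpen.preimage continuous_val).mem_nhds h.mem
  have heq : ∀ᶠ q : H3 in 𝓝[S] p, (tangentPlane S q).starProjection (Zmap q.val) =
      Zmap q.val - (fderiv ℝ f q.val (Zmap q.val) /
        ‖(InnerProductSpace.toDual ℝ E3).symm (fderiv ℝ f q.val)‖ ^ 2) •
        (InnerProductSpace.toDual ℝ E3).symm (fderiv ℝ f q.val) := by
    filter_upwards [mem_nhdsWithin_of_mem_nhds hne, mem_nhdsWithin_of_mem_nhds hU,
      self_mem_nhdsWithin] with q hq1 hq2 hq3
    have hq1' : fderiv ℝ f q.val ≠ 0 := hq1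
    have hq2' : q.val ∈ U := hq2
    have hL : LocalDef S q U f := ⟨h.isOpen, hq2', h.contDiff, hq1', h.iff_zero⟩
    rw [← proj_ker _ hq1', tangentPlane_eq hL hq3]
  have hcont : ContinuousAt (fun q : H3 => Zmap q.val - (fderiv ℝ f q.val (Zmap q.val) /
        ‖(InnerProductSpace.toDual ℝ E3).symm (fderiv ℝ f q.val)‖ ^ 2) •
        (InnerProductSpace.toDual ℝ E3).symm (fderiv ℝ f q.val)) p := by
    have c1 : ContinuousAt (fun q : H3 => fderiv ℝ f q.val) p :=
      hfd1.comp continuous_val.continuousAt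
    have c2 : ContinuousAt (fun q : H3 => Zmap q.val) p :=
      (Zmap.continuous.comp continuous_val).continuousAt
    have c3 : ContinuousAt
        (fun q : H3 => (InnerProductSpace.toDual ℝ E3).symm (fderiv ℝ f q.val)) p :=
      (InnerProductSpace.toDual ℝ E3).symm.continuous.continuousAt.comp c1
    refine c2.sub (ContinuousAt.smul ((c1.clm_apply c2).div (c3.norm.pow 2) ?_) c3)
    have : (InnerProductSpace.toDual ℝ E3).symm (fderiv ℝ f p.val) ≠ 0 := by
      intro h0
      apply h.fderiv_ne
      have := congrArg (InnerProductSpace.toDual ℝ E3) h0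
      simpa using this
    have : 0 < ‖(InnerProductSpace.toDual ℝ E3).symm (fderiv ℝ f p.val)‖ := norm_pos_iff.2 this
    exact pow_ne_zero 2 this.ne'
  exact hcont.continuousWithinAt.congr_of_eventuallyEq heq
    (heq.self_of_nhdsWithin hp)

theorem continuousOn_fderiv_proj {S : Set H3} (hS : IsEmbeddedSurface S) {F : E3 → ℝ}
    (hF : ContDiffOn ℝ 1 F UHS) :
    ContinuousOn (fun p : H3 => fderiv ℝ F p.val
      ((tangentPlane S p).starProjection (Zmap p.val))) S := by
  have h1 : ContinuousOn (fderiv ℝ F) UHS := hF.continuousOn_fderiv_of_isOpen isOpen_UHS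
    le_rfl
  have h2 : Continuous (fun p : H3 => fderiv ℝ F p.val) :=
    h1.comp_continuous continuous_val fun p => p.val_mem
  exact h2.continuousOn.clm_apply (continuousOn_proj hS)

theorem test_ineq {Γ : Subgroup (H3 ≃ᵢ H3)} {S D : Set H3} (hgood : ∀ γ ∈ Γ, GoodIso γ)
    (hS : IsEmbeddedSurface S)
    (hfin : areaMeasure S D < ⊤)
    (hmin : ∀ X : E3 → E3, IsTestField Γ S X → ∫ p in D, surfaceDiv S X p ∂(areaMeasure S) = 0)
    {F : E3 → ℝ} (hF : ContDiffOn ℝ ∞ F UHS) (hFinv : ∀ γ ∈ Γ, ∀ p : H3, F (γ p).val = F p.val)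
    (hF0 : ∀ p : H3, 0 ≤ F p.val) (hF1 : ∀ p : H3, F p.val ≤ 1)
    {C : ℝ} (hC : 0 ≤ C) (hFd : ∀ p ∈ S, ‖fderiv ℝ F p.val‖ ≤ C / p.val 2)
    (hK1 : ∃ K : Set H3, IsCompact K ∧ ∀ p ∈ closure {p : H3 | F p.val ≠ 0}, ∃ γ ∈ Γ, γ p ∈ K)
    (hK2 : ∃ K : Set H3, IsCompact K ∧ K ⊆ S ∧
      ∀ p ∈ closure {p : H3 | F p.val ≠ 0} ∩ S, ∃ γ ∈ Γ, γ p ∈ K) :
    ∫ p in D, F p.val * Qf S p ∂(areaMeasure S) ≤ C * (areaMeasure S D).toReal := by
  have hSm : MeasurableSet S := measurableSet_of_embedded hS
  set X : E3 → E3 := fun x => (F x * bfun x) • Zmap x with hX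
  have hsub : fieldSupport X ⊆ closure {p : H3 | F p.val ≠ 0} := by
    apply closure_mono
    intro p hp hF0
    apply hp
    simp [hX, hF0]
  have htest : IsTestField Γ S X := by
    refine ⟨?_, ?_, ?_, ?_⟩
    · exact ((hF.mul contDiffOn_bfun).smul Zmap.contDiff.contDiffOn).of_le (by simp)
    · intro γ hγ p
      simp only [hX]
      rw [hFinv γ hγ p, (hgood γ hγ).bfun_eq, (hgood γ hγ).Z_inv, map_smul]
    · obtain ⟨K, hK, h⟩ := hK1
      exact ⟨K, hK, fun p hp => h p (hsub hp)⟩
    · obtain ⟨K, hK, hKS, h⟩ := hK2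
      exact ⟨K, hK, hKS, fun p hp => h p ⟨hsub hp.1, hp.2⟩⟩
  have h0 := hmin X htest
  have hdiffF : ∀ p : H3, DifferentiableAt ℝ F p.val := fun p =>
    (hF.differentiableOn (by simp)).differentiableAt (isOpen_UHS.mem_nhds p.val_mem)
  have hdiffb : ∀ p : H3, DifferentiableAt ℝ bfun p.val := fun p =>
    (contDiffOn_bfun.differentiableOn (by simp)).differentiableAt (isOpen_UHS.mem_nhds p.val_mem)
  have hdiv : ∀ p : H3, surfaceDiv S X p =
      bfun p.val * fderiv ℝ F p.val ((tangentPlane S p).starProjection (Zmap p.val)) +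
        F p.val * Qf S p := by
    intro p
    have h1 := surfaceDiv_smul_Z S (fun x => F x * bfun x) p ((hdiffF p).mul (hdiffb p))
    rw [hX]
    rw [h1]
    have h2 : fderiv ℝ (fun x => F x * bfun x) p.val =
        F p.val • fderiv ℝ bfun p.val + bfun p.val • fderiv ℝ F p.val :=
      fderiv_fun_mul (hdiffF p) (hdiffb p)
    rw [h2]
    simp only [add_apply, smul_apply, smul_eq_mul, Qf]
    ring
  simp_rw [hdiv] at h0
  have hfm : IsFiniteMeasure ((areaMeasure S).restrict D) := ⟨by
    rw [Measure.restrict_apply_univ]; exact hfin⟩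
  have hcb : Continuous (fun p : H3 => bfun p.val) :=
    contDiffOn_bfun.continuousOn.comp_continuous continuous_val fun p => p.val_mem
  have hcF : Continuous (fun p : H3 => F p.val) :=
    hF.continuousOn.comp_continuous continuous_val fun p => p.val_mem
  have hm1 : AEStronglyMeasurable (fun p : H3 => bfun p.val * fderiv ℝ F p.val
      ((tangentPlane S p).starProjection (Zmap p.val))) ((areaMeasure S).restrict D) := by
    have h1 : ContinuousOn (fun p : H3 => bfun p.val * fderiv ℝ F p.val
      ((tangentPlane S p).starProjection (Zmap p.val))) S :=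
      hcb.continuousOn.mul (continuousOn_fderiv_proj hS (hF.of_le (by simp)))
    exact (h1.aestronglyMeasurable hSm).restrict
  have hcQ : ContinuousOn (fun p : H3 => Qf S p) S := by
    unfold Qf
    refine (continuousOn_fderiv_proj hS (contDiffOn_bfun.of_le (by simp))).add ?_
    have c1 : Continuous (fun p : H3 => p.val 1) := by
      have : Continuous fun x : E3 => x 1 := by fun_prop
      exact this.comp continuous_val
    refine Continuous.continuousOn ?_
    exact (continuous_const.mul hcb).mul (c1.div continuous_height fun p => p.pos.ne')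
  have hm2 : AEStronglyMeasurable (fun p : H3 => F p.val * Qf S p)
      ((areaMeasure S).restrict D) := by
    have h1 : ContinuousOn (fun p : H3 => F p.val * Qf S p) S := hcF.continuousOn.mul hcQ
    exact (h1.aestronglyMeasurable hSm).restrict
  have haeS : ∀ᵐ p ∂((areaMeasure S).restrict D), p ∈ S :=
    ae_restrict_of_ae (ae_restrict_mem hSm)
  have hi1 : Integrable (fun p : H3 => bfun p.val * fderiv ℝ F p.val
      ((tangentPlane S p).starProjection (Zmap p.val))) ((areaMeasure S).restrict D) := by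
    refine Integrable.of_bound hm1 C ?_
    filter_upwards [haeS] with p hp
    exact abs_bfun_mul_le p hC (hFd p hp) _
  have hQ0 : ∀ p : H3, 0 ≤ Qf S p := fun p => by
    refine le_trans ?_ (Qf_bounds S p).1
    have := ssum_pos p.val_mem
    positivity
  have hi2 : Integrable (fun p : H3 => F p.val * Qf S p) ((areaMeasure S).restrict D) := by
    refine Integrable.of_bound hm2 3 (Eventually.of_forall fun p => ?_)
    rw [Real.norm_eq_abs, abs_of_nonneg (mul_nonneg (hF0 p) (hQ0 p))]
    have h1 := (Qf_bounds S p).2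
    have h2 := hF1 p
    have h3 := hF0 p
    have h4 := hQ0 p
    nlinarith
  rw [integral_add hi1 hi2] at h0
  have h5 : ‖∫ p in D, bfun p.val * fderiv ℝ F p.val
      ((tangentPlane S p).starProjection (Zmap p.val)) ∂(areaMeasure S)‖ ≤
      C * ((areaMeasure S).restrict D).real univ := by
    refine norm_integral_le_of_norm_le_const ?_
    filter_upwards [haeS] with p hp
    exact abs_bfun_mul_le p hC (hFd p hp) _
  have h6 : ((areaMeasure S).restrict D).real univ = (areaMeasure S D).toReal := by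
    rw [Measure.real, Measure.restrict_apply_univ]
  rw [h6, Real.norm_eq_abs] at h5
  have h7 := neg_le_abs (∫ p in D, bfun p.val * fderiv ℝ F p.val
      ((tangentPlane S p).starProjection (Zmap p.val)) ∂(areaMeasure S))
  linarith

end Pool.Agent.H934R3
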