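import Mathlib
import Pool.Agent.H934R3.Surface

set_option autoImplicit false

noncomputable section

open Filter Metric Real Set Topology MeasureTheory
open scoped ContDiff NNReal ENNReal

namespace Pool.Agent.H934R3

open H3

/-- `b` can be reached from `a` by a 1-Lipschitz curve in `S` in time `L` -/
def Reach (S : Set H3) (a : H3) (L : ℝ) (b : H3) : Prop :=
  0 ≤ L ∧ ∃ c : ℝ → H3, c 0 = a ∧ c L = b ∧ (∀ s ∈ Icc (0 : ℝ) L, c s ∈ S) ∧
    ∀ s ∈ Icc (0 : ℝ) L, ∀ s' ∈ Icc (0 : ℝ) L, dist (c s) (c s') ≤ |s - s'|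

theorem Reach.mem_right {S : Set H3} {a b : H3} {L : ℝ} (h : Reach S a L b) : b ∈ S := by
  obtain ⟨hL, c, h0, h1, hS, -⟩ := h
  rw [← h1]; exact hS L ⟨hL, le_rfl⟩

theorem Reach.mem_left {S : Set H3} {a b : H3} {L : ℝ} (h : Reach S a L b) : a ∈ S := by
  obtain ⟨hL, c, h0, h1, hS, -⟩ := h
  rw [← h0]; exact hS 0 ⟨le_rfl, hL⟩

theorem Reach.refl {S : Set H3} {a : H3} (ha : a ∈ S) : Reach S a 0 a :=
  ⟨le_rfl, fun _ => a, rfl, rfl, fun _ _ => ha, fun _ _ _ _ => by simp⟩

theorem Reach.trans {S : Set H3} {a b d : H3} {L L' : ℝ} (h : Reach S a L b)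
    (h' : Reach S b L' d) : Reach S a (L + L') d := by
  obtain ⟨hL, c, h0, h1, hS, hc⟩ := h
  obtain ⟨hL', c', h0', h1', hS', hc'⟩ := h'
  have key : ∀ s, s ∈ Icc L (L + L') → c' (s - L) ∈ S := fun s hs =>
    hS' _ ⟨by linarith [hs.1], by linarith [hs.2]⟩
  refine ⟨by positivity, fun s => if s ≤ L then c s else c' (s - L), ?_, ?_, ?_, ?_⟩
  · simp [hL, h0]
  · by_cases h : L + L' ≤ L
    · have hL0 : L' = 0 := le_antisymm (by linarith) hL'
      simp only [h, if_true]
      rw [hL0, add_zero, h1, ← h1', hL0, h0']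
    · simp only [h, if_false]
      rw [add_sub_cancel_left, h1']
  · intro s hs
    by_cases h : s ≤ L
    · simp only [h, if_true]; exact hS s ⟨hs.1, h⟩
    · simp only [h, if_false]; exact key s ⟨(not_le.1 h).le, hs.2⟩
  · have aux : ∀ s s' : ℝ, s ∈ Icc 0 (L + L') → s' ∈ Icc 0 (L + L') → s ≤ L → ¬ s' ≤ L →
        dist (c s) (c' (s' - L)) ≤ |s - s'| := by
      intro s s' hs hs' h1s h2s
      push Not at h2s
      calc dist (c s) (c' (s' - L)) ≤ dist (c s) (c L) + dist (c L) (c' (s' - L)) :=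
            dist_triangle _ _ _
        _ ≤ |s - L| + |0 - (s' - L)| := by
            have e1 := hc s ⟨hs.1, h1s⟩ L ⟨hL, le_rfl⟩
            have e2 := hc' 0 ⟨le_rfl, hL'⟩ (s' - L) ⟨by linarith, by linarith [hs'.2]⟩
            rw [h0', ← h1] at e2
            linarith
        _ = |s - s'| := by
            rw [abs_of_nonpos (by linarith), abs_of_nonpos (by linarith),
              abs_of_nonpos (by linarith)]
            ring
    intro s hs s' hs'
    by_cases h : s ≤ L <;> by_cases h'' : s' ≤ L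
    · simp only [h, h'', if_true]; exact hc s ⟨hs.1, h⟩ s' ⟨hs'.1, h''⟩
    · simp only [h, h'', if_true, if_false]; exact aux s s' hs hs' h h''
    · simp only [h, h'', if_true, if_false]
      rw [dist_comm, abs_sub_comm]; exact aux s' s hs' hs h'' h
    · simp only [h, h'', if_false]
      have := hc' (s - L) ⟨by linarith [not_le.1 h], by linarith [hs.2]⟩ (s' - L)
        ⟨by linarith [not_le.1 h''], by linarith [hs'.2]⟩
      rwa [sub_sub_sub_cancel_right] at this

theorem Reach.mono {S : Set H3} {a b : H3} {L L' : ℝ} (h : Reach S a L b) (hLL : L ≤ L') :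
    Reach S a L' b := by
  have h2 : Reach S b (L' - L) b :=
    ⟨by linarith, fun _ => b, rfl, rfl, fun _ _ => h.mem_right, fun _ _ _ _ => by simp⟩
  have := h.trans h2
  rwa [add_sub_cancel] at this

theorem Reach.map {S : Set H3} {a b : H3} {L : ℝ} (g : H3 ≃ᵢ H3) (hg : ∀ p ∈ S, g p ∈ S)
    (h : Reach S a L b) : Reach S (g a) L (g b) := by
  obtain ⟨hL, c, h0, h1, hS, hc⟩ := h
  exact ⟨hL, fun s => g (c s), by simp [h0], by simp [h1], fun s hs => hg _ (hS s hs),
    fun s hs s' hs' => by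
      show dist (g (c s)) (g (c s')) ≤ _
      rw [g.dist_eq]; exact hc s hs s' hs'⟩

/-- intrinsic closed balls of a complete surface are compact -/
theorem isCompact_reach {S : Set H3} (hcomp : IsCompleteSurface S) (hlc : IsLocallyClosed S)
    (a : H3) (R : ℝ) : IsCompact {x | Reach S a R x} := by
  rw [isCompact_iff_ultrafilter_le_nhds]
  intro f hf
  have hfK : ∀ᶠ x in (f : Filter H3), Reach S a R x := by
    exact le_principal_iff.1 hf
  obtain ⟨x0, hx0⟩ := hfK.exists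
  have hR : 0 ≤ R := hx0.1
  -- choose curves
  have hch : ∀ x : H3, ∃ c : ℝ → H3, Reach S a R x → (c 0 = a ∧ c R = x ∧
      (∀ s ∈ Icc (0 : ℝ) R, c s ∈ S) ∧
      ∀ s ∈ Icc (0 : ℝ) R, ∀ s' ∈ Icc (0 : ℝ) R, dist (c s) (c s') ≤ |s - s'|) := by
    intro x
    by_cases hx : Reach S a R x
    · obtain ⟨-, c, hc⟩ := hx
      exact ⟨c, fun _ => hc⟩
    · exact ⟨fun _ => a, fun h => absurd h hx⟩
  choose C hC using hch
  have hlim : ∀ s ∈ Icc (0 : ℝ) R, ∃ y, Tendsto (fun x => C x s) f (𝓝 y) := by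
    intro s hs
    have hcpt : IsCompact (closedBall a R) := isCompact_closedBall _ _
    have hmem : ∀ᶠ x in (f : Filter H3), C x s ∈ closedBall a R := by
      filter_upwards [hfK] with x hx
      obtain ⟨h0, h1, hS, hd⟩ := hC x hx
      rw [mem_closedBall]
      have := hd s hs 0 ⟨le_rfl, hR⟩
      rw [h0, sub_zero, abs_of_nonneg hs.1] at this
      exact this.trans hs.2
    have h2 : ((f.map fun x => C x s) : Filter H3) ≤ 𝓟 (closedBall a R) := by
      rw [le_principal_iff]; exact hmem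
    obtain ⟨y, -, hy⟩ := isCompact_iff_ultrafilter_le_nhds.1 hcpt _ h2
    exact ⟨y, hy⟩
  have hlim' : ∀ s : ℝ, ∃ y, s ∈ Icc (0 : ℝ) R → Tendsto (fun x => C x s) f (𝓝 y) := by
    intro s
    by_cases hs : s ∈ Icc (0 : ℝ) R
    · obtain ⟨y, hy⟩ := hlim s hs
      exact ⟨y, fun _ => hy⟩
    · exact ⟨a, fun h => absurd h hs⟩
  choose c hc using hlim'
  have hlip : ∀ s ∈ Icc (0 : ℝ) R, ∀ s' ∈ Icc (0 : ℝ) R, dist (c s) (c s') ≤ |s - s'| := by
    intro s hs s' hs'
    refine le_of_tendsto ((hc s hs).dist (hc s' hs')) ?_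
    filter_upwards [hfK] with x hx
    exact (hC x hx).2.2.2 s hs s' hs'
  have hc0 : c 0 = a := by
    refine tendsto_nhds_unique (hc 0 ⟨le_rfl, hR⟩) ?_
    refine tendsto_const_nhds.congr' ?_
    filter_upwards [hfK] with x hx
    exact (hC x hx).1.symm
  have hcl : ∀ s ∈ Icc (0 : ℝ) R, c s ∈ closure S := by
    intro s hs
    refine mem_closure_of_tendsto (hc s hs) ?_
    filter_upwards [hfK] with x hx
    exact (hC x hx).2.2.1 s hs
  have hcR : (f : Filter H3) ≤ 𝓝 (c R) := by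
    have h1 : Tendsto (fun x => C x R) f (𝓝 (c R)) := hc R ⟨hR, le_rfl⟩
    have h2 : Tendsto (fun x : H3 => x) f (𝓝 (c R)) := by
      refine h1.congr' ?_
      filter_upwards [hfK] with x hx
      exact (hC x hx).2.1
    exact h2
  -- the limit curve stays in S
  have haS : a ∈ S := hx0.mem_left
  have hstay : ∀ s ∈ Icc (0 : ℝ) R, c s ∈ S := by
    by_contra hcon
    push Not at hcon
    obtain ⟨s1, hs1, hs1S⟩ := hcon
    set B : Set ℝ := {s | s ∈ Icc (0 : ℝ) R ∧ c s ∉ S} with hB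
    have hBne : B.Nonempty := ⟨s1, hs1, hs1S⟩
    have hBbd : BddBelow B := ⟨0, fun s hs => hs.1.1⟩
    set σ := sInf B with hσ
    have hσ0 : 0 ≤ σ := le_csInf hBne fun s hs => hs.1.1
    have hσR : σ ≤ R := (csInf_le hBbd ⟨hs1, hs1S⟩).trans hs1.2
    have hbefore : ∀ s, 0 ≤ s → s < σ → c s ∈ S := by
      intro s h0 h1
      by_contra h
      have : σ ≤ s := csInf_le hBbd ⟨⟨h0, h1.le.trans hσR⟩, h⟩
      linarith
    have hσS : c σ ∈ S := by
      rcases hσ0.eq_or_lt with h | hpos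
      · rw [← h, hc0]; exact haS
      · obtain ⟨p, hpS, hp⟩ := hcomp (fun u => c (σ * u)) σ (fun u hu =>
          hbefore _ (mul_nonneg hσ0 hu.1) (by nlinarith [hu.2])) (fun u hu v hv => by
            have h1 : ∀ w ∈ Ico (0 : ℝ) 1, σ * w ∈ Icc (0 : ℝ) R := fun w hw =>
              ⟨mul_nonneg hσ0 hw.1, by nlinarith [hw.2, hw.1]⟩
            refine (hlip _ (h1 u hu) _ (h1 v hv)).trans (le_of_eq ?_)
            rw [← mul_sub, abs_mul, abs_of_nonneg hσ0])
        have hp2 : Tendsto (fun u => c (σ * u)) (𝓝[<] 1) (𝓝 (c σ)) := by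
          rw [tendsto_iff_dist_tendsto_zero]
          have h3 : Tendsto (fun u : ℝ => |σ * u - σ|) (𝓝[<] 1) (𝓝 0) := by
            have : Continuous fun u : ℝ => |σ * u - σ| := by fun_prop
            have h4 := this.tendsto 1
            simp only [mul_one, sub_self, abs_zero] at h4
            exact h4.mono_left nhdsWithin_le_nhds
          refine squeeze_zero' (Eventually.of_forall fun _ => dist_nonneg) ?_ h3
          have h5 : ∀ᶠ u : ℝ in 𝓝[<] 1, u ∈ Ico (0 : ℝ) 1 := by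
            refine Ico_mem_nhdsLT (by norm_num)
          filter_upwards [h5] with u hu
          exact hlip _ ⟨mul_nonneg hσ0 hu.1, by nlinarith [hu.2, hu.1]⟩ _ ⟨hσ0, hσR⟩
        rw [tendsto_nhds_unique hp2 hp]; exact hpS
    -- local closedness
    have htfae := (isLocallyClosed_tfae S).out 0 3
    obtain ⟨U, hσU, hUo, hU⟩ := htfae.1 hlc (c σ) hσS
    obtain ⟨ε, hε, hball⟩ := Metric.isOpen_iff.1 hUo _ hσU
    obtain ⟨s, hsB, hs⟩ := exists_lt_of_csInf_lt hBne (show sInf B < σ + ε by linarith)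
    have hσs : σ ≤ s := csInf_le hBbd hsB
    apply hsB.2
    apply hU
    refine ⟨hball ?_, hcl s hsB.1⟩
    rw [mem_ball]
    refine (hlip s hsB.1 σ ⟨hσ0, hσR⟩).trans_lt ?_
    rw [abs_of_nonneg (by linarith)]; linarith
  exact ⟨c R, ⟨hR, c, hc0, rfl, hstay, hlip⟩, hcR⟩

end Pool.Agent.H934R3
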