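import Mathlib
import Pool.Agent.H934R3.Reach

set_option autoImplicit false

noncomputable section

open Filter Metric Real Set Topology MeasureTheory
open scoped ContDiff NNReal ENNReal RealInnerProductSpace

namespace Pool.Agent.H934R3

open H3

theorem sinh_half_le {d : ℝ} (hd0 : 0 ≤ d) (hd2 : d ≤ 2) : sinh (d / 2) ≤ d := by
  have hx : 0 ≤ d / 2 := by positivity
  have hmono : ∀ x : ℝ, 0 ≤ x → sinh x ≤ x * cosh x := by
    intro x hx
    have hmono : MonotoneOn (fun y : ℝ => y * cosh y - sinh y) (Ici 0) := by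
      refine monotoneOn_of_deriv_nonneg (convex_Ici 0) ?_ ?_ ?_
      · exact ((continuous_id.mul continuous_cosh).sub continuous_sinh).continuousOn
      · intro y _
        exact ((differentiableAt_id.mul Real.differentiableAt_cosh).sub
          Real.differentiableAt_sinh).differentiableWithinAt
      · intro y hy
        rw [interior_Ici] at hy
        have : HasDerivAt (fun y : ℝ => y * cosh y - sinh y)
            (1 * cosh y + y * sinh y - cosh y) y :=
          ((hasDerivAt_id y).mul (Real.hasDerivAt_cosh y)).sub (Real.hasDerivAt_sinh y)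
        rw [this.deriv]
        have := mul_nonneg (le_of_lt hy) (sinh_nonneg_iff.2 (le_of_lt hy))
        linarith
    have := hmono (mem_Ici.2 le_rfl) (mem_Ici.2 hx) hx
    simp at this
    linarith
  have h3 := hmono _ hx
  have h4 : cosh (d / 2) ≤ 2 := by
    have h5 : cosh (d / 2) ≤ cosh 1 := by
      rw [cosh_le_cosh, abs_of_nonneg hx, abs_one]; linarith
    have h6 : cosh 1 ≤ 2 := by
      rw [cosh_eq]
      have := Real.exp_one_lt_d9
      have h7 : exp (-1) ≤ 1 := by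
        rw [exp_le_one_iff]; norm_num
      linarith
    linarith
  nlinarith

/-- nearby points of an embedded surface are joined by short curves in the surface -/
theorem local_reach {S : Set H3} (hS : IsEmbeddedSurface S) {p : H3} (hp : p ∈ S) :
    ∃ r > 0, ∀ x ∈ S, ∀ y ∈ S, dist x p < r → dist y p < r → Reach S x (4 * dist x y) y := by
  obtain ⟨U, f, h⟩ := hS.exists_localDef hp
  obtain ⟨n, Φ, Ψ, hn, hΦ, hΦ0, hΨ, hΨ0, hr, hl, hΨS, hΦS, -⟩ := straighten h hp
  have hp2 := p.pos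
  have cc : Continuous fun x : E3 => x 2 := by fun_prop
  have hΦc : Tendsto Φ (𝓝 p.val) (𝓝 0) := by
    have := hΦ.continuousAt.tendsto
    rwa [hΦ0] at this
  have hΨc : Tendsto Ψ (𝓝 0) (𝓝 p.val) := by
    have := hΨ.continuousAt.tendsto
    rwa [hΨ0] at this
  have hΦl := hΦ.isLittleO.def (show (0 : ℝ) < 1 / 8 by norm_num)
  have hΨl := hΨ.isLittleO.def (show (0 : ℝ) < 1 / 8 by norm_num)
  rw [nhds_prod_eq] at hΦl hΨl
  obtain ⟨t1, ht1, hΦ1⟩ := (eventually_prod_self_iff (r := fun a b : E3 =>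
    ‖Φ a - Φ b - (ContinuousLinearMap.id ℝ E3) (a - b)‖ ≤ 1 / 8 * ‖a - b‖)).1 hΦl
  obtain ⟨t2, ht2, hΨ1⟩ := (eventually_prod_self_iff (r := fun a b : E3 =>
    ‖Ψ a - Ψ b - (ContinuousLinearMap.id ℝ E3) (a - b)‖ ≤ 1 / 8 * ‖a - b‖)).1 hΨl
  have hheight : ∀ᶠ x : E3 in 𝓝 p.val, 7 / 8 * p.val 2 < x 2 ∧ x 2 < 9 / 8 * p.val 2 :=
    (cc.continuousAt.eventually (lt_mem_nhds (show 7 / 8 * p.val 2 < p.val 2 by linarith))).and
      (cc.continuousAt.eventually (gt_mem_nhds (show p.val 2 < 9 / 8 * p.val 2 by linarith)))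
  obtain ⟨ρ, hρ, hball⟩ := Metric.mem_nhds_iff.1
    (show {y : E3 | (y ∈ t2 ∧ (fderiv ℝ f p.val y = 0 → ∃ q ∈ S, q.val = Ψ y)) ∧
      (7 / 8 * p.val 2 < (Ψ y) 2 ∧ (Ψ y) 2 < 9 / 8 * p.val 2)} ∈ 𝓝 0 from
      ((eventually_mem_set.2 ht2).and hΨS).and (hΨc.eventually hheight))
  have hgood : ∀ᶠ x : E3 in 𝓝 p.val, (x ∈ t1 ∧ (7 / 8 * p.val 2 < x 2 ∧ x 2 < 9 / 8 * p.val 2)) ∧
      (Φ x ∈ ball 0 ρ ∧ Ψ (Φ x) = x) ∧
      (∀ q ∈ S, q.val = x → fderiv ℝ f p.val (Φ x) = 0) :=
    ((eventually_mem_set.2 ht1).and hheight).and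
      (((hΦc.eventually (ball_mem_nhds _ hρ)).and hl).and hΦS)
  have hgoodH : ∀ᶠ q : H3 in 𝓝 p, (q.val ∈ t1 ∧ (7 / 8 * p.val 2 < q.val 2 ∧
      q.val 2 < 9 / 8 * p.val 2)) ∧ (Φ q.val ∈ ball 0 ρ ∧ Ψ (Φ q.val) = q.val) ∧
      (q ∈ S → fderiv ℝ f p.val (Φ q.val) = 0) := by
    filter_upwards [continuous_val.continuousAt.eventually hgood] with q hq
    exact ⟨hq.1, hq.2.1, fun hqS => hq.2.2 q hqS rfl⟩
  obtain ⟨r, hr0, hrr⟩ := Metric.eventually_nhds_iff.1 hgoodH
  refine ⟨min r 1, by positivity, fun x hx y hy hxp hyp => ?_⟩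
  obtain ⟨⟨hx1, hx2, hx3⟩, ⟨hx4, hx5⟩, hx6⟩ := hrr (lt_of_lt_of_le hxp (min_le_left _ _))
  obtain ⟨⟨hy1, hy2, hy3⟩, ⟨hy4, hy5⟩, hy6⟩ := hrr (lt_of_lt_of_le hyp (min_le_left _ _))
  have hx7 := hx6 hx
  have hy7 := hy6 hy
  have hd2 : dist x y ≤ 2 := by
    have := dist_triangle x p y
    rw [dist_comm p y] at this
    have h1 := lt_of_lt_of_le hxp (min_le_right r 1)
    have h2 := lt_of_lt_of_le hyp (min_le_right r 1)
    linarith
  have hd0 : 0 ≤ dist x y := dist_nonneg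
  rcases eq_or_lt_of_le hd0 with hzero | hpos
  · have hxy : x = y := dist_eq_zero.1 hzero.symm
    rw [← hxy, dist_self, mul_zero]; exact Reach.refl hx
  set T := 4 * dist x y with hT
  have hT0 : 0 < T := by positivity
  let w : ℝ → E3 := fun s => Φ x.val + (s / T) • (Φ y.val - Φ x.val)
  have hwball : ∀ s ∈ Icc (0 : ℝ) T, w s ∈ ball (0 : E3) ρ := by
    intro s hs
    have := (convex_ball (0 : E3) ρ).add_smul_sub_mem hx4 hy4 (t := s / T)
      ⟨div_nonneg hs.1 hT0.le, (div_le_one hT0).2 hs.2⟩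
    exact this
  have hwm : ∀ s : ℝ, fderiv ℝ f p.val (w s) = 0 := by
    intro s
    simp only [w, map_add, map_smul, map_sub, hx7, hy7, sub_self, smul_zero, add_zero]
  let c : ℝ → H3 := fun s => if h : 0 < (Ψ (w s)) 2 then ⟨Ψ (w s), h⟩ else x
  have hcval : ∀ s ∈ Icc (0 : ℝ) T, (c s).val = Ψ (w s) ∧ c s ∈ S := by
    intro s hs
    obtain ⟨⟨hb1, hb2⟩, hb3, hb4⟩ := hball (hwball s hs)
    obtain ⟨q, hqS, hq⟩ := hb2 (hwm s)
    have hpos' : 0 < (Ψ (w s)) 2 := by linarith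
    have hc1 : c s = ⟨Ψ (w s), hpos'⟩ := by simp only [c, hpos', dif_pos]
    have hc2 : c s = q := by rw [hc1]; exact H3.ext hq.symm
    exact ⟨by rw [hc1], by rw [hc2]; exact hqS⟩
  refine ⟨hT0.le, c, ?_, ?_, fun s hs => (hcval s hs).2, ?_⟩
  · apply H3.ext
    rw [(hcval 0 ⟨le_rfl, hT0.le⟩).1]
    simp only [w, zero_div, zero_smul, add_zero]
    exact hx5
  · apply H3.ext
    rw [(hcval T ⟨hT0.le, le_rfl⟩).1]
    simp only [w, div_self hT0.ne', one_smul, add_sub_cancel]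
    exact hy5
  · intro s hs s' hs'
    obtain ⟨⟨hb1, -⟩, hb3, hb4⟩ := hball (hwball s hs)
    obtain ⟨⟨hb1', -⟩, hb3', hb4'⟩ := hball (hwball s' hs')
    refine (dist_le_div_sqrt _ _).trans ?_
    rw [(hcval s hs).1, (hcval s' hs').1]
    have e1 : 7 / 8 * p.val 2 ≤ √((Ψ (w s)) 2 * (Ψ (w s')) 2) := by
      apply Real.le_sqrt_of_sq_le
      have h1 : 0 < 7 / 8 * p.val 2 := by positivity
      nlinarith
    have e2 : dist (Ψ (w s)) (Ψ (w s')) ≤ 9 / 8 * ‖w s - w s'‖ := by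
      have := hΨ1 (w s) hb1 (w s') hb1'
      simp only [ContinuousLinearMap.id_apply] at this
      rw [dist_eq_norm]
      have h2 := norm_le_insert' (Ψ (w s) - Ψ (w s')) (w s - w s')
      linarith
    have e3 : ‖w s - w s'‖ = |s - s'| / T * ‖Φ y.val - Φ x.val‖ := by
      have : w s - w s' = ((s - s') / T) • (Φ y.val - Φ x.val) := by
        simp only [w]
        rw [add_sub_add_left_eq_sub, ← sub_smul]
        congr 1; ring
      rw [this, norm_smul, Real.norm_eq_abs, abs_div, abs_of_pos hT0]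
    have e4 : ‖Φ y.val - Φ x.val‖ ≤ 9 / 8 * dist x.val y.val := by
      have := hΦ1 y.val hy1 x.val hx1
      simp only [ContinuousLinearMap.id_apply] at this
      have h2 := norm_le_insert' (Φ y.val - Φ x.val) (y.val - x.val)
      rw [dist_comm, dist_eq_norm]
      linarith
    have e5 : dist x.val y.val ≤ 9 / 4 * p.val 2 * dist x y := by
      refine (dist_val_le x y).trans ?_
      have h1 : √(x.val 2 * y.val 2) ≤ 9 / 8 * p.val 2 := by
        rw [Real.sqrt_le_left (by positivity)]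
        have := x.pos; have := y.pos
        nlinarith
      have h2 := sinh_half_le hd0 hd2
      have h3 : 0 ≤ sinh (dist x y / 2) := sinh_nonneg_iff.2 (by positivity)
      calc 2 * √(x.val 2 * y.val 2) * sinh (dist x y / 2)
          ≤ 2 * (9 / 8 * p.val 2) * dist x y := by gcongr
        _ = 9 / 4 * p.val 2 * dist x y := by ring
    have habs : 0 ≤ |s - s'| := abs_nonneg _
    have e6 : dist (Ψ (w s)) (Ψ (w s')) ≤
        9 / 8 * (|s - s'| / T * (9 / 8 * (9 / 4 * p.val 2 * dist x y))) := by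
      refine e2.trans ?_
      rw [e3]
      gcongr
      exact e4.trans (by gcongr)
    have hsq : 0 < √((Ψ (w s)) 2 * (Ψ (w s')) 2) := lt_of_lt_of_le (by positivity) e1
    rw [div_le_iff₀ hsq]
    have hdT : dist x y = T / 4 := by rw [hT]; ring
    rw [hdT] at e6
    have e7 : 9 / 8 * (|s - s'| / T * (9 / 8 * (9 / 4 * p.val 2 * (T / 4)))) =
        (729 / 1024) * p.val 2 * |s - s'| := by
      field_simp
      ring
    rw [e7] at e6
    nlinarith [mul_nonneg habs hp2.le, mul_le_mul_of_nonneg_left e1 habs]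

/-- uniform version on compact subsets -/
theorem uniform_reach {S : Set H3} (hS : IsEmbeddedSurface S) {K : Set H3} (hK : IsCompact K)
    (hKS : K ⊆ S) : ∃ δ > 0, ∀ x ∈ K, ∀ y ∈ S, dist x y < δ →
      Reach S x (4 * dist x y) y ∧ Reach S y (4 * dist x y) x := by
  have h1 : ∀ p : H3, ∃ r > 0, p ∈ K → ∀ x ∈ S, ∀ y ∈ S, dist x p < r → dist y p < r →
      Reach S x (4 * dist x y) y := by
    intro p
    by_cases hp : p ∈ K
    · obtain ⟨r, hr, h⟩ := local_reach hS (hKS hp)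
      exact ⟨r, hr, fun _ => h⟩
    · exact ⟨1, one_pos, fun h => absurd h hp⟩
  choose r hr h using h1
  obtain ⟨δ, hδ, hcov⟩ := lebesgue_number_lemma_of_metric (s := K) (c := fun p : K => ball p.1 (r p.1))
    hK (fun _ => isOpen_ball) (fun p hp => mem_iUnion.2 ⟨⟨p, hp⟩, mem_ball_self (hr p)⟩)
  refine ⟨δ, hδ, fun x hx y hy hxy => ?_⟩
  obtain ⟨⟨p, hp⟩, hsub⟩ := hcov x hx
  have hx' : dist x p < r p := hsub (mem_ball_self hδ)
  have hy' : dist y p < r p := hsub (by rw [mem_ball, dist_comm]; exact hxy)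
  refine ⟨h p hp x (hKS hx) y hy hx' hy', ?_⟩
  rw [dist_comm x y]
  exact h p hp y hy x (hKS hx) hy' hx'

theorem haus2 : (μH[(2 : ℝ)] : Measure (Fin 2 → ℝ)) = volume := by
  have := hausdorffMeasure_pi_real (ι := Fin 2)
  simpa using this

/-- embedded surfaces have positive area near each of their points -/
theorem area_pos {S : Set H3} (hS : IsEmbeddedSurface S) {p : H3} (hp : p ∈ S) {V : Set H3}
    (hV : V ∈ 𝓝 p) : 0 < (μH[2] : Measure H3) (S ∩ V) := by
  obtain ⟨U, f, h⟩ := hS.exists_localDef hp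
  obtain ⟨n, Φ, Ψ, hn, hΦ, hΦ0, hΨ, hΨ0, hr, hl, hΨS, hΦS, -⟩ := straighten h hp
  have hp2 := p.pos
  set m := fderiv ℝ f p.val with hm
  -- projection to the kernel
  let P : E3 →ₗ[ℝ] LinearMap.ker (m : E3 →ₗ[ℝ] ℝ) :=
    LinearMap.codRestrict _ (LinearMap.id - (m : E3 →ₗ[ℝ] ℝ).smulRight n) (fun y => by
      simp [hn])
  have hPk : ∀ k : LinearMap.ker (m : E3 →ₗ[ℝ] ℝ), P k.1 = k := by
    intro k
    have : m k.1 = 0 := k.2
    apply Subtype.ext
    show k.1 - m k.1 • n = k.1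
    rw [this, zero_smul, sub_zero]
  have hrank : Module.finrank ℝ (LinearMap.ker (m : E3 →ₗ[ℝ] ℝ)) = 2 := by
    have h1 := LinearMap.finrank_range_add_finrank_ker (m : E3 →ₗ[ℝ] ℝ)
    have h2 : LinearMap.range (m : E3 →ₗ[ℝ] ℝ) = ⊤ := by
      rw [LinearMap.range_eq_top]
      intro t
      refine ⟨t • n, ?_⟩
      simp [hn]
    rw [h2, finrank_top, Module.finrank_self, finrank_euclideanSpace_fin] at h1
    omega
  let e : LinearMap.ker (m : E3 →ₗ[ℝ] ℝ) ≃L[ℝ] (Fin 2 → ℝ) :=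
    ContinuousLinearEquiv.ofFinrankEq (by rw [hrank]; simp)
  let L : E3 →L[ℝ] (Fin 2 → ℝ) := LinearMap.toContinuousLinearMap (e.toLinearMap ∘ₗ P)
  have hLk : ∀ k : LinearMap.ker (m : E3 →ₗ[ℝ] ℝ), L k.1 = e k := by
    intro k
    show e (P k.1) = e k
    rw [hPk]
  have hΦl := hΦ.isLittleO.def (show (0 : ℝ) < 1 / 8 by norm_num)
  rw [nhds_prod_eq] at hΦl
  obtain ⟨t1, ht1, hΦ1⟩ := (eventually_prod_self_iff (r := fun a b : E3 =>
    ‖Φ a - Φ b - (ContinuousLinearMap.id ℝ E3) (a - b)‖ ≤ 1 / 8 * ‖a - b‖)).1 hΦl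
  have hΨc : Tendsto Ψ (𝓝 0) (𝓝 p.val) := by
    have := hΨ.continuousAt.tendsto
    rwa [hΨ0] at this
  -- the good neighbourhood
  set V' : Set H3 := V ∩ (H3.val ⁻¹' t1 ∩ ball p 1) with hV'
  have hV'n : V' ∈ 𝓝 p := inter_mem hV (inter_mem
    (continuous_val.continuousAt.preimage_mem_nhds ht1) (ball_mem_nhds _ one_pos))
  have hV'E : H3.val '' V' ∈ 𝓝 p.val := isOpenEmbedding_val.isOpenMap.image_mem_nhds hV'n
  obtain ⟨ρ, hρ, hball⟩ := Metric.mem_nhds_iff.1
    (show {y : E3 | (m y = 0 → ∃ q ∈ S, q.val = Ψ y) ∧ Φ (Ψ y) = y ∧ Ψ y ∈ H3.val '' V'} ∈ 𝓝 0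
      from hΨS.and (hr.and (hΨc.eventually (eventually_mem_set.2 hV'E))))
  let T : H3 → (Fin 2 → ℝ) := fun x => L (Φ x.val)
  have hsub : {u : Fin 2 → ℝ | ‖(e.symm u).1‖ < ρ} ⊆ T '' (S ∩ V') := by
    intro u hu
    have hk : (e.symm u).1 ∈ ball (0 : E3) ρ := by simpa using hu
    obtain ⟨h1, h2, h3⟩ := hball hk
    obtain ⟨q, hqS, hq⟩ := h1 (e.symm u).2
    refine ⟨q, ⟨hqS, ?_⟩, ?_⟩
    · obtain ⟨q', hq', hqq⟩ := h3
      have : q' = q := val_injective (by rw [hqq, hq])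
      rwa [← this]
    · simp only [T, hq, h2, hLk, ContinuousLinearEquiv.apply_symm_apply]
  have hopen : IsOpen {u : Fin 2 → ℝ | ‖(e.symm u).1‖ < ρ} := by
    have : Continuous fun u : Fin 2 → ℝ => ‖(e.symm u).1‖ :=
      (continuous_subtype_val.comp e.symm.continuous).norm
    exact isOpen_lt this continuous_const
  have hpos : 0 < (volume : Measure (Fin 2 → ℝ)) {u : Fin 2 → ℝ | ‖(e.symm u).1‖ < ρ} :=
    hopen.measure_pos _ ⟨0, by simpa using hρ⟩
  set C : ℝ≥0 := ⟨‖L‖ * (9 / 8 * (2 * (p.val 2 * exp 1) )), by positivity⟩ with hC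
  have hlip : LipschitzOnWith C T (S ∩ V') := by
    refine LipschitzOnWith.of_dist_le_mul fun x hx y hy => ?_
    have hx1 := hx.2.2.1
    have hy1 := hy.2.2.1
    have hx2 : dist x p < 1 := hx.2.2.2
    have hy2 : dist y p < 1 := hy.2.2.2
    have hd2 : dist x y ≤ 2 := by
      have := dist_triangle x p y
      rw [dist_comm p y] at this
      linarith
    have e1 : dist (T x) (T y) ≤ ‖L‖ * ‖Φ x.val - Φ y.val‖ := by
      rw [dist_eq_norm]
      simp only [T]
      rw [← map_sub]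
      exact L.le_opNorm _
    have e4 : ‖Φ x.val - Φ y.val‖ ≤ 9 / 8 * dist x.val y.val := by
      have := hΦ1 x.val hx1 y.val hy1
      simp only [ContinuousLinearMap.id_apply] at this
      have h2 := norm_le_insert' (Φ x.val - Φ y.val) (x.val - y.val)
      rw [dist_eq_norm]
      linarith
    have e5 : dist x.val y.val ≤ 2 * (p.val 2 * exp 1) * dist x y := by
      refine (dist_val_le x y).trans ?_
      have hx3 := height_le p x
      have hy3 := height_le p y
      rw [dist_comm] at hx3 hy3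
      have hx4 : x.val 2 ≤ p.val 2 * exp 1 := hx3.trans (by gcongr)
      have hy4 : y.val 2 ≤ p.val 2 * exp 1 := hy3.trans (by gcongr)
      have h1 : √(x.val 2 * y.val 2) ≤ p.val 2 * exp 1 := by
        rw [Real.sqrt_le_left (by positivity), sq]
        have := x.pos; have := y.pos
        gcongr
      have h2 := sinh_half_le (dist_nonneg (x := x) (y := y)) hd2
      have h3 : 0 ≤ sinh (dist x y / 2) := sinh_nonneg_iff.2 (by positivity)
      gcongr
    calc dist (T x) (T y) ≤ ‖L‖ * (9 / 8 * (2 * (p.val 2 * exp 1) * dist x y)) :=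
          e1.trans (by gcongr; exact e4.trans (by gcongr))
      _ = C * dist x y := by
          show _ = (‖L‖ * (9 / 8 * (2 * (p.val 2 * exp 1)))) * dist x y
          ring
  have h1 := hlip.hausdorffMeasure_image_le (d := 2) (by norm_num)
  rw [haus2] at h1
  have h2 : 0 < (C : ℝ≥0∞) ^ (2 : ℝ) * (μH[2] : Measure H3) (S ∩ V') :=
    lt_of_lt_of_le hpos ((measure_mono hsub).trans h1)
  have h3 : (μH[2] : Measure H3) (S ∩ V') ≠ 0 := by
    intro h0
    rw [h0, mul_zero] at h2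
    exact lt_irrefl _ h2
  exact lt_of_lt_of_le (pos_iff_ne_zero.2 h3) (measure_mono (by
    rintro x ⟨hx1, hx2, -⟩; exact ⟨hx1, hx2⟩))

/-- a surface contained in the plane is open in the plane -/
theorem open_in_plane {S : Set H3} (hS : IsEmbeddedSurface S) (hSP : ∀ q ∈ S, q.val 1 = 0)
    {p : H3} (hp : p ∈ S) : ∀ᶠ q : H3 in 𝓝 p, q.val 1 = 0 → q ∈ S := by
  obtain ⟨U, f, h⟩ := hS.exists_localDef hp
  obtain ⟨n, Φ, Ψ, hn, hΦ, hΦ0, hΨ, hΨ0, hr, hl, hΨS, hΦS, hform⟩ := straighten h hp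
  set m := fderiv ℝ f p.val with hm
  -- tangent vectors have vanishing second coordinate
  have htan : ∀ v ∈ tangentConeAt ℝ (H3.val '' S) p.val, v 1 = 0 := by
    intro v hv
    have h1 : HasFDerivWithinAt (fun x : E3 => x 1) (EuclideanSpace.proj (𝕜 := ℝ) 1 : E3 →L[ℝ] ℝ)
        (H3.val '' S) p.val :=
      (EuclideanSpace.proj (𝕜 := ℝ) (1 : Fin 3) : E3 →L[ℝ] ℝ).hasFDerivAt.hasFDerivWithinAt
    have hconst : HasFDerivWithinAt (fun _ : E3 => (0 : ℝ)) (0 : E3 →L[ℝ] ℝ)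
        (H3.val '' S) p.val := hasFDerivWithinAt_const _ _ _
    have h2 : HasFDerivWithinAt (fun x : E3 => x 1) (0 : E3 →L[ℝ] ℝ) (H3.val '' S) p.val := by
      refine hconst.congr ?_ (hSP p hp)
      rintro _ ⟨q, hq, rfl⟩
      exact hSP q hq
    have := h1.unique_on h2 hv
    simpa using this
  have hker : ∀ v, m v = 0 → v 1 = 0 := by
    intro v hv
    have h1 : v ∈ tangentPlane S p := by
      rw [tangentPlane_eq h hp]; exact hv
    have h2 : tangentPlane S p ≤ LinearMap.ker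
        ((EuclideanSpace.proj (𝕜 := ℝ) (1 : Fin 3) : E3 →L[ℝ] ℝ) : E3 →ₗ[ℝ] ℝ) :=
      Submodule.span_le.2 fun w hw => htan w hw
    exact h2 h1
  have hn1 : n 1 ≠ 0 := by
    intro h0
    have : ∀ v : E3, v 1 = 0 := by
      intro v
      have h1 := hker (v - m v • n) (by simp [hn])
      simp [h0] at h1
      exact h1
    have h2 := this (EuclideanSpace.single 1 1)
    simp at h2
  have hker' : ∀ v : E3, v 1 = 0 → m v = 0 := by
    intro v hv
    have h1 := hker (v - m v • n) (by simp [hn])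
    simp [hv] at h1
    rcases h1 with h1 | h1
    · exact h1
    · exact absurd h1 hn1
  have hΨc : Tendsto Ψ (𝓝 0) (𝓝 p.val) := by
    have := hΨ.continuousAt.tendsto
    rwa [hΨ0] at this
  have hsub : Tendsto (fun q : H3 => q.val - p.val) (𝓝 p) (𝓝 0) := by
    have h9 := (continuous_val.tendsto p).sub_const p.val
    rw [sub_self] at h9
    exact h9
  filter_upwards [hsub.eventually hΨS, hsub.eventually hr,
    hsub.eventually (hΨc.eventually hΦS)] with q hq1 hq2 hq3 hq4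
  have hk : (q.val - p.val) 1 = 0 := by
    have := hSP p hp
    simp [hq4, this]
  obtain ⟨q', hq'S, hq'⟩ := hq1 (hker' _ hk)
  have h1 : m (Φ (Ψ (q.val - p.val))) = 0 := hq3 q' hq'S hq'
  have h2 : m (q'.val - p.val) = 0 := by
    apply hker'
    have e1 := hSP p hp
    have e2 := hSP q' hq'S
    simp [e1, e2]
  have h3 := hform q'.val
  rw [h2, sub_zero] at h3
  rw [← hq', h3, map_add, h2, map_smul, hn, smul_eq_mul, mul_one, zero_add] at h1
  rw [h1, zero_smul, add_zero] at h3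
  rw [← hq', h3] at hq2
  have h4 : q' = q := by
    apply H3.ext
    have := hq2
    exact sub_left_injective this
  rw [← h4]; exact hq'S

/-- a complete surface contained in the plane is the whole plane -/
theorem eq_plane {S : Set H3} (hS : IsEmbeddedSurface S) (hcomp : IsCompleteSurface S)
    (hne : S.Nonempty) (hSP : ∀ q ∈ S, q.val 1 = 0) : S = {p : H3 | p.val 1 = 0} := by
  apply Subset.antisymm (fun q hq => hSP q hq)
  intro q hq
  have hq : q.val 1 = 0 := hq
  obtain ⟨p, hp⟩ := hne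
  have hp1 := hSP p hp
  have hp2 := p.pos
  have hq2 := q.pos
  set η := min (p.val 2) (q.val 2) with hη
  have hη0 : 0 < η := lt_min hp2 hq2
  let w : ℝ → E3 := fun s => p.val + s • (q.val - p.val)
  have hw2 : ∀ s ∈ Icc (0 : ℝ) 1, η ≤ w s 2 := by
    intro s hs
    have h1 : w s 2 = (1 - s) * p.val 2 + s * q.val 2 := by
      simp [w]; ring
    rw [h1]
    have e1 : η ≤ p.val 2 := min_le_left _ _
    have e2 : η ≤ q.val 2 := min_le_right _ _
    nlinarith [hs.1, hs.2]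
  have hw1 : ∀ s, w s 1 = 0 := by
    intro s; simp [w, hp1, hq]
  let c : ℝ → H3 := fun s => if h : 0 < w s 2 then ⟨w s, h⟩ else p
  have hcv : ∀ s ∈ Icc (0 : ℝ) 1, (c s).val = w s := by
    intro s hs
    have : 0 < w s 2 := lt_of_lt_of_le hη0 (hw2 s hs)
    simp only [c, this, dif_pos]
  set L := ‖q.val - p.val‖ / η with hL
  have hL0 : 0 ≤ L := by positivity
  have hlip : ∀ s ∈ Icc (0 : ℝ) 1, ∀ s' ∈ Icc (0 : ℝ) 1, dist (c s) (c s') ≤ L * |s - s'| := by
    intro s hs s' hs'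
    refine (dist_le_div_sqrt _ _).trans ?_
    rw [hcv s hs, hcv s' hs']
    have e1 : η ≤ √(w s 2 * w s' 2) := by
      apply Real.le_sqrt_of_sq_le
      have := hw2 s hs
      have := hw2 s' hs'
      nlinarith
    have e2 : dist (w s) (w s') = |s - s'| * ‖q.val - p.val‖ := by
      rw [dist_eq_norm]
      have : w s - w s' = (s - s') • (q.val - p.val) := by
        simp only [w]; rw [add_sub_add_left_eq_sub, ← sub_smul]
      rw [this, norm_smul, Real.norm_eq_abs]
    rw [e2, hL]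
    rw [div_le_iff₀ (lt_of_lt_of_le hη0 e1)]
    have : ‖q.val - p.val‖ / η * |s - s'| * √(w s 2 * w s' 2) ≥
        ‖q.val - p.val‖ / η * |s - s'| * η := by gcongr
    refine le_trans (le_of_eq ?_) this
    field_simp
  have hc0 : c 0 = p := by
    apply H3.ext; rw [hcv 0 ⟨le_rfl, zero_le_one⟩]; simp [w]
  have hc1 : c 1 = q := by
    apply H3.ext; rw [hcv 1 ⟨zero_le_one, le_rfl⟩]; simp [w]
  have hstay : ∀ s ∈ Icc (0 : ℝ) 1, c s ∈ S := by
    by_contra hcon
    push Not at hcon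
    obtain ⟨s1, hs1, hs1S⟩ := hcon
    set B : Set ℝ := {s | s ∈ Icc (0 : ℝ) 1 ∧ c s ∉ S} with hB
    have hBne : B.Nonempty := ⟨s1, hs1, hs1S⟩
    have hBbd : BddBelow B := ⟨0, fun s hs => hs.1.1⟩
    set σ := sInf B with hσ
    have hσ0 : 0 ≤ σ := le_csInf hBne fun s hs => hs.1.1
    have hσR : σ ≤ 1 := (csInf_le hBbd ⟨hs1, hs1S⟩).trans hs1.2
    have hbefore : ∀ s, 0 ≤ s → s < σ → c s ∈ S := by
      intro s h0 h1
      by_contra h
      have : σ ≤ s := csInf_le hBbd ⟨⟨h0, h1.le.trans hσR⟩, h⟩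
      linarith
    have hσS : c σ ∈ S := by
      rcases hσ0.eq_or_lt with h | hpos
      · rw [← h, hc0]; exact hp
      · have h1 : ∀ w ∈ Ico (0 : ℝ) 1, σ * w ∈ Icc (0 : ℝ) 1 := fun w hw =>
              ⟨mul_nonneg hσ0 hw.1, by nlinarith [hw.2, hw.1]⟩
        obtain ⟨p', hpS, hp'⟩ := hcomp (fun u => c (σ * u)) (L * σ) (fun u hu =>
          hbefore _ (mul_nonneg hσ0 hu.1) (by nlinarith [hu.2])) (fun u hu v hv => by
            refine (hlip _ (h1 u hu) _ (h1 v hv)).trans (le_of_eq ?_)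
            rw [← mul_sub, abs_mul, abs_of_nonneg hσ0]; ring)
        have hp2 : Tendsto (fun u => c (σ * u)) (𝓝[<] 1) (𝓝 (c σ)) := by
          rw [tendsto_iff_dist_tendsto_zero]
          have h3 : Tendsto (fun u : ℝ => L * |σ * u - σ|) (𝓝[<] 1) (𝓝 0) := by
            have : Continuous fun u : ℝ => L * |σ * u - σ| := by fun_prop
            have h4 := this.tendsto 1
            simp only [mul_one, sub_self, abs_zero, mul_zero] at h4
            exact h4.mono_left nhdsWithin_le_nhds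
          refine squeeze_zero' (Eventually.of_forall fun _ => dist_nonneg) ?_ h3
          have h5 : ∀ᶠ u : ℝ in 𝓝[<] 1, u ∈ Ico (0 : ℝ) 1 := by
            refine Ico_mem_nhdsLT (by norm_num)
          filter_upwards [h5] with u hu
          exact hlip _ (h1 u hu) _ ⟨hσ0, hσR⟩
        rw [tendsto_nhds_unique hp2 hp']; exact hpS
    obtain ⟨ε, hε, hball⟩ := Metric.eventually_nhds_iff.1 (open_in_plane hS hSP hσS)
    obtain ⟨s, hsB, hs⟩ := exists_lt_of_csInf_lt hBne
      (show sInf B < σ + ε / (L + 1) by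
        have : 0 < ε / (L + 1) := by positivity
        linarith)
    have hσs : σ ≤ s := csInf_le hBbd hsB
    apply hsB.2
    apply hball
    · refine (hlip s hsB.1 σ ⟨hσ0, hσR⟩).trans_lt ?_
      rw [abs_of_nonneg (by linarith)]
      have h6 : s - σ < ε / (L + 1) := by linarith
      rw [lt_div_iff₀ (by positivity)] at h6
      nlinarith
    · rw [hcv s hsB.1, hw1]
  have := hstay 1 ⟨zero_le_one, le_rfl⟩
  rwa [hc1] at this

end Pool.Agent.H934R3
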