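import Mathlib
import Pool.Agent.H934R3.Ineq
import Pool.Agent.H934R3.Local

set_option autoImplicit false

noncomputable section

open Filter Metric Real Set Topology MeasureTheory
open scoped ContDiff NNReal ENNReal RealInnerProductSpace Pointwise

namespace Pool.Agent.H934R3

open H3

/-- intrinsic cutoff -/
def phi (Γ : Subgroup (H3 ≃ᵢ H3)) (S : Set H3) (a : H3) (R : ℝ) (x : H3) : ℝ :=
  sSup (insert 0 {v | ∃ γ ∈ Γ, ∃ L, Reach S (γ a) L x ∧ v = 1 - L / R})

section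
variable {Γ : Subgroup (H3 ≃ᵢ H3)} {S : Set H3} {a : H3} {R : ℝ}

theorem phi_bdd (hR : 0 < R) (x : H3) :
    BddAbove (insert 0 {v | ∃ γ ∈ Γ, ∃ L, Reach S (γ a) L x ∧ v = 1 - L / R}) := by
  refine ⟨1, ?_⟩
  rintro _ (rfl | ⟨γ, -, L, hL, rfl⟩)
  · norm_num
  · have : 0 ≤ L / R := div_nonneg hL.1 hR.le
    linarith

theorem phi_nonneg (hR : 0 < R) (x : H3) : 0 ≤ phi Γ S a R x :=
  le_csSup (phi_bdd hR x) (mem_insert _ _)

theorem phi_le_one (hR : 0 < R) (x : H3) : phi Γ S a R x ≤ 1 := by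
  refine csSup_le ⟨0, mem_insert _ _⟩ ?_
  rintro _ (rfl | ⟨γ, -, L, hL, rfl⟩)
  · norm_num
  · have : 0 ≤ L / R := div_nonneg hL.1 hR.le
    linarith

theorem phi_ge (hR : 0 < R) {γ : H3 ≃ᵢ H3} (hγ : γ ∈ Γ) {L : ℝ} {x : H3}
    (h : Reach S (γ a) L x) : 1 - L / R ≤ phi Γ S a R x :=
  le_csSup (phi_bdd hR x) (mem_insert_of_mem _ ⟨γ, hγ, L, h, rfl⟩)

theorem phi_pos (hR : 0 < R) {x : H3} (h : 0 < phi Γ S a R x) : ∃ γ ∈ Γ, Reach S (γ a) R x := by
  obtain ⟨v, hv, h0⟩ := exists_lt_of_lt_csSup ⟨0, mem_insert _ _⟩ h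
  rcases hv with rfl | ⟨γ, hγ, L, hL, rfl⟩
  · exact absurd h0 (lt_irrefl _)
  · refine ⟨γ, hγ, hL.mono ?_⟩
    have : L / R < 1 := by linarith
    rw [div_lt_one hR] at this
    exact this.le

theorem phi_trans (hR : 0 < R) {x y : H3} {L : ℝ} (h : Reach S x L y) :
    phi Γ S a R x - L / R ≤ phi Γ S a R y := by
  rw [sub_le_iff_le_add]
  refine csSup_le ⟨0, mem_insert _ _⟩ ?_
  have h0 := phi_nonneg (Γ := Γ) (S := S) (a := a) hR y
  rintro _ (rfl | ⟨γ, hγ, L', hL', rfl⟩)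
  · have : 0 ≤ L / R := div_nonneg h.1 hR.le
    linarith
  · have := phi_ge hR hγ (hL'.trans h)
    rw [add_div] at this
    linarith

theorem phi_inv_le (hR : 0 < R) (hS : ∀ γ ∈ Γ, ∀ p ∈ S, γ p ∈ S) {g : H3 ≃ᵢ H3} (hg : g ∈ Γ)
    (x : H3) : phi Γ S a R x ≤ phi Γ S a R (g x) := by
  refine csSup_le ⟨0, mem_insert _ _⟩ ?_
  rintro _ (rfl | ⟨γ, hγ, L, hL, rfl⟩)
  · exact phi_nonneg hR _
  · exact phi_ge hR (Γ.mul_mem hg hγ) (hL.map g (hS g hg))

theorem phi_inv (hR : 0 < R) (hS : ∀ γ ∈ Γ, ∀ p ∈ S, γ p ∈ S) {g : H3 ≃ᵢ H3} (hg : g ∈ Γ)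
    (x : H3) : phi Γ S a R (g x) = phi Γ S a R x := by
  refine le_antisymm ?_ (phi_inv_le hR hS hg x)
  have := phi_inv_le (a := a) hR hS (Γ.inv_mem hg) (g x)
  have h2 : g⁻¹ (g x) = x := by
    rw [← IsometryEquiv.mul_apply, inv_mul_cancel]; rfl
  rwa [h2] at this

end

theorem inv_apply_self (g : H3 ≃ᵢ H3) (x : H3) : g⁻¹ (g x) = x := by
  rw [← IsometryEquiv.mul_apply, inv_mul_cancel]; rfl

theorem apply_inv_self (g : H3 ≃ᵢ H3) (x : H3) : g (g⁻¹ x) = x := by
  rw [← IsometryEquiv.mul_apply, mul_inv_cancel]; rfl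

theorem mem_iff {Γ : Subgroup (H3 ≃ᵢ H3)} {S : Set H3} (hS : ∀ γ ∈ Γ, ∀ p ∈ S, γ p ∈ S)
    {g : H3 ≃ᵢ H3} (hg : g ∈ Γ) (p : H3) : g p ∈ S ↔ p ∈ S := by
  refine ⟨fun h => ?_, hS g hg p⟩
  have := hS g⁻¹ (Γ.inv_mem hg) _ h
  rwa [inv_apply_self] at this

theorem countable_of_discrete {Γ : Subgroup (H3 ≃ᵢ H3)} (h : IsDiscreteGroup Γ) :
    Countable Γ := by
  have h1 : (Γ : Set (H3 ≃ᵢ H3)) ⊆
      ⋃ n : ℕ, {γ : H3 ≃ᵢ H3 | γ ∈ Γ ∧ dist base (γ base) ≤ n} := by
    intro γ hγ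
    obtain ⟨n, hn⟩ := exists_nat_ge (dist base (γ base))
    exact mem_iUnion.2 ⟨n, hγ, hn⟩
  have h2 : (⋃ n : ℕ, {γ : H3 ≃ᵢ H3 | γ ∈ Γ ∧ dist base (γ base) ≤ n}).Countable :=
    countable_iUnion fun n => (h base n).countable
  exact (h2.mono h1).to_subtype

instance (Γ : Subgroup (H3 ≃ᵢ H3)) : MeasurableConstSMul Γ H3 :=
  ⟨fun g => (g.1.continuous).measurable⟩

theorem smulInvariant {Γ : Subgroup (H3 ≃ᵢ H3)} {S : Set H3}
    (hS : ∀ γ ∈ Γ, ∀ p ∈ S, γ p ∈ S) : SMulInvariantMeasure Γ H3 (areaMeasure S) := by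
  refine ⟨fun g s hs => ?_⟩
  have hm : Measurable (fun x : H3 => g • x) := (g.1.continuous).measurable
  rw [areaMeasure, Measure.restrict_apply (hm hs), Measure.restrict_apply hs]
  have h1 : (fun x : H3 => g • x) ⁻¹' s ∩ S = g.1 ⁻¹' (s ∩ S) := by
    ext x
    constructor
    · rintro ⟨h1, h2⟩
      exact ⟨h1, hS _ g.2 _ h2⟩
    · rintro ⟨h1, h2⟩
      exact ⟨h1, (mem_iff hS g.2 x).1 h2⟩
  rw [h1, IsometryEquiv.hausdorffMeasure_preimage]

theorem continuousOn_Qf {S : Set H3} (hS : IsEmbeddedSurface S) :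
    ContinuousOn (fun p : H3 => Qf S p) S := by
  unfold Qf
  refine (continuousOn_fderiv_proj hS (contDiffOn_bfun.of_le (by simp))).add ?_
  have hcb : Continuous (fun p : H3 => bfun p.val) :=
    contDiffOn_bfun.continuousOn.comp_continuous continuous_val fun p => p.val_mem
  have c1 : Continuous (fun p : H3 => p.val 1) := by
    have : Continuous fun x : E3 => x 1 := by fun_prop
    exact this.comp continuous_val
  refine Continuous.continuousOn ?_
  exact (continuous_const.mul hcb).mul (c1.div continuous_height fun p => p.pos.ne')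

theorem compact_nbhd {S K : Set H3} (hlc : IsLocallyClosed S) (hK : IsCompact K) (hKS : K ⊆ S) :
    ∃ δ > 0, IsCompact (cthickening δ K ∩ S) := by
  obtain ⟨U, Z, hU, hZ, rfl⟩ := hlc
  obtain ⟨δ, hδ, hsub⟩ := hK.exists_cthickening_subset_open hU (hKS.trans inter_subset_left)
  refine ⟨δ, hδ, ?_⟩
  have : cthickening δ K ∩ (U ∩ Z) = cthickening δ K ∩ Z := by
    ext x
    constructor
    · rintro ⟨h1, h2, h3⟩; exact ⟨h1, h3⟩
    · rintro ⟨h1, h3⟩; exact ⟨h1, hsub h1, h3⟩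
  rw [this]
  exact (hK.cthickening).inter_right hZ

/-- the main estimate for one cutoff radius -/
theorem main_estimate : ∃ A : ℝ, 0 < A ∧ ∀ (Γ : Subgroup (H3 ≃ᵢ H3)) (S D : Set H3),
    (∀ γ ∈ Γ, GoodIso γ) → (∀ γ ∈ Γ, ∀ p ∈ S, γ p ∈ S) → IsEmbeddedSurface S →
    IsCompleteSurface S → areaMeasure S D < ⊤ →
    (∀ X : E3 → E3, IsTestField Γ S X → ∫ p in D, surfaceDiv S X p ∂(areaMeasure S) = 0) →
    ∀ a ∈ S, ∀ R : ℝ, 0 < R → ∃ F : H3 → ℝ, Continuous F ∧ (∀ x, 0 ≤ F x) ∧ (∀ x, F x ≤ 1) ∧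
      (∀ x ∈ S, phi Γ S a R x ≤ F x) ∧
      ∫ p in D, F p * Qf S p ∂(areaMeasure S) ≤ A / R * (areaMeasure S D).toReal := by
  obtain ⟨A, hA, hbound⟩ := exists_smooth_bound
  refine ⟨A * 20, by positivity, ?_⟩
  intro Γ S D hgood hinv hS hcomp hfin hmin a ha R hR
  have hlc := isLocallyClosed_of_embedded hS
  set K : Set H3 := {x | Reach S a R x} with hK
  have hKc : IsCompact K := isCompact_reach hcomp hlc a R
  have hKS : K ⊆ S := fun x hx => Reach.mem_right hx
  obtain ⟨δ0, hδ0, hreach⟩ := uniform_reach hS hKc hKS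
  obtain ⟨δ1, hδ1, hcpt⟩ := compact_nbhd hlc hKc hKS
  set r : ℝ := min (1 / 8) (min δ0 δ1 / 20) with hr
  have hr0 : 0 < r := lt_min (by norm_num) (by have := lt_min hδ0 hδ1; positivity)
  have hr1 : r ≤ 1 / 8 := min_le_left _ _
  have hrδ0 : 20 * r ≤ δ0 := by
    have h1 : r ≤ min δ0 δ1 / 20 := min_le_right _ _
    have h2 : min δ0 δ1 ≤ δ0 := min_le_left _ _
    linarith
  have hrδ1 : 20 * r ≤ δ1 := by
    have h1 : r ≤ min δ0 δ1 / 20 := min_le_right _ _
    have h2 : min δ0 δ1 ≤ δ1 := min_le_right _ _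
    linarith
  set e : ℝ := r ^ 2 with he
  have he0 : 0 < e := by positivity
  have he1 : e ≤ 1 / 64 := by
    rw [he]
    nlinarith
  have hse : √e = r := by rw [he, Real.sqrt_sq hr0.le]
  set B : ℝ := 20 * r / R with hB
  have hB0 : 0 ≤ B := by positivity
  have hphi0 := phi_nonneg (Γ := Γ) (S := S) (a := a) hR
  have hphi1 := phi_le_one (Γ := Γ) (S := S) (a := a) hR
  -- points in the support of `phi`
  have hsuppK : ∀ y, 0 < phi Γ S a R y → ∃ γ ∈ Γ, γ y ∈ K := by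
    intro y hy
    obtain ⟨γ, hγ, h⟩ := phi_pos hR hy
    refine ⟨γ⁻¹, Γ.inv_mem hγ, ?_⟩
    have := h.map γ⁻¹ (hinv _ (Γ.inv_mem hγ))
    rwa [inv_apply_self] at this
  have hBc : ∀ x ∈ S, ∀ y ∈ S, dist x y ≤ 5 * √e → phi Γ S a R y ≤ phi Γ S a R x + B := by
    intro x hx y hy hxy
    rw [hse] at hxy
    rcases (hphi0 y).eq_or_lt with h0 | hpos
    · rw [← h0]; have := hphi0 x; linarith
    · obtain ⟨γ, hγ, hyK⟩ := hsuppK y hpos
      have hd : dist (γ y) (γ x) = dist x y := by rw [γ.dist_eq, dist_comm]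
      have h1 := (hreach (γ y) hyK (γ x) (hinv γ hγ x hx) (by rw [hd]; linarith)).1
      have h2 := phi_trans (Γ := Γ) (a := a) hR h1
      rw [phi_inv hR hinv hγ, phi_inv hR hinv hγ, hd] at h2
      have h3 : 4 * dist x y / R ≤ B := by
        have h5 : 4 * dist x y ≤ 20 * r := by linarith
        rw [hB]; exact div_le_div_of_nonneg_right h5 hR.le
      linarith
  refine ⟨fun x => smooth S (phi Γ S a R) e x.val, ?_, fun x => smooth_nonneg hphi1 he0 he1 x,
    fun x => smooth_le_one hphi1 he0 he1 x, fun x hx => le_smooth hphi1 he0 he1 hx, ?_⟩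
  · exact (contDiffOn_smooth hphi1 he0 he1).continuousOn.comp_continuous continuous_val
      fun p => p.val_mem
  have hclos : ∀ p ∈ closure {p : H3 | smooth S (phi Γ S a R) e p.val ≠ 0},
      ∃ γ ∈ Γ, γ p ∈ cthickening δ1 K := by
    intro p hp
    obtain ⟨q, hq, hpq⟩ := Metric.mem_closure_iff.1 hp (5 * r) (by positivity)
    obtain ⟨y, hyS, hy0, hqy⟩ := smooth_support he0 hq
    rw [hse] at hqy
    obtain ⟨γ, hγ, hyK⟩ := hsuppK y hy0
    refine ⟨γ, hγ, mem_cthickening_of_dist_le (γ p) (γ y) δ1 K hyK ?_⟩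
    rw [γ.dist_eq]
    have := dist_triangle p q y
    linarith
  refine (test_ineq hgood hS hfin hmin (F := smooth S (phi Γ S a R) e) (C := A * 20 / R)
    (contDiffOn_smooth hphi1 he0 he1)
    (fun γ hγ p => smooth_isometry γ (mem_iff hinv hγ) (phi_inv hR hinv hγ) p)
    (fun p => smooth_nonneg hphi1 he0 he1 p) (fun p => smooth_le_one hphi1 he0 he1 p)
    (by positivity) ?_ ?_ ?_).trans (le_of_eq rfl)
  · intro p hp
    have h1 := hbound S (phi Γ S a R) e B hphi0 hphi1 he0 he1 hB0 hBc p hp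
    refine h1.trans (le_of_eq ?_)
    rw [hse, hB]
    field_simp
  · exact ⟨cthickening δ1 K, hKc.cthickening, hclos⟩
  · refine ⟨cthickening δ1 K ∩ S, hcpt, inter_subset_right, ?_⟩
    rintro p ⟨hp, hpS⟩
    obtain ⟨γ, hγ, h⟩ := hclos p hp
    exact ⟨γ, hγ, h, hinv γ hγ p hpS⟩

/-- every finite-area complete minimal surface lies in the plane -/
theorem subset_plane {Γ : Subgroup (H3 ≃ᵢ H3)} (hdisc : IsDiscreteGroup Γ)
    (hgood : ∀ γ ∈ Γ, GoodIso γ) {S : Set H3} (h : IsFiniteAreaMinimal Γ S) :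
    ∀ q ∈ S, q.val 1 = 0 := by
  obtain ⟨hne, hinv, hS, hcomp, D, hD, hfin, hmin⟩ := h
  obtain ⟨A, hA, hest⟩ := main_estimate
  have hSm : MeasurableSet S := measurableSet_of_embedded hS
  have hlc := isLocallyClosed_of_embedded hS
  by_contra hcon
  push Not at hcon
  obtain ⟨a, haS, ha⟩ := hcon
  have : Countable Γ := countable_of_discrete hdisc
  have : SMulInvariantMeasure Γ H3 (areaMeasure S) := smulInvariant hinv
  have hfm : IsFiniteMeasure ((areaMeasure S).restrict D) := ⟨by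
    rw [Measure.restrict_apply_univ]; exact hfin⟩
  set K : Set H3 := {x | Reach S a 1 x} with hK
  have hKc : IsCompact K := isCompact_reach hcomp hlc a 1
  set E0 : Set H3 := ⋃ γ : Γ, γ.1 '' K with hE0
  have hE0m : MeasurableSet E0 :=
    MeasurableSet.iUnion fun γ => (hKc.image γ.1.continuous).measurableSet
  -- integral of the indicator
  have hQ0 : ∀ p : H3, 0 ≤ Qf S p := fun p => by
    refine le_trans ?_ (Qf_bounds S p).1
    have := ssum_pos p.val_mem
    positivity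
  have hQm : AEStronglyMeasurable (fun p : H3 => Qf S p) ((areaMeasure S).restrict D) :=
    ((continuousOn_Qf hS).aestronglyMeasurable hSm).restrict
  have hI : Integrable (E0.indicator (fun p => Qf S p)) ((areaMeasure S).restrict D) := by
    refine Integrable.of_bound (hQm.indicator hE0m) 3 (Eventually.of_forall fun p => ?_)
    by_cases hp : p ∈ E0
    · rw [indicator_of_mem hp, Real.norm_eq_abs, abs_of_nonneg (hQ0 p)]
      exact (Qf_bounds S p).2
    · rw [indicator_of_notMem hp]; norm_num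
  have haeS : ∀ᵐ p ∂((areaMeasure S).restrict D), p ∈ S :=
    ae_restrict_of_ae (ae_restrict_mem hSm)
  have hle : ∀ R : ℝ, 2 ≤ R → ∫ p in D, E0.indicator (fun p => Qf S p) p ∂(areaMeasure S) ≤
      2 * (A / R * (areaMeasure S D).toReal) := by
    intro R hR
    have hR0 : 0 < R := by linarith
    obtain ⟨F, hFc, hF0, hF1, hFphi, hF⟩ := hest Γ S D hgood hinv hS hcomp hfin hmin a haS R hR0
    have hi2 : Integrable (fun p : H3 => F p * Qf S p) ((areaMeasure S).restrict D) := by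
      refine Integrable.of_bound (hFc.aestronglyMeasurable.mul hQm) 3
        (Eventually.of_forall fun p => ?_)
      rw [Real.norm_eq_abs, abs_of_nonneg (mul_nonneg (hF0 p) (hQ0 p))]
      have h1 := (Qf_bounds S p).2
      have h2 := hF1 p
      have h3 := hF0 p
      have h4 := hQ0 p
      nlinarith
    have h1 : ∫ p in D, E0.indicator (fun p => Qf S p) p ∂(areaMeasure S) ≤
        ∫ p in D, 2 * (F p * Qf S p) ∂(areaMeasure S) := by
      refine integral_mono_ae hI (hi2.const_mul 2) ?_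
      filter_upwards [haeS] with p hp
      by_cases hpE : p ∈ E0
      · rw [indicator_of_mem hpE]
        obtain ⟨γ, x, hx, rfl⟩ := mem_iUnion.1 hpE
        have h2 : Reach S (γ.1 a) 1 (γ.1 x) := Reach.map γ.1 (hinv _ γ.2) hx
        have h3 := phi_ge hR0 γ.2 h2
        have h4 := hFphi _ hp
        have h5 : 1 / R ≤ 1 / 2 := by
          apply one_div_le_one_div_of_le <;> linarith
        have h6 := hQ0 (γ.1 x)
        have h7 : 1 / 2 ≤ F (γ.1 x) := by linarith
        nlinarith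
      · rw [indicator_of_notMem hpE]
        have := mul_nonneg (hF0 p) (hQ0 p)
        linarith
    rw [integral_const_mul] at h1
    linarith
  have hI0 : ∫ p in D, E0.indicator (fun p => Qf S p) p ∂(areaMeasure S) ≤ 0 := by
    have hlim : Tendsto (fun R : ℝ => 2 * (A / R * (areaMeasure S D).toReal)) atTop (𝓝 0) := by
      have h1 : Tendsto (fun R : ℝ => A / R) atTop (𝓝 0) := tendsto_const_nhds.div_atTop tendsto_id
      have h2 := (h1.mul_const (areaMeasure S D).toReal).const_mul 2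
      simpa using h2
    refine ge_of_tendsto hlim ?_
    filter_upwards [eventually_ge_atTop (2 : ℝ)] with R hR
    exact hle R hR
  have hnn : 0 ≤ᵐ[(areaMeasure S).restrict D] E0.indicator (fun p => Qf S p) :=
    Eventually.of_forall fun p => indicator_nonneg (fun p _ => hQ0 p) p
  have hI1 : ∫ p in D, E0.indicator (fun p => Qf S p) p ∂(areaMeasure S) = 0 :=
    le_antisymm hI0 (integral_nonneg_of_ae hnn)
  have hae := (integral_eq_zero_iff_of_nonneg_ae hnn hI).1 hI1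
  set N0 : Set H3 := {p | p ∈ E0 ∧ p.val 1 ≠ 0} with hN0
  have hN0m : MeasurableSet N0 := by
    refine hE0m.inter ?_
    have c1 : Continuous (fun p : H3 => p.val 1) := by
      have : Continuous fun x : E3 => x 1 := by fun_prop
      exact this.comp continuous_val
    exact (isOpen_ne_fun c1 continuous_const).measurableSet
  have hQpos : ∀ p : H3, p.val 1 ≠ 0 → 0 < Qf S p := fun p hp => by
    refine lt_of_lt_of_le ?_ (Qf_bounds S p).1
    have h1 := ssum_pos p.val_mem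
    have h2 : 0 < p.val 1 ^ 2 := by positivity
    positivity
  have hnull : areaMeasure S (N0 ∩ D) = 0 := by
    rw [← Measure.restrict_apply hN0m]
    rw [measure_eq_zero_iff_ae_notMem]
    filter_upwards [hae] with p hp hpN
    rw [indicator_of_mem hpN.1] at hp
    exact absurd hp (hQpos p hpN.2).ne'
  have hE0inv : ∀ g : Γ, ∀ p, p ∈ E0 → g.1 p ∈ E0 := by
    intro g p hp
    obtain ⟨γ, x, hx, rfl⟩ := mem_iUnion.1 hp
    exact mem_iUnion.2 ⟨g * γ, x, hx, rfl⟩
  have hcoord : ∀ g : Γ, ∀ p : H3, p.val 1 ≠ 0 → (g.1 p).val 1 ≠ 0 := by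
    intro g p hp h0
    have h1 := (hgood g.1 g.2).inv p
    rw [h0, zero_div] at h1
    have h2 := p.pos
    rcases div_eq_zero_iff.1 h1.symm with h | h
    · exact hp h
    · exact absurd h h2.ne'
  have hN0inv : ∀ g : Γ, g • N0 = N0 := by
    intro g
    ext p
    rw [mem_smul_set_iff_inv_smul_mem]
    constructor
    · rintro ⟨h1, h2⟩
      have e1 := hE0inv g _ h1
      have e2 := hcoord g _ h2
      have e3 : g.1 (g⁻¹ • p) = p := apply_inv_self g.1 p
      rw [e3] at e1 e2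
      exact ⟨e1, e2⟩
    · rintro ⟨h1, h2⟩
      exact ⟨hE0inv g⁻¹ _ h1, hcoord g⁻¹ _ h2⟩
  have hzero : areaMeasure S N0 = 0 := hD.measure_zero_of_invariant N0 hN0inv hnull
  -- positivity near `a`
  obtain ⟨r, hr, hloc⟩ := local_reach hS haS
  have c1 : Continuous (fun p : H3 => p.val 1) := by
    have : Continuous fun x : E3 => x 1 := by fun_prop
    exact this.comp continuous_val
  have hV : (ball a (min r (1 / 4)) ∩ {p : H3 | p.val 1 ≠ 0}) ∈ 𝓝 a :=
    inter_mem (ball_mem_nhds _ (lt_min hr (by norm_num)))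
      ((isOpen_ne_fun c1 continuous_const).mem_nhds ha)
  have hpos := area_pos hS haS hV
  have hsub : S ∩ (ball a (min r (1 / 4)) ∩ {p : H3 | p.val 1 ≠ 0}) ⊆ N0 ∩ S := by
    rintro p ⟨hpS, hpb, hp1⟩
    have hd : dist p a < min r (1 / 4) := hpb
    have hd1 : dist p a < r := lt_of_lt_of_le hd (min_le_left _ _)
    have hd2 : dist p a < 1 / 4 := lt_of_lt_of_le hd (min_le_right _ _)
    refine ⟨⟨mem_iUnion.2 ⟨1, p, ?_, rfl⟩, hp1⟩, hpS⟩
    have h1 := hloc a haS p hpS (by simpa using hr) hd1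
    refine h1.mono ?_
    rw [dist_comm]; linarith
  have hz2 : (μH[2] : Measure H3) (N0 ∩ S) = 0 := by
    rw [areaMeasure, Measure.restrict_apply hN0m] at hzero
    exact hzero
  exact absurd ((measure_mono hsub).trans_eq hz2) (not_le.2 hpos)

/-- a finite-area complete minimal surface must be the whole plane -/
theorem eq_plane_of_minimal {Γ : Subgroup (H3 ≃ᵢ H3)} (hdisc : IsDiscreteGroup Γ)
    (hgood : ∀ γ ∈ Γ, GoodIso γ) {S : Set H3} (h : IsFiniteAreaMinimal Γ S) :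
    S = {p : H3 | p.val 1 = 0} :=
  eq_plane h.embedded h.complete h.nonempty (subset_plane hdisc hgood h)

end Pool.Agent.H934R3
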