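import Mathlib
import Pool.Agent.H934R3.Main

set_option autoImplicit false

noncomputable section

open Filter Metric Real Set Topology MeasureTheory
open scoped ContDiff NNReal ENNReal RealInnerProductSpace Pointwise

namespace Pool.Agent.H934R3

open H3

/-- the totally geodesic plane -/
def thePlane : Set H3 := {p : H3 | p.val 1 = 0}

theorem isClosed_plane : IsClosed thePlane := by
  have c1 : Continuous (fun p : H3 => p.val 1) := by
    have : Continuous fun x : E3 => x 1 := by fun_prop
    exact this.comp continuous_val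
  exact isClosed_eq c1 continuous_const

theorem embedded_plane : IsEmbeddedSurface thePlane := by
  intro p _
  refine ⟨univ, isOpen_univ, mem_univ _, fun x => x 1, (contDiff_coord 1).contDiffOn, ?_, ?_⟩
  · rw [(hasFDerivAt_coord 1 p.val).fderiv]
    intro h
    have := congrArg (fun L : E3 →L[ℝ] ℝ => L (EuclideanSpace.single 1 1)) h
    simp at this
  · intro q _; rfl

theorem aff_plane_image (s : ℝ) (hs : 0 < s) (a ε : ℝ) :
    aff s hs a 0 '' (thePlane ∩ ball base ε) = thePlane ∩ ball (aff s hs a 0 base) ε := by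
  have hiff : ∀ z : H3, aff s hs a 0 z ∈ thePlane ↔ z ∈ thePlane := by
    intro z
    have : (aff s hs a 0 z).val 1 = s * z.val 1 := by
      show (affFun s hs a 0 z).val 1 = _
      simp [affFun]
    show (aff s hs a 0 z).val 1 = 0 ↔ z.val 1 = 0
    rw [this]
    constructor
    · intro h
      rcases mul_eq_zero.1 h with h | h
      · exact absurd h hs.ne'
      · exact h
    · intro h; rw [h, mul_zero]
  ext z
  constructor
  · rintro ⟨w, ⟨hw1, hw2⟩, rfl⟩
    exact ⟨(hiff w).2 hw1, by rw [mem_ball, IsometryEquiv.dist_eq]; exact hw2⟩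
  · rintro ⟨hz1, hz2⟩
    refine ⟨(aff s hs a 0).symm z, ⟨?_, ?_⟩, by simp⟩
    · rw [← hiff]; simpa using hz1
    · rw [mem_ball, ← (aff s hs a 0).dist_eq]; simpa using hz2

theorem exists_aff {p : H3} (hp : p.val 1 = 0) :
    aff (p.val 2) p.pos (p.val 0) 0 base = p := by
  apply H3.ext; ext i
  show (affFun (p.val 2) p.pos (p.val 0) 0 base).val i = _
  fin_cases i <;> simp [affFun, base, hp]

theorem area_ball_plane {p : H3} (hp : p.val 1 = 0) (ε : ℝ) :
    (μH[2] : Measure H3) (thePlane ∩ ball p ε) = (μH[2] : Measure H3) (thePlane ∩ ball base ε) := by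
  conv_lhs => rw [← exists_aff hp]
  rw [← aff_plane_image, IsometryEquiv.hausdorffMeasure_image]

theorem area_ball_pos {ε : ℝ} (hε : 0 < ε) :
    0 < (μH[2] : Measure H3) (thePlane ∩ ball base ε) := by
  refine area_pos embedded_plane ?_ (ball_mem_nhds _ hε)
  show base.val 1 = 0
  simp [base]

/-- `Γ`-separated sequences of points in the plane force infinite area of the quotient -/
theorem infinite_area {Γ : Subgroup (H3 ≃ᵢ H3)} (hdisc : IsDiscreteGroup Γ)
    (hinv : ∀ γ ∈ Γ, ∀ p ∈ thePlane, γ p ∈ thePlane)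
    (p : ℕ → H3) (hp : ∀ n, (p n).val 1 = 0) {ε : ℝ} (hε : 0 < ε)
    (hsep : ∀ γ ∈ Γ, ∀ n m, dist (γ (p n)) (p m) < 2 * ε → γ = 1 ∧ n = m) {D : Set H3}
    (hD : IsFundamentalDomain Γ D (areaMeasure thePlane)) : areaMeasure thePlane D = ⊤ := by
  have : Countable Γ := countable_of_discrete hdisc
  have : SMulInvariantMeasure Γ H3 (areaMeasure thePlane) := smulInvariant hinv
  set E : Set H3 := ⋃ n, (thePlane ∩ ball (p n) ε) with hE
  have hEm : MeasurableSet E :=
    MeasurableSet.iUnion fun n => isClosed_plane.measurableSet.inter isOpen_ball.measurableSet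
  have hdisj : Pairwise (Function.onFun Disjoint fun n => (thePlane ∩ ball (p n) ε)) := by
    intro n m hnm
    rw [Function.onFun, Set.disjoint_left]
    rintro x ⟨-, hx1⟩ ⟨-, hx2⟩
    apply hnm
    have h1 : dist (p n) (p m) < 2 * ε := by
      have := dist_triangle_left (p n) (p m) x
      rw [mem_ball] at hx1 hx2
      linarith
    exact (hsep 1 Γ.one_mem n m (by simpa using h1)).2
  have hEtop : areaMeasure thePlane E = ⊤ := by
    rw [areaMeasure, Measure.restrict_apply hEm]
    have h1 : E ∩ thePlane = E := by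
      apply inter_eq_left.2
      exact iUnion_subset fun n => inter_subset_left
    rw [h1, hE, measure_iUnion hdisj
      (fun n => isClosed_plane.measurableSet.inter isOpen_ball.measurableSet)]
    simp_rw [area_ball_plane (hp _)]
    exact ENNReal.tsum_const_eq_top_of_ne_zero (area_ball_pos hε).ne'
  have hle := hD.measure_le_of_pairwise_disjoint hEm.nullMeasurableSet (by
    intro g h hgh
    apply Disjoint.aedisjoint
    refine Disjoint.inter_left _ (Disjoint.inter_right _ ?_)
    rw [Set.disjoint_left]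
    rintro _ ⟨x, hx, rfl⟩ ⟨y, hy, hxy⟩
    obtain ⟨n, -, hxn⟩ := mem_iUnion.1 hx
    obtain ⟨m, -, hym⟩ := mem_iUnion.1 hy
    apply hgh
    rw [mem_ball] at hxn hym
    have hxy' : h.1 y = g.1 x := hxy
    have h1 : dist ((h⁻¹ * g).1 (p n)) (p m) < 2 * ε := by
      have e1 : (h⁻¹ * g).1 x = y := by
        show h.1⁻¹ (g.1 x) = y
        rw [← hxy', inv_apply_self]
      have e2 : dist ((h⁻¹ * g).1 (p n)) y = dist (p n) x := by
        rw [← e1, IsometryEquiv.dist_eq]
      have := dist_triangle ((h⁻¹ * g).1 (p n)) y (p m)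
      rw [e2, dist_comm (p n)] at this
      linarith
    have h2 := (hsep (h⁻¹ * g).1 (h⁻¹ * g).2 n m h1).1
    have h3 : h⁻¹ * g = 1 := Subtype.ext h2
    exact (inv_mul_eq_one.1 h3).symm)
  rw [hEtop] at hle
  exact top_le_iff.1 hle

/-- a hyperbolic manifold `H3/Γ`, with `Γ` preserving a plane with infinite-area quotient, has no
complete minimal surface of finite area -/
theorem no_minimal {Γ : Subgroup (H3 ≃ᵢ H3)} (hdisc : IsDiscreteGroup Γ)
    (hgood : ∀ γ ∈ Γ, GoodIso γ)
    (p : ℕ → H3) (hp : ∀ n, (p n).val 1 = 0) {ε : ℝ} (hε : 0 < ε)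
    (hsep : ∀ γ ∈ Γ, ∀ n m, dist (γ (p n)) (p m) < 2 * ε → γ = 1 ∧ n = m) (S : Set H3) :
    ¬ IsFiniteAreaMinimal Γ S := by
  intro h
  have hS : S = thePlane := eq_plane_of_minimal hdisc hgood h
  obtain ⟨D, hD, hfin, -⟩ := h.finite_minimal
  have hinv := h.invariant
  rw [hS] at hD hfin hinv
  rw [infinite_area hdisc hinv p hp hε hsep hD] at hfin
  exact lt_irrefl _ hfin

end Pool.Agent.H934R3
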