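import Mathlib
import Pool.Agent.H934R3.Infinite

set_option autoImplicit false

noncomputable section

open Filter Metric Real Set Topology MeasureTheory
open scoped ContDiff NNReal ENNReal RealInnerProductSpace Pointwise MatrixGroups UpperHalfPlane

namespace Pool.Agent.H934R3

open H3

/-- distance to the axis `{x 1 = x 2 = 0}` -/
def rad (p : H3) : ℝ := √(p.val 1 ^ 2 + p.val 2 ^ 2)

theorem rad_pos (p : H3) : 0 < rad p := Real.sqrt_pos.2 (ssum_pos p.val_mem)

theorem rad_sq (p : H3) : rad p ^ 2 = p.val 1 ^ 2 + p.val 2 ^ 2 :=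
  Real.sq_sqrt (ssum_pos p.val_mem).le

/-- projection to the hyperbolic plane -/
def toH (p : H3) : ℍ := ⟨⟨p.val 0, rad p⟩, rad_pos p⟩

theorem toH_re (p : H3) : (toH p).re = p.val 0 := rfl
theorem toH_im (p : H3) : (toH p).im = rad p := rfl

/-- the action of `SL(2,ℝ)` on `H3` -/
def actFun (g : SL(2, ℝ)) (p : H3) : H3 :=
  ⟨!₂[(g • toH p).re, (g • toH p).im * (p.val 1 / rad p), (g • toH p).im * (p.val 2 / rad p)], by
    have h1 := (g • toH p).im_pos
    have h2 := rad_pos p
    have h3 := p.pos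
    show 0 < (g • toH p).im * (p.val 2 / rad p)
    positivity⟩

theorem actFun_0 (g : SL(2, ℝ)) (p : H3) : (actFun g p).val 0 = (g • toH p).re := by
  simp [actFun]
theorem actFun_1 (g : SL(2, ℝ)) (p : H3) :
    (actFun g p).val 1 = (g • toH p).im * (p.val 1 / rad p) := by simp [actFun]
theorem actFun_2 (g : SL(2, ℝ)) (p : H3) :
    (actFun g p).val 2 = (g • toH p).im * (p.val 2 / rad p) := by simp [actFun]

theorem rad_actFun (g : SL(2, ℝ)) (p : H3) : rad (actFun g p) = (g • toH p).im := by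
  have h1 := (g • toH p).im_pos
  have h2 := rad_pos p
  have h3 := rad_sq p
  unfold rad
  rw [actFun_1, actFun_2]
  have : ((g • toH p).im * (p.val 1 / rad p)) ^ 2 + ((g • toH p).im * (p.val 2 / rad p)) ^ 2 =
      (g • toH p).im ^ 2 := by
    have h4 : rad p ^ 2 ≠ 0 := by positivity
    field_simp
    rw [h3]
  rw [this, Real.sqrt_sq h1.le]

theorem toH_actFun (g : SL(2, ℝ)) (p : H3) : toH (actFun g p) = g • toH p := by
  apply UpperHalfPlane.ext
  apply Complex.ext
  · show (actFun g p).val 0 = _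
    rw [actFun_0]; rfl
  · show rad (actFun g p) = _
    rw [rad_actFun]; rfl

theorem actFun_mul (g h : SL(2, ℝ)) (p : H3) : actFun (g * h) p = actFun g (actFun h p) := by
  have hr := rad_pos p
  have him := (h • toH p).im_pos
  apply H3.ext
  ext i
  fin_cases i
  · show (actFun (g * h) p).val 0 = (actFun g (actFun h p)).val 0
    rw [actFun_0, actFun_0, toH_actFun, mul_smul]
  · show (actFun (g * h) p).val 1 = (actFun g (actFun h p)).val 1
    rw [actFun_1, actFun_1, toH_actFun, mul_smul, rad_actFun, actFun_1]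
    field_simp
  · show (actFun (g * h) p).val 2 = (actFun g (actFun h p)).val 2
    rw [actFun_2, actFun_2, toH_actFun, mul_smul, rad_actFun, actFun_2]
    field_simp

theorem actFun_one (p : H3) : actFun 1 p = p := by
  have hr := rad_pos p
  apply H3.ext
  ext i
  fin_cases i
  · show (actFun 1 p).val 0 = p.val 0
    rw [actFun_0, one_smul, toH_re]
  · show (actFun 1 p).val 1 = p.val 1
    rw [actFun_1, one_smul, toH_im]; field_simp
  · show (actFun 1 p).val 2 = p.val 2
    rw [actFun_2, one_smul, toH_im]; field_simp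

/-- the invariants description of `qq` -/
theorem qq_formula (p q : H3) : qq p q =
    (cosh (dist (toH p) (toH q)) -
      (p.val 1 / rad p * (q.val 1 / rad q) + p.val 2 / rad p * (q.val 2 / rad q))) /
      (p.val 2 / rad p * (q.val 2 / rad q)) := by
  have hp := p.pos; have hq := q.pos
  have hrp := rad_pos p; have hrq := rad_pos q
  have h1 := rad_sq p; have h2 := rad_sq q
  rw [UpperHalfPlane.cosh_dist', toH_re, toH_re, toH_im, toH_im]
  unfold qq
  rw [dist_sq]
  field_simp
  rw [h1, h2]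
  ring

theorem ratio_1 (g : SL(2, ℝ)) (p : H3) :
    (actFun g p).val 1 / rad (actFun g p) = p.val 1 / rad p := by
  have := (g • toH p).im_pos
  rw [actFun_1, rad_actFun]
  field_simp

theorem ratio_2 (g : SL(2, ℝ)) (p : H3) :
    (actFun g p).val 2 / rad (actFun g p) = p.val 2 / rad p := by
  have := (g • toH p).im_pos
  rw [actFun_2, rad_actFun]
  field_simp

theorem actFun_qq (g : SL(2, ℝ)) (p q : H3) : qq (actFun g p) (actFun g q) = qq p q := by
  rw [qq_formula, qq_formula p q, ratio_1, ratio_1, ratio_2, ratio_2, toH_actFun, toH_actFun,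
    dist_smul]

/-- the action by isometries -/
def rho : SL(2, ℝ) →* (H3 ≃ᵢ H3) where
  toFun g :=
    { toFun := actFun g
      invFun := actFun g⁻¹
      left_inv := fun p => by rw [← actFun_mul, inv_mul_cancel, actFun_one]
      right_inv := fun p => by rw [← actFun_mul, mul_inv_cancel, actFun_one]
      isometry_toFun := Isometry.of_dist_eq fun p q => qq_dist_iff.2 (actFun_qq g p q) }
  map_one' := by
    ext1 p
    exact actFun_one p
  map_mul' g h := by
    ext1 p
    exact actFun_mul g h p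

theorem rho_apply (g : SL(2, ℝ)) (p : H3) : rho g p = actFun g p := rfl

/-- explicit formula for the action -/
theorem act_formula (g : SL(2, ℝ)) (p : H3) :
    (g • toH p).re = ((g 0 0 * p.val 0 + g 0 1) * (g 1 0 * p.val 0 + g 1 1) +
      g 0 0 * g 1 0 * (p.val 1 ^ 2 + p.val 2 ^ 2)) /
      ((g 1 0 * p.val 0 + g 1 1) ^ 2 + g 1 0 ^ 2 * (p.val 1 ^ 2 + p.val 2 ^ 2)) ∧
    (g • toH p).im = rad p /
      ((g 1 0 * p.val 0 + g 1 1) ^ 2 + g 1 0 ^ 2 * (p.val 1 ^ 2 + p.val 2 ^ 2)) := by
  have h := UpperHalfPlane.coe_specialLinearGroup_apply g (toH p)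
  have hdet : g 0 0 * g 1 1 - g 0 1 * g 1 0 = 1 := by
    have := g.det_coe
    rw [Matrix.det_fin_two] at this
    exact this
  have hr := rad_sq p
  have hre : (g • toH p).re = ((g • toH p : ℍ) : ℂ).re := rfl
  have him : (g • toH p).im = ((g • toH p : ℍ) : ℂ).im := rfl
  rw [hre, him, h]
  have e0 : ((toH p : ℍ) : ℂ).re = p.val 0 := rfl
  have e1 : ((toH p : ℍ) : ℂ).im = rad p := rfl
  simp only [Algebra.algebraMap_self, RingHom.id_apply]
  rw [Complex.div_re, Complex.div_im, Complex.normSq_apply]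
  simp only [Complex.add_re, Complex.mul_re, Complex.ofReal_re, Complex.ofReal_im, zero_mul,
    sub_zero, Complex.add_im, Complex.mul_im, add_zero, e0, e1]
  have hN : (g 1 0 * p.val 0 + g 1 1) * (g 1 0 * p.val 0 + g 1 1) +
      g 1 0 * rad p * (g 1 0 * rad p) =
      (g 1 0 * p.val 0 + g 1 1) ^ 2 + g 1 0 ^ 2 * (p.val 1 ^ 2 + p.val 2 ^ 2) := by
    rw [← hr]; ring
  rw [hN]
  constructor
  · rw [← add_div]
    congr 1
    rw [← hr]; ring
  · rw [← sub_div]
    congr 1
    linear_combination (rad p) * hdet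

theorem N_pos (g : SL(2, ℝ)) {x : E3} (hx : x ∈ UHS) :
    0 < (g 1 0 * x 0 + g 1 1) ^ 2 + g 1 0 ^ 2 * (x 1 ^ 2 + x 2 ^ 2) := by
  have hs := ssum_pos hx
  by_cases hc : g 1 0 = 0
  · have hdet : g 0 0 * g 1 1 - g 0 1 * g 1 0 = 1 := by
      have := g.det_coe
      rw [Matrix.det_fin_two] at this
      exact this
    rw [hc, mul_zero, sub_zero] at hdet
    have h1 : g 1 1 ≠ 0 := by
      intro h; rw [h, mul_zero] at hdet; exact one_ne_zero hdet.symm
    rw [hc]
    have : 0 < g 1 1 ^ 2 := by positivity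
    nlinarith
  · have : 0 < g 1 0 ^ 2 := by positivity
    have := mul_pos this hs
    nlinarith [sq_nonneg (g 1 0 * x 0 + g 1 1)]

theorem actFun_val (g : SL(2, ℝ)) (p : H3) : (actFun g p).val =
    ((g 1 0 * p.val 0 + g 1 1) ^ 2 + g 1 0 ^ 2 * (p.val 1 ^ 2 + p.val 2 ^ 2))⁻¹ •
      !₂[(g 0 0 * p.val 0 + g 0 1) * (g 1 0 * p.val 0 + g 1 1) +
      g 0 0 * g 1 0 * (p.val 1 ^ 2 + p.val 2 ^ 2), p.val 1, p.val 2] := by
  obtain ⟨h1, h2⟩ := act_formula g p
  have hN := N_pos g p.val_mem
  have hr := rad_pos p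
  ext i
  fin_cases i
  · show (actFun g p).val 0 = _
    rw [actFun_0, h1]
    simp
    rw [div_eq_inv_mul]
  · show (actFun g p).val 1 = _
    rw [actFun_1, h2]
    simp
    field_simp
  · show (actFun g p).val 2 = _
    rw [actFun_2, h2]
    simp
    field_simp

theorem goodIso_rho (g : SL(2, ℝ)) : GoodIso (rho g) := by
  constructor
  · intro p
    have h1 : coordMap (rho g) =ᶠ[𝓝 p.val] fun x : E3 =>
        ((g 1 0 * x 0 + g 1 1) ^ 2 + g 1 0 ^ 2 * (x 1 ^ 2 + x 2 ^ 2))⁻¹ •
        !₂[(g 0 0 * x 0 + g 0 1) * (g 1 0 * x 0 + g 1 1) +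
          g 0 0 * g 1 0 * (x 1 ^ 2 + x 2 ^ 2), x 1, x 2] := by
      filter_upwards [isOpen_UHS.mem_nhds p.val_mem] with x hx
      have h3 : (⟨x, hx⟩ : H3).val = x := rfl
      rw [← h3, coordMap_val, rho_apply, actFun_val]
    refine DifferentiableAt.congr_of_eventuallyEq ?_ h1
    have d : ∀ i : Fin 3, DifferentiableAt ℝ (fun x : E3 => x i) p.val := fun i =>
      (hasFDerivAt_coord i p.val).differentiableAt
    have hN : DifferentiableAt ℝ (fun x : E3 =>
        (g 1 0 * x 0 + g 1 1) ^ 2 + g 1 0 ^ 2 * (x 1 ^ 2 + x 2 ^ 2)) p.val :=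
      ((((d 0).const_mul _).add_const _).pow 2).add
        ((((d 1).pow 2).add ((d 2).pow 2)).const_mul _)
    have hNi : DifferentiableAt ℝ (fun x : E3 =>
        ((g 1 0 * x 0 + g 1 1) ^ 2 + g 1 0 ^ 2 * (x 1 ^ 2 + x 2 ^ 2))⁻¹) p.val :=
      hN.fun_inv (N_pos g p.val_mem).ne'
    refine hNi.fun_smul ?_
    · rw [differentiableAt_euclidean]
      intro i
      fin_cases i
      · show DifferentiableAt ℝ (fun x : E3 => (g 0 0 * x 0 + g 0 1) * (g 1 0 * x 0 + g 1 1) +
          g 0 0 * g 1 0 * (x 1 ^ 2 + x 2 ^ 2)) p.val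
        exact ((((d 0).const_mul _).add_const _).mul (((d 0).const_mul _).add_const _)).add
          ((((d 1).pow 2).add ((d 2).pow 2)).const_mul _)
      · exact d 1
      · exact d 2
  · intro p
    rw [rho_apply, actFun_1, actFun_2]
    have h1 := (g • toH p).im_pos
    have h2 := rad_pos p
    have h3 := p.pos
    field_simp

end Pool.Agent.H934R3
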