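import Mathlib
import Pool.Agent.H934R3.SL2

set_option autoImplicit false

noncomputable section

open Filter Metric Real Set Topology MeasureTheory
open scoped ContDiff NNReal ENNReal RealInnerProductSpace Pointwise MatrixGroups UpperHalfPlane

namespace Pool.Agent.H934R3

open H3

theorem det_eq (g : SL(2, ℝ)) : g 0 0 * g 1 1 - g 0 1 * g 1 0 = 1 := by
  have := g.det_coe
  rw [Matrix.det_fin_two] at this
  exact this

/-- displacement of `g` in the upper half-plane -/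
theorem cosh_disp (g : SL(2, ℝ)) (w : ℍ) :
    cosh (dist w (g • w)) = 1 + (((g 1 0 * w.re ^ 2 + (g 1 1 - g 0 0) * w.re - g 0 1) +
      g 1 0 * w.im ^ 2) ^ 2 + w.im ^ 2 * ((g 0 0 + g 1 1) ^ 2 - 4)) / (2 * w.im ^ 2) := by
  have hdet := det_eq g
  have hw := w.im_pos
  have hgw := (g • w).im_pos
  have h := UpperHalfPlane.coe_specialLinearGroup_apply g w
  simp only [Algebra.algebraMap_self, RingHom.id_apply] at h
  have hden : ((g 1 0 : ℂ) * (w : ℂ) + (g 1 1 : ℂ)) ≠ 0 := by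
    intro h0
    rw [h0, div_zero] at h
    have : ((g • w : ℍ) : ℂ).im = 0 := by rw [h]; simp
    exact hgw.ne' this
  have e0 : (w : ℂ).re = w.re := rfl
  have e1 : (w : ℂ).im = w.im := rfl
  set N : ℝ := (g 1 0 * w.re + g 1 1) ^ 2 + g 1 0 ^ 2 * w.im ^ 2 with hN
  have hNn : Complex.normSq ((g 1 0 : ℂ) * (w : ℂ) + (g 1 1 : ℂ)) = N := by
    rw [Complex.normSq_apply]
    simp only [Complex.add_re, Complex.mul_re, Complex.ofReal_re, Complex.ofReal_im, zero_mul,
      sub_zero, Complex.add_im, Complex.mul_im, add_zero, e0, e1]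
    rw [hN]; ring
  have hNpos : 0 < N := by
    rw [← hNn]; exact Complex.normSq_pos.2 hden
  have him : (g • w).im = w.im / N := by
    have : (g • w).im = ((g • w : ℍ) : ℂ).im := rfl
    rw [this, h, Complex.div_im, hNn]
    simp only [Complex.add_re, Complex.mul_re, Complex.ofReal_re, Complex.ofReal_im, zero_mul,
      sub_zero, Complex.add_im, Complex.mul_im, add_zero, e0, e1]
    rw [← sub_div]
    congr 1
    linear_combination w.im * hdet
  have hd : dist (w : ℂ) ((g • w : ℍ) : ℂ) ^ 2 =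
      (((g 1 0 * w.re ^ 2 + (g 1 1 - g 0 0) * w.re - g 0 1) + g 1 0 * w.im ^ 2) ^ 2 +
        w.im ^ 2 * ((g 0 0 + g 1 1) ^ 2 - 4)) / N := by
    have h2 : (w : ℂ) - ((g • w : ℍ) : ℂ) =
        ((g 1 0 : ℂ) * (w : ℂ) ^ 2 + ((g 1 1 : ℂ) - g 0 0) * (w : ℂ) - g 0 1) /
          ((g 1 0 : ℂ) * (w : ℂ) + (g 1 1 : ℂ)) := by
      rw [h, eq_div_iff hden, sub_mul, div_mul_cancel₀ _ hden]
      ring
    rw [dist_eq_norm, ← Complex.normSq_eq_norm_sq, h2, Complex.normSq_div, hNn]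
    congr 1
    rw [Complex.normSq_apply]
    simp only [pow_two, Complex.add_re, Complex.sub_re, Complex.sub_im, Complex.mul_re,
      Complex.ofReal_re, Complex.ofReal_im, zero_mul,
      sub_zero, Complex.add_im, Complex.mul_im, add_zero, e0, e1]
    linear_combination (-4 * w.im ^ 2) * hdet
  rw [UpperHalfPlane.cosh_dist, hd, him]
  congr 1
  field_simp

theorem cosh_disp_ge (g : SL(2, ℝ)) (w : ℍ) :
    ((g 0 0 + g 1 1) ^ 2 - 2) / 2 ≤ cosh (dist w (g • w)) := by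
  rw [cosh_disp]
  have hw := w.im_pos
  rw [← sub_nonneg]
  have : 1 + (((g 1 0 * w.re ^ 2 + (g 1 1 - g 0 0) * w.re - g 0 1) +
      g 1 0 * w.im ^ 2) ^ 2 + w.im ^ 2 * ((g 0 0 + g 1 1) ^ 2 - 4)) / (2 * w.im ^ 2) -
      ((g 0 0 + g 1 1) ^ 2 - 2) / 2 = ((g 1 0 * w.re ^ 2 + (g 1 1 - g 0 0) * w.re - g 0 1) +
      g 1 0 * w.im ^ 2) ^ 2 / (2 * w.im ^ 2) := by
    field_simp
    ring
  rw [this]
  positivity

theorem qq_disp (g : SL(2, ℝ)) (p : H3) :
    qq p (rho g p) = (cosh (dist (toH p) (g • toH p)) - 1) / (p.val 2 / rad p) ^ 2 := by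
  have hp := p.pos
  have hr := rad_pos p
  have h1 := rad_sq p
  rw [rho_apply, qq_formula, toH_actFun, ratio_1, ratio_2]
  have : p.val 1 / rad p * (p.val 1 / rad p) + p.val 2 / rad p * (p.val 2 / rad p) = 1 := by
    field_simp
    rw [h1]
  rw [this, ← pow_two]

theorem ratio_sq_le (p : H3) : (p.val 2 / rad p) ^ 2 ≤ 1 := by
  have hp := p.pos
  have hr := rad_pos p
  have h1 := rad_sq p
  rw [div_pow, div_le_one (by positivity), h1]
  nlinarith [sq_nonneg (p.val 1)]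

theorem disp_ge_plane (g : SL(2, ℝ)) (p : H3) :
    cosh (dist (toH p) (g • toH p)) ≤ cosh (dist p (rho g p)) := by
  have hp := p.pos
  have hr := rad_pos p
  rw [cosh_dist_eq, qq_disp]
  have h1 := ratio_sq_le p
  have h0 : 0 ≤ cosh (dist (toH p) (g • toH p)) - 1 := by
    have := one_le_cosh (dist (toH p) (g • toH p)); linarith
  have h2 : cosh (dist (toH p) (g • toH p)) - 1 ≤
      (cosh (dist (toH p) (g • toH p)) - 1) / (p.val 2 / rad p) ^ 2 := by
    rw [le_div_iff₀ (by positivity)]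
    nlinarith
  linarith

/-- displacement is bounded below by the trace -/
theorem disp_ge (g : SL(2, ℝ)) (p : H3) :
    ((g 0 0 + g 1 1) ^ 2 - 2) / 2 ≤ cosh (dist p (rho g p)) :=
  (cosh_disp_ge g _).trans (disp_ge_plane g p)

theorem base_val : base.val 0 = 0 ∧ base.val 1 = 0 ∧ base.val 2 = 1 := by simp [base]

theorem rad_base : rad base = 1 := by
  obtain ⟨h0, h1, h2⟩ := base_val
  unfold rad
  rw [h1, h2]; simp

/-- displacement of the base point -/
theorem disp_base (g : SL(2, ℝ)) : cosh (dist base (rho g base)) =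
    (g 0 0 ^ 2 + g 0 1 ^ 2 + g 1 0 ^ 2 + g 1 1 ^ 2) / 2 := by
  obtain ⟨h0, h1, h2⟩ := base_val
  have hdet := det_eq g
  have hre : (toH base).re = 0 := h0
  have him : (toH base).im = 1 := rad_base
  rw [cosh_dist_eq, qq_disp, cosh_disp, hre, him, rad_base, h2]
  linear_combination hdet

/-- discreteness criterion -/
theorem discrete_of_bounded {G : Subgroup (SL(2, ℝ))}
    (hG : ∀ R : ℝ, {g : SL(2, ℝ) | g ∈ G ∧ |g 0 0| ≤ R ∧ |g 0 1| ≤ R ∧ |g 1 0| ≤ R ∧
      |g 1 1| ≤ R}.Finite) : IsDiscreteGroup (G.map rho) := by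
  intro p R
  set R' := R + 2 * dist p base with hR'
  have hfin := hG (√(2 * cosh R'))
  refine (hfin.image rho).subset ?_
  rintro γ ⟨hγ, hd⟩
  obtain ⟨g, hg, rfl⟩ := Subgroup.mem_map.1 hγ
  refine ⟨g, ⟨hg, ?_⟩, rfl⟩
  have h1 : dist base (rho g base) ≤ R' := by
    have t1 := dist_triangle base p (rho g base)
    have t2 := dist_triangle p (rho g p) (rho g base)
    have t3 := (rho g).dist_eq p base
    rw [dist_comm base p] at t1
    linarith
  have h2 : cosh (dist base (rho g base)) ≤ cosh R' := by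
    rw [Real.cosh_le_cosh, abs_of_nonneg dist_nonneg]
    exact h1.trans (le_abs_self _)
  rw [disp_base] at h2
  have key : ∀ x : ℝ, x ^ 2 ≤ 2 * cosh R' → |x| ≤ √(2 * cosh R') := by
    intro x hx
    exact Real.abs_le_sqrt hx
  refine ⟨key _ ?_, key _ ?_, key _ ?_, key _ ?_⟩ <;>
    nlinarith [sq_nonneg (g 0 0), sq_nonneg (g 0 1), sq_nonneg (g 1 0), sq_nonneg (g 1 1)]

theorem rho_plane (g : SL(2, ℝ)) {p : H3} (hp : p.val 1 = 0) : (rho g p).val 1 = 0 := by
  rw [rho_apply, actFun_1, hp]; simp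

/-- the kernel of the action is `±1` -/
theorem eq_pm_one {g : SL(2, ℝ)} (h : rho g = 1) : g = 1 ∨ g = -1 := by
  have hdet := det_eq g
  have h1 : ∀ p, rho g p = p := fun p => by rw [h]; rfl
  have h2 : g 0 0 ^ 2 + g 0 1 ^ 2 + g 1 0 ^ 2 + g 1 1 ^ 2 = 2 := by
    have := disp_base g
    rw [h1, dist_self, cosh_zero] at this
    linarith
  -- (a-d)^2+(b+c)^2 = 0
  have h3 : (g 0 0 - g 1 1) ^ 2 + (g 0 1 + g 1 0) ^ 2 = 0 := by linarith
  have h4 : g 0 0 = g 1 1 := by nlinarith [sq_nonneg (g 0 0 - g 1 1), sq_nonneg (g 0 1 + g 1 0)]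
  have h5 : g 0 1 = - g 1 0 := by
    nlinarith [sq_nonneg (g 0 0 - g 1 1), sq_nonneg (g 0 1 + g 1 0)]
  -- other point: (0,0,2)
  let p : H3 := ⟨!₂[0, 0, 2], by simp⟩
  have hp0 : p.val 0 = 0 := by simp [p]
  have hp1 : p.val 1 = 0 := by simp [p]
  have hp2 : p.val 2 = 2 := by simp [p]
  have h6 : (rho g p).val 2 = 2 := by rw [h1, hp2]
  rw [rho_apply, actFun_val] at h6
  have hN := N_pos g p.val_mem
  rw [hp0, hp1, hp2] at h6 hN
  simp at h6 hN
  have h7 : g 1 1 ^ 2 + g 1 0 ^ 2 * 4 = 1 := by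
    have hN' : g 1 1 ^ 2 + g 1 0 ^ 2 * 4 ≠ 0 := by
      have : (0:ℝ) + 2 ^ 2 = 4 := by norm_num
      nlinarith
    have : (g 1 1 ^ 2 + g 1 0 ^ 2 * 2 ^ 2) = 1 := by
      by_contra hne
      apply hne
      have h8 : (g 1 1 ^ 2 + g 1 0 ^ 2 * 2 ^ 2) ≠ 0 := by nlinarith
      field_simp at h6
      linarith
    linarith
  rw [h4, h5] at hdet
  have h9 : g 1 0 = 0 := by nlinarith
  have h10 : g 0 1 = 0 := by rw [h5, h9, neg_zero]
  have h11 : g 1 1 ^ 2 = 1 := by rw [h9] at h7; linarith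
  have h12 : (g 1 1 - 1) * (g 1 1 + 1) = 0 := by linarith
  rcases mul_eq_zero.1 h12 with h | h
  · left
    have h : g 1 1 = 1 := by linarith
    ext i j; fin_cases i <;> fin_cases j <;> simp [h9, h10, h4, h]
  · right
    have h : g 1 1 = -1 := by linarith
    ext i j; fin_cases i <;> fin_cases j <;> simp [h9, h10, h4, h]

end Pool.Agent.H934R3
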