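import Mathlib
import Pool.Agent.H934R3.Groups
import Pool.Agent.H934R3.GeoFin

set_option autoImplicit false

noncomputable section

open Filter Metric Real Set Topology MeasureTheory
open scoped ContDiff NNReal ENNReal RealInnerProductSpace Pointwise MatrixGroups UpperHalfPlane

namespace Pool.Agent.H934R3

open H3

/-- the vertical line -/
def ell (t : ℝ) : H3 := ⟨!₂[0, 0, exp t], by simp [exp_pos]⟩

theorem ell_val (t : ℝ) : (ell t).val 0 = 0 ∧ (ell t).val 1 = 0 ∧ (ell t).val 2 = exp t := by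
  simp [ell]

theorem isometry_ell : Isometry ell := by
  refine Isometry.of_dist_eq fun s t => ?_
  rw [Real.dist_eq]
  apply cosh_inj_nonneg dist_nonneg (abs_nonneg _)
  rw [cosh_abs, cosh_dist_eq]
  unfold qq
  obtain ⟨a0, a1, a2⟩ := ell_val s
  obtain ⟨b0, b1, b2⟩ := ell_val t
  rw [dist_sq, a0, a1, a2, b0, b1, b2, Real.cosh_eq, neg_sub, exp_sub, exp_sub]
  have h1 := exp_pos s
  have h2 := exp_pos t
  field_simp
  ring

theorem norm_ge_height (x : E3) (i : Fin 3) : |x i| ≤ ‖x‖ := by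
  have := PiLp.norm_apply_le x i
  simpa using this

/-- the image of far away points under an isometry moving infinity -/
theorem act_far_sq (g : SL(2, ℝ)) (hc : g 1 0 ≠ 0) (y : H3) :
    ‖(rho g y).val - !₂[g 0 0 / g 1 0, 0, 0]‖ ^ 2 =
      (g 1 0 ^ 2 * ((g 1 0 * y.val 0 + g 1 1) ^ 2 +
        g 1 0 ^ 2 * (y.val 1 ^ 2 + y.val 2 ^ 2)))⁻¹ := by
  have hdet := det_eq g
  have hN := N_pos g y.val_mem
  rw [rho_apply, actFun_val, norm_sq]
  simp only [PiLp.sub_apply, PiLp.smul_apply, smul_eq_mul]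
  simp
  set N := (g 1 0 * y.val 0 + g 1 1) ^ 2 + g 1 0 ^ 2 * (y.val 1 ^ 2 + y.val 2 ^ 2) with hNd
  have e1 : N⁻¹ * ((g 0 0 * y.val 0 + g 0 1) * (g 1 0 * y.val 0 + g 1 1) +
      g 0 0 * g 1 0 * (y.val 1 ^ 2 + y.val 2 ^ 2)) - g 0 0 / g 1 0 =
      - (g 1 0 * y.val 0 + g 1 1) / (g 1 0 * N) := by
    field_simp
    rw [hNd]
    linear_combination (-(g 1 0 * y.val 0 + g 1 1)) * hdet
  rw [e1]
  field_simp
  rw [hNd]
  ring

theorem tendsto_far (g : SL(2, ℝ)) (hc : g 1 0 ≠ 0) {α : Type*} {l : Filter α} {y : α → H3}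
    (hy : Tendsto (fun k => ‖(y k).val‖) l atTop) :
    Tendsto (fun k => toSphere (rho g (y k))) l
      (𝓝 ((!₂[g 0 0 / g 1 0, 0, 0] : E3) : OnePoint E3)) := by
  have h1 : Tendsto (fun k => (rho g (y k)).val) l (𝓝 (!₂[g 0 0 / g 1 0, 0, 0] : E3)) := by
    rw [tendsto_iff_norm_sub_tendsto_zero]
    have h2 : Tendsto (fun k => ‖(rho g (y k)).val - !₂[g 0 0 / g 1 0, 0, 0]‖ ^ 2) l (𝓝 0) := by
      simp_rw [act_far_sq g hc]
      apply Tendsto.inv_tendsto_atTop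
      have hcp : 0 < g 1 0 ^ 2 := by positivity
      refine Tendsto.const_mul_atTop hcp ?_
      -- lower bound
      have hlow : ∀ k, g 1 0 ^ 2 / 2 * ‖(y k).val‖ ^ 2 - g 1 1 ^ 2 ≤
          (g 1 0 * (y k).val 0 + g 1 1) ^ 2 + g 1 0 ^ 2 * ((y k).val 1 ^ 2 + (y k).val 2 ^ 2) := by
        intro k
        rw [norm_sq]
        nlinarith [sq_nonneg (g 1 0 * (y k).val 0 + 2 * g 1 1), sq_nonneg (g 1 0 * (y k).val 1),
          sq_nonneg (g 1 0 * (y k).val 2)]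
      refine tendsto_atTop_mono hlow ?_
      apply tendsto_atTop_add_const_right
      exact Tendsto.const_mul_atTop (by positivity) ((tendsto_pow_atTop two_ne_zero).comp hy)
    have h3 := h2.sqrt
    simpa [Real.sqrt_sq (norm_nonneg _)] using h3
  exact (OnePoint.continuous_coe.tendsto _).comp h1

theorem boundary_not_mem (a : ℝ) : ((!₂[a, 0, 0] : E3) : OnePoint E3) ∉ range toSphere := by
  rintro ⟨p, hp⟩
  have h1 : p.val = !₂[a, 0, 0] := OnePoint.coe_injective hp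
  have := p.pos
  rw [h1] at this
  simp at this

theorem mem_limitSet {Γ : Subgroup (H3 ≃ᵢ H3)} (g : SL(2, ℝ)) (hc : g 1 0 ≠ 0)
    (γ : ℕ → (H3 ≃ᵢ H3)) (y : ℕ → H3) (hγ : ∀ k, γ k ∈ Γ) (hy : ∀ k, γ k base = rho g (y k))
    (hyt : Tendsto (fun k => ‖(y k).val‖) atTop atTop) :
    ((!₂[g 0 0 / g 1 0, 0, 0] : E3) : OnePoint E3) ∈ limitSet Γ := by
  refine ⟨?_, boundary_not_mem _⟩
  refine mem_closure_of_tendsto (tendsto_far g hc hyt) (Eventually.of_forall fun k => ?_)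
  exact ⟨γ k, hγ k, by rw [hy]⟩

/-- the half turn -/
def Sm : SL(2, ℝ) := ⟨!![0, -1; 1, 0], by simp [Matrix.det_fin_two]⟩

theorem Sm_entries : Sm 0 0 = 0 ∧ Sm 0 1 = -1 ∧ Sm 1 0 = 1 ∧ Sm 1 1 = 0 := by
  refine ⟨?_, ?_, ?_, ?_⟩ <;> simp [Sm]

theorem Sm_ell (t : ℝ) : rho Sm (ell t) = ell (-t) := by
  obtain ⟨s0, s1, s2, s3⟩ := Sm_entries
  obtain ⟨b0, b1, b2⟩ := ell_val t
  obtain ⟨c0, c1, c2⟩ := ell_val (-t)
  apply H3.ext
  ext i
  rw [rho_apply, actFun_val, s0, s1, s2, s3, b0, b1, b2]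
  have h2 := exp_pos t
  fin_cases i
  · show _ = (ell (-t)).val 0
    rw [c0]; simp
  · show _ = (ell (-t)).val 1
    rw [c1]; simp
  · show _ = (ell (-t)).val 2
    rw [c2, exp_neg]; simp
    field_simp

theorem mul_Sm (h : SL(2, ℝ)) : (h * Sm) 0 0 = h 0 1 ∧ (h * Sm) 1 0 = h 1 1 := by
  obtain ⟨s0, s1, s2, s3⟩ := Sm_entries
  constructor
  · have : (h * Sm) 0 0 = h 0 0 * Sm 0 0 + h 0 1 * Sm 1 0 := by
      simp [Matrix.mul_apply, Fin.sum_univ_two]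
    rw [this, s0, s2]; ring
  · have : (h * Sm) 1 0 = h 1 0 * Sm 0 0 + h 1 1 * Sm 1 0 := by
      simp [Matrix.mul_apply, Fin.sum_univ_two]
    rw [this, s0, s2]; ring

theorem tendsto_ell_norm : Tendsto (fun t => ‖(ell t).val‖) atTop atTop := by
  refine tendsto_atTop_mono (fun t => ?_) tendsto_exp_atTop
  have := norm_ge_height (ell t).val 2
  rw [(ell_val t).2.2, abs_of_pos (exp_pos t)] at this
  exact this

/-- a line joining limit points lies in the hull -/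
theorem line_mem_hull {Γ : Subgroup (H3 ≃ᵢ H3)} (h : SL(2, ℝ)) (hc : h 1 0 ≠ 0) (hd : h 1 1 ≠ 0)
    (γ : ℕ → (H3 ≃ᵢ H3)) (y : ℕ → H3) (hγ : ∀ k, γ k ∈ Γ) (hy : ∀ k, γ k base = rho h (y k))
    (hyt : Tendsto (fun k => ‖(y k).val‖) atTop atTop)
    (γ' : ℕ → (H3 ≃ᵢ H3)) (y' : ℕ → H3) (hγ' : ∀ k, γ' k ∈ Γ)
    (hy' : ∀ k, γ' k base = rho (h * Sm) (y' k))
    (hyt' : Tendsto (fun k => ‖(y' k).val‖) atTop atTop) (t : ℝ) :
    rho h (ell t) ∈ limitHull Γ := by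
  intro C _ _ hC
  obtain ⟨m0, m1⟩ := mul_Sm h
  have hc' : (h * Sm) 1 0 ≠ 0 := by rw [m1]; exact hd
  refine hC (fun t => rho h (ell t)) _ _ ⟨(rho h).isometry.comp isometry_ell,
    tendsto_far h hc tendsto_ell_norm, ?_⟩ (mem_limitSet h hc γ y hγ hy hyt)
    (mem_limitSet (h * Sm) hc' γ' y' hγ' hy' hyt') t
  have h1 := (tendsto_far (h * Sm) hc' tendsto_ell_norm).comp tendsto_neg_atBot_atTop
  refine h1.congr fun s => ?_
  show toSphere (rho (h * Sm) (ell (-s))) = toSphere (rho h (ell s))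
  rw [map_mul]
  show toSphere (rho h (rho Sm (ell (-s)))) = toSphere (rho h (ell s))
  rw [Sm_ell, neg_neg]

/-- separated sequences in a neighbourhood of the hull give infinite volume -/
theorem infinite_volume {Γ : Subgroup (H3 ≃ᵢ H3)} (hdisc : IsDiscreteGroup Γ)
    (p : ℕ → H3) {e : ℝ} (he : 0 < e) (he1 : e ≤ 1 / 64) {N : Set H3}
    (hN : ∀ n, qball (p n) (e / 2) ⊆ N)
    (hsep : ∀ γ ∈ Γ, ∀ n m, ∀ x ∈ qball (p n) (e / 2), γ x ∈ qball (p m) (e / 2) →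
      γ = 1 ∧ n = m) : ¬ HasFiniteVolume Γ N := by
  rintro ⟨D, hDm, hDfin, hcov⟩
  have : Countable Γ := countable_of_discrete hdisc
  have hmeas : ∀ i : ℕ × Γ, MeasurableSet (i.2.1 '' (qball (p i.1) (e / 2)) ∩ D) := by
    intro i
    refine MeasurableSet.inter ?_ hDm
    exact (i.2.1.toHomeomorph.isOpenMap _ (isOpen_qball _ _)).measurableSet
  have hdisj : Pairwise (Function.onFun Disjoint
      fun i : ℕ × Γ => i.2.1 '' (qball (p i.1) (e / 2)) ∩ D) := by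
    rintro ⟨n, g⟩ ⟨m, h⟩ hne
    refine Disjoint.inter_left _ (Disjoint.inter_right _ ?_)
    rw [Set.disjoint_left]
    rintro _ ⟨x, hx, rfl⟩ ⟨y, hy, hxy⟩
    apply hne
    have hxy' : h.1 y = g.1 x := hxy
    have e1 : (h⁻¹ * g).1 x = y := by
      show h.1⁻¹ (g.1 x) = y
      rw [← hxy', inv_apply_self]
    obtain ⟨h1, h2⟩ := hsep (h⁻¹ * g).1 (h⁻¹ * g).2 n m x hx (by rw [e1]; exact hy)
    have h3 : h⁻¹ * g = 1 := Subtype.ext h1
    have h4 := (inv_mul_eq_one.1 h3).symm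
    exact Prod.ext h2 h4
  have h1 : ∀ n, vol (qball base (e / 2)) ≤
      ∑' g : Γ, vol (g.1 '' (qball (p n) (e / 2)) ∩ D) := by
    intro n
    have h2 : qball (p n) (e / 2) ⊆
        ⋃ g : Γ, g.1 ⁻¹' (g.1 '' (qball (p n) (e / 2)) ∩ D) := by
      intro x hx
      obtain ⟨γ, hγ, hxD⟩ := hcov x (hN n hx)
      refine mem_iUnion.2 ⟨⟨γ, hγ⟩, ⟨⟨x, hx, rfl⟩, hxD⟩⟩
    calc vol (qball base (e / 2)) = vol (qball (p n) (e / 2)) := (measure_qball _ _).symm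
      _ ≤ vol (⋃ g : Γ, g.1 ⁻¹' (g.1 '' (qball (p n) (e / 2)) ∩ D)) := measure_mono h2
      _ ≤ ∑' g : Γ, vol (g.1 ⁻¹' (g.1 '' (qball (p n) (e / 2)) ∩ D)) := measure_iUnion_le _
      _ = ∑' g : Γ, vol (g.1 '' (qball (p n) (e / 2)) ∩ D) := by
          congr 1
          funext g
          exact IsometryEquiv.hausdorffMeasure_preimage g.1 _ _
  obtain ⟨F, hF⟩ : ∃ F : ℕ × Γ → ℝ≥0∞, ∀ i, F i = vol (i.2.1 '' (qball (p i.1) (e / 2)) ∩ D) :=
    ⟨_, fun _ => rfl⟩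
  have h3 : ∑' i : ℕ × Γ, F i ≤ vol D := by
    have : ∑' i : ℕ × Γ, F i = vol (⋃ i : ℕ × Γ, (i.2.1 '' (qball (p i.1) (e / 2)) ∩ D)) := by
      rw [measure_iUnion hdisj hmeas]
      exact tsum_congr hF
    rw [this]
    exact measure_mono (iUnion_subset fun i => inter_subset_right)
  have h4 : ∀ n, vol (qball base (e / 2)) ≤ ∑' g : Γ, F (n, g) := by
    intro n
    refine (h1 n).trans (le_of_eq ?_)
    exact tsum_congr fun g => (hF (n, g)).symm
  have h2 : (⊤ : ℝ≥0∞) ≤ vol D := by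
    have hpos : vol (qball base (e / 2)) ≠ 0 := (vol_qball_pos base he he1).ne'
    refine le_trans ?_ h3
    rw [ENNReal.tsum_prod', ← ENNReal.tsum_const_eq_top_of_ne_zero (α := ℕ) hpos]
    exact ENNReal.tsum_le_tsum h4
  exact absurd hDfin (not_lt.2 h2)

end Pool.Agent.H934R3
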