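import Mathlib
import Pool.Agent.H934R3.Hull

set_option autoImplicit false

noncomputable section

open Filter Metric Real Set Topology MeasureTheory
open scoped ContDiff NNReal ENNReal RealInnerProductSpace Pointwise MatrixGroups UpperHalfPlane

namespace Pool.Agent.H934R3

open H3

/-- the free group of rank two -/
abbrev F2 := FreeGroup Bool

/-- first generator -/
def ga : F2 := FreeGroup.of true
/-- second generator -/
def gb : F2 := FreeGroup.of false

/-- a representation of the free group with discrete image, displacing the point `q` of the plane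
by at least `2 ε` -/
structure GoodRep (φ : F2 →* SL(2, ℝ)) (q : H3) (ε : ℝ) : Prop where
  disc : IsDiscreteGroup ((φ.range).map rho)
  eps : 0 < ε
  plane : q.val 1 = 0
  disp : ∀ w : F2, w ≠ 1 → 2 * ε ≤ dist q (rho (φ w) q)

/-- the Fuchsian group attached to a subgroup of the free group -/
def grp (φ : F2 →* SL(2, ℝ)) (N : Subgroup F2) : Subgroup (H3 ≃ᵢ H3) := N.map (rho.comp φ)

theorem mem_grp {φ : F2 →* SL(2, ℝ)} {N : Subgroup F2} {γ : H3 ≃ᵢ H3} :
    γ ∈ grp φ N ↔ ∃ w ∈ N, rho (φ w) = γ := by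
  simp [grp, Subgroup.mem_map]

variable {φ : F2 →* SL(2, ℝ)} {q : H3} {ε : ℝ}

theorem GoodRep.inj (R : GoodRep φ q ε) {w : F2} (h : rho (φ w) q = q) : w = 1 := by
  by_contra hne
  have h1 := R.disp w hne
  rw [h, dist_self] at h1
  have := R.eps
  linarith

theorem GoodRep.discrete (R : GoodRep φ q ε) (N : Subgroup F2) : IsDiscreteGroup (grp φ N) := by
  intro p r
  refine (R.disc p r).subset ?_
  rintro γ ⟨hγ, hd⟩
  refine ⟨?_, hd⟩
  obtain ⟨w, -, rfl⟩ := mem_grp.1 hγ
  exact Subgroup.mem_map.2 ⟨φ w, ⟨w, rfl⟩, rfl⟩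

theorem GoodRep.good (N : Subgroup F2) : ∀ γ ∈ grp φ N, GoodIso γ := by
  intro γ hγ
  obtain ⟨w, -, rfl⟩ := mem_grp.1 hγ
  exact goodIso_rho _

theorem GoodRep.torsionFree (R : GoodRep φ q ε) (N : Subgroup F2) :
    IsTorsionFreeGroup (grp φ N) := by
  intro γ hγ hne n hn h
  obtain ⟨w, -, rfl⟩ := mem_grp.1 hγ
  have h1 : rho (φ (w ^ n)) = 1 := by rw [map_pow, map_pow, h]
  have h2 : w ^ n = 1 := R.inj (by rw [h1]; rfl)
  have h3 : w = 1 := by
    have := pow_left_injective (M := F2) hn.ne'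
    exact this (by simpa using h2)
  exact hne (by rw [h3, map_one, map_one])

/-- separation of the points `rho (φ (h n)) q` -/
theorem GoodRep.sep (R : GoodRep φ q ε) (N : Subgroup F2) (h : ℕ → F2)
    (hh : ∀ n m, ∀ w ∈ N, (h m)⁻¹ * w * h n = 1 → w = 1 ∧ n = m) :
    ∀ γ ∈ grp φ N, ∀ n m, dist (γ (rho (φ (h n)) q)) (rho (φ (h m)) q) < 2 * ε →
      γ = 1 ∧ n = m := by
  intro γ hγ n m hd
  obtain ⟨w, hw, rfl⟩ := mem_grp.1 hγ
  have h1 : (h m)⁻¹ * w * h n = 1 := by
    by_contra hne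
    have h2 := R.disp _ hne
    have h3 : dist q (rho (φ ((h m)⁻¹ * w * h n)) q) =
        dist (rho (φ (h m)) q) (rho (φ w) (rho (φ (h n)) q)) := by
      rw [← (rho (φ (h m))).dist_eq q]
      congr 1
      have : rho (φ w) (rho (φ (h n)) q) = rho (φ (w * h n)) q := by
        rw [map_mul, map_mul]; rfl
      rw [this]
      have : rho (φ (h m)) (rho (φ ((h m)⁻¹ * w * h n)) q) =
          rho (φ (h m * ((h m)⁻¹ * w * h n))) q := by
        conv_rhs => rw [map_mul, map_mul]
        rfl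
      rw [this]
      congr 3
      group
    rw [h3, dist_comm] at h2
    linarith
  obtain ⟨h2, h3⟩ := hh n m w hw h1
  exact ⟨by rw [h2, map_one, map_one], h3⟩

theorem GoodRep.no_surface (R : GoodRep φ q ε) (N : Subgroup F2) (h : ℕ → F2)
    (hh : ∀ n m, ∀ w ∈ N, (h m)⁻¹ * w * h n = 1 → w = 1 ∧ n = m) (S : Set H3) :
    ¬ IsFiniteAreaMinimal (grp φ N) S :=
  no_minimal (R.discrete N) (GoodRep.good N) (fun n => rho (φ (h n)) q)
    (fun _ => rho_plane _ R.plane) R.eps (R.sep N h hh) S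

/-- infinite volume of the unit neighbourhood of the convex hull -/
theorem GoodRep.not_geomFinite (R : GoodRep φ q ε) (N : Subgroup F2) (h : ℕ → F2)
    (hh : ∀ n m, ∀ w ∈ N, (h m)⁻¹ * w * h n = 1 → w = 1 ∧ n = m)
    (hq : ∀ n, rho (φ (h n)) q ∈ limitHull (grp φ N)) :
    ¬ IsGeometricallyFinite (grp φ N) := by
  have hε := R.eps
  -- small e with qball ⊂ ball (min ε 1)
  obtain ⟨e, he, he1, he2⟩ : ∃ e : ℝ, 0 < e ∧ e ≤ 1 / 64 ∧ e ≤ (min ε 1) ^ 2 / 2 := by
    refine ⟨min (1 / 64) ((min ε 1) ^ 2 / 2), ?_, min_le_left _ _, min_le_right _ _⟩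
    have : 0 < min ε 1 := lt_min hε one_pos
    positivity
  have hball : ∀ p z : H3, z ∈ qball p (e / 2) → dist p z < min ε 1 := by
    intro p z hz
    have h1 := dist_sq_le p z
    have h2 : qq p z < e / 2 := hz
    have h0 : 0 < min ε 1 := lt_min hε one_pos
    have h3 : dist p z ^ 2 < (min ε 1) ^ 2 := by nlinarith
    exact lt_of_pow_lt_pow_left₀ 2 h0.le h3
  refine infinite_volume (R.discrete N) (fun n => rho (φ (h n)) q) he he1 ?_ ?_
  · intro n z hz
    rw [mem_thickening_iff]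
    refine ⟨_, hq n, ?_⟩
    rw [dist_comm]
    exact (hball _ _ hz).trans_le (min_le_right _ _)
  · intro γ hγ n m x hx hγx
    refine R.sep N h hh γ hγ n m ?_
    have h1 := (hball _ _ hx).trans_le (min_le_left _ _)
    have h2 := (hball _ _ hγx).trans_le (min_le_left _ _)
    have h3 := dist_triangle (γ (rho (φ (h n)) q)) (γ x) (rho (φ (h m)) q)
    rw [γ.dist_eq, dist_comm (γ x)] at h3
    linarith

/-- the character killing `a` and counting `b` -/
def chi : F2 →* Multiplicative ℤ :=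
  FreeGroup.lift fun i => if i then 1 else Multiplicative.ofAdd 1

theorem chi_a : chi ga = 1 := by simp [chi, ga]
theorem chi_b : chi gb = Multiplicative.ofAdd 1 := by simp [chi, gb]

theorem ker_sep (j : ℕ) (n m : ℕ) (w : F2) (hw : w ∈ chi.ker)
    (h : (gb ^ (m + j))⁻¹ * w * gb ^ (n + j) = 1) : w = 1 ∧ n = m := by
  have h1 := congrArg chi h
  rw [map_mul, map_mul, map_inv, map_pow, map_pow, chi_b, MonoidHom.mem_ker.1 hw, map_one chi,
    mul_one] at h1
  have h2 : -((m + j : ℕ) : ℤ) + ((n + j : ℕ) : ℤ) = 0 := by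
    have := congrArg Multiplicative.toAdd h1
    simpa [toAdd_mul, toAdd_inv, toAdd_pow] using this
  push_cast at h2
  have h3 : n = m := by omega
  refine ⟨?_, h3⟩
  rw [h3] at h
  have : w = gb ^ (m + j) * ((gb ^ (m + j))⁻¹ * w * gb ^ (m + j)) * (gb ^ (m + j))⁻¹ := by group
  rw [this, h]; group

theorem conj_mem_ker (w : F2) (k : ℤ) : w * ga ^ k * w⁻¹ ∈ chi.ker := by
  rw [MonoidHom.mem_ker, map_mul, map_mul, map_zpow, chi_a, map_inv]
  simp

end Pool.Agent.H934R3
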