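import Mathlib
import Pool.Agent.H934R3.Free

set_option autoImplicit false

noncomputable section

open Filter Metric Real Set Topology MeasureTheory
open scoped ContDiff NNReal ENNReal RealInnerProductSpace Pointwise MatrixGroups UpperHalfPlane

namespace Pool.Agent.H934R3

open H3

theorem sq_mod_three (x : ℤ) : x ^ 2 % 3 = 0 ∧ 3 ∣ x ∨ x ^ 2 % 3 = 1 := by
  have h : x % 3 = 0 ∨ x % 3 = 1 ∨ x % 3 = 2 := by omega
  rcases h with h | h | h
  · left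
    refine ⟨?_, Int.dvd_of_emod_eq_zero h⟩
    simp [pow_two, Int.mul_emod, h]
  · right; simp [pow_two, Int.mul_emod, h]
  · right; simp [pow_two, Int.mul_emod, h]

/-- the ternary form is anisotropic -/
theorem anisotropic (n : ℕ) : ∀ q r s : ℤ, q.natAbs + r.natAbs + s.natAbs ≤ n →
    2 * q ^ 2 + 3 * r ^ 2 = 6 * s ^ 2 → q = 0 ∧ r = 0 ∧ s = 0 := by
  induction n using Nat.strong_induction_on with
  | _ n ih =>
    intro q r s hn h
    by_cases h0 : q = 0 ∧ r = 0 ∧ s = 0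
    · exact h0
    exfalso
    have hq : 3 ∣ q := by
      rcases sq_mod_three q with ⟨-, h1⟩ | h1
      · exact h1
      · exfalso; omega
    obtain ⟨q', rfl⟩ := hq
    have h2 : 6 * q' ^ 2 + r ^ 2 = 2 * s ^ 2 := by linarith [h, mul_pow 3 q' 2]
    have hrs : 3 ∣ r ∧ 3 ∣ s := by
      rcases sq_mod_three r with ⟨h1, h1'⟩ | h1 <;> rcases sq_mod_three s with ⟨h3, h3'⟩ | h3
      · exact ⟨h1', h3'⟩
      · exfalso; omega
      · exfalso; omega
      · exfalso; omega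
    obtain ⟨⟨r', rfl⟩, ⟨s', rfl⟩⟩ := hrs
    have h4 : 2 * q' ^ 2 + 3 * r' ^ 2 = 6 * s' ^ 2 := by
      have := mul_pow 3 q' 2
      have := mul_pow 3 r' 2
      have := mul_pow 3 s' 2
      linarith
    have h5 : q'.natAbs + r'.natAbs + s'.natAbs < n := by omega
    obtain ⟨e1, e2, e3⟩ := ih _ h5 q' r' s' le_rfl h4
    apply h0
    subst e1 e2 e3
    simp

/-- arithmetic Fuchsian group, without parabolic or elliptic elements -/
def G2 : Subgroup (SL(2, ℝ)) where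
  carrier := {g | ∃ P q r s : ℤ, P % 3 = 1 ∧ g 0 0 = P + q * √2 ∧ g 0 1 = r + s * √2 ∧
    g 1 0 = 3 * (r - s * √2) ∧ g 1 1 = P - q * √2 ∧ q % 3 = 0 ∧ r % 3 = 0 ∧ s % 3 = 0}
  mul_mem' := by
    rintro g g' ⟨P, q, r, s, hP, h1, h2, h3, h4, hq, hr, hs⟩
      ⟨P', q', r', s', hP', h1', h2', h3', h4', hq', hr', hs'⟩
    have h22 : (√2 : ℝ) ^ 2 = 2 := Real.sq_sqrt (by norm_num)
    have hmul : ∀ i j, (g * g') i j = g i 0 * g' 0 j + g i 1 * g' 1 j := by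
      intro i j; simp [Matrix.mul_apply, Fin.sum_univ_two]
    refine ⟨P * P' + 2 * q * q' + 3 * r * r' - 6 * s * s', P * q' + q * P' - 3 * r * s' +
      3 * s * r', P * r' + 2 * q * s' + r * P' - 2 * s * q', P * s' + q * r' - r * q' + s * P',
      ?_, ?_, ?_, ?_, ?_, ?_, ?_, ?_⟩
    · obtain ⟨P1, hP1⟩ : ∃ t, P = 3 * t + 1 := ⟨P / 3, by omega⟩
      obtain ⟨P2, hP2⟩ : ∃ t, P' = 3 * t + 1 := ⟨P' / 3, by omega⟩
      obtain ⟨q1, hq1⟩ : ∃ t, q = 3 * t := ⟨q / 3, by omega⟩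
      have : P * P' + 2 * q * q' + 3 * r * r' - 6 * s * s' =
        3 * (3 * P1 * P2 + P1 + P2 + 2 * q1 * q' + r * r' - 2 * s * s') + 1 := by
        rw [hP1, hP2, hq1]; ring
      omega
    · rw [hmul, h1, h2, h1', h3']; push_cast
      linear_combination (q * q' - 3 * s * s' : ℝ) * h22
    · rw [hmul, h1, h2, h2', h4']; push_cast
      linear_combination (q * s' - s * q' : ℝ) * h22
    · rw [hmul, h3, h4, h1', h3']; push_cast
      linear_combination (3 * q * s' - 3 * s * q' : ℝ) * h22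
    · rw [hmul, h3, h4, h2', h4']; push_cast
      linear_combination (q * q' - 3 * s * s' : ℝ) * h22
    · obtain ⟨q1, hq1⟩ : ∃ t, q = 3 * t := ⟨q / 3, by omega⟩
      obtain ⟨q2, hq2⟩ : ∃ t, q' = 3 * t := ⟨q' / 3, by omega⟩
      have : P * q' + q * P' - 3 * r * s' + 3 * s * r' = 3 * (P * q2 + q1 * P' - r * s' + s * r') :=
        by rw [hq1, hq2]; ring
      omega
    · obtain ⟨q1, hq1⟩ : ∃ t, q = 3 * t := ⟨q / 3, by omega⟩
      obtain ⟨q2, hq2⟩ : ∃ t, q' = 3 * t := ⟨q' / 3, by omega⟩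
      obtain ⟨r1, hr1⟩ : ∃ t, r = 3 * t := ⟨r / 3, by omega⟩
      obtain ⟨r2, hr2⟩ : ∃ t, r' = 3 * t := ⟨r' / 3, by omega⟩
      have : P * r' + 2 * q * s' + r * P' - 2 * s * q' =
          3 * (P * r2 + 2 * q1 * s' + r1 * P' - 2 * s * q2) := by
        rw [hq1, hq2, hr1, hr2]; ring
      omega
    · obtain ⟨s1, hs1⟩ : ∃ t, s = 3 * t := ⟨s / 3, by omega⟩
      obtain ⟨s2, hs2⟩ : ∃ t, s' = 3 * t := ⟨s' / 3, by omega⟩
      obtain ⟨q1, hq1⟩ : ∃ t, q = 3 * t := ⟨q / 3, by omega⟩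
      obtain ⟨q2, hq2⟩ : ∃ t, q' = 3 * t := ⟨q' / 3, by omega⟩
      have : P * s' + q * r' - r * q' + s * P' = 3 * (P * s2 + q1 * r' - r * q2 + s1 * P') := by
        rw [hq1, hq2, hs1, hs2]; ring
      omega
  one_mem' := by
    refine ⟨1, 0, 0, 0, ?_⟩
    simp
  inv_mem' := by
    rintro g ⟨P, q, r, s, hP, h1, h2, h3, h4, hq, hr, hs⟩
    have hinv : (g⁻¹) 0 0 = g 1 1 ∧ (g⁻¹) 0 1 = - g 0 1 ∧ (g⁻¹) 1 0 = - g 1 0 ∧
        (g⁻¹) 1 1 = g 0 0 := by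
      rw [Matrix.SpecialLinearGroup.SL2_inv_expl]
      simp
    obtain ⟨e1, e2, e3, e4⟩ := hinv
    refine ⟨P, -q, -r, -s, hP, ?_, ?_, ?_, ?_, by omega, by omega, by omega⟩
    · rw [e1, h4]; push_cast; ring
    · rw [e2, h2]; push_cast; ring
    · rw [e3, h3]; push_cast; ring
    · rw [e4, h1]; push_cast; ring

theorem G2_trace {g : SL(2, ℝ)} (hg : g ∈ G2) : g = 1 ∨ 4 ≤ |g 0 0 + g 1 1| := by
  obtain ⟨P, q, r, s, hP, h1, h2, h3, h4, hq, hr, hs⟩ := hg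
  have h22 : (√2 : ℝ) ^ 2 = 2 := Real.sq_sqrt (by norm_num)
  have hdet := det_eq g
  have hform : P ^ 2 - 2 * q ^ 2 - 3 * r ^ 2 + 6 * s ^ 2 = 1 := by
    have : ((P ^ 2 - 2 * q ^ 2 - 3 * r ^ 2 + 6 * s ^ 2 : ℤ) : ℝ) = ((1 : ℤ) : ℝ) := by
      push_cast
      rw [h1, h2, h3, h4] at hdet
      linear_combination hdet + (q ^ 2 - 3 * s ^ 2 : ℝ) * h22
    exact_mod_cast this
  have htr : g 0 0 + g 1 1 = ((2 * P : ℤ) : ℝ) := by
    rw [h1, h4]; push_cast; ring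
  by_cases hP2 : 2 ≤ |P|
  · right
    rw [htr, ← Int.cast_abs, abs_mul]
    have : (4 : ℤ) ≤ |2| * |P| := by norm_num; linarith
    exact_mod_cast this
  · left
    push Not at hP2
    have hP3 : P = 1 := by
      have := abs_lt.1 hP2
      omega
    subst hP3
    obtain ⟨e1, e2, e3⟩ := anisotropic _ q r s le_rfl (by linarith)
    subst e1 e2 e3
    ext i j
    fin_cases i <;> fin_cases j <;> simp [h1, h2, h3, h4]

theorem G2_discrete : IsDiscreteGroup (G2.map rho) := by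
  apply discrete_of_bounded
  intro R
  obtain ⟨M, hM⟩ := exists_nat_ge R
  set box : Set (ℤ × ℤ × ℤ × ℤ) := (Icc (-(M : ℤ)) M) ×ˢ (Icc (-(M : ℤ)) M) ×ˢ
    (Icc (-(M : ℤ)) M) ×ˢ (Icc (-(M : ℤ)) M) with hbox
  have hfin : box.Finite := (finite_Icc _ _).prod ((finite_Icc _ _).prod
    ((finite_Icc _ _).prod (finite_Icc _ _)))
  set f : ℤ × ℤ × ℤ × ℤ → Matrix (Fin 2) (Fin 2) ℝ := fun v =>
    !![v.1 + v.2.1 * √2, v.2.2.1 + v.2.2.2 * √2;
      3 * (v.2.2.1 - v.2.2.2 * √2), v.1 - v.2.1 * √2] with hf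
  refine ((hfin.image f).preimage (Subtype.coe_injective.injOn)).subset ?_
  rintro g ⟨⟨P, q, r, s, hP, h1, h2, h3, h4, hq, hr, hs⟩, ha, hb, hc, hd⟩
  refine ⟨(P, q, r, s), ?_, ?_⟩
  · have h21 : (1 : ℝ) ≤ √2 := by
      rw [Real.one_le_sqrt]; norm_num
    have haM := ha.trans hM
    have hbM := hb.trans hM
    have hcM := hc.trans hM
    have hdM := hd.trans hM
    rw [h1, abs_le] at haM
    rw [h2, abs_le] at hbM
    rw [h3, abs_le] at hcM
    rw [h4, abs_le] at hdM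
    have hM0 : (0 : ℝ) ≤ M := Nat.cast_nonneg M
    have key : ∀ x : ℤ, ((-(M : ℝ)) ≤ x ∧ (x : ℝ) ≤ M) → x ∈ Icc (-(M : ℤ)) M := by
      rintro x ⟨h, h'⟩
      constructor
      · exact_mod_cast h
      · exact_mod_cast h'
    have key2 : ∀ x : ℤ, (-(M : ℝ)) ≤ x * √2 → (x : ℝ) * √2 ≤ M → x ∈ Icc (-(M : ℤ)) M := by
      intro x h h'
      apply key
      rcases le_total 0 (x : ℝ) with h0 | h0
      · constructor
        · linarith
        · nlinarith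
      · constructor
        · nlinarith
        · linarith
    refine ⟨key _ ⟨?_, ?_⟩, key2 _ ?_ ?_, key _ ⟨?_, ?_⟩, key2 _ ?_ ?_⟩ <;> linarith
  · ext i j
    fin_cases i <;> fin_cases j <;> simp [hf, h1, h2, h3, h4]

/-- first generator -/
def A2 : SL(2, ℝ) := ⟨!![-(17 + 12 * √2), 0; 0, -(17 - 12 * √2)], by
  have h22 : (√2 : ℝ) ^ 2 = 2 := Real.sq_sqrt (by norm_num)
  rw [Matrix.det_fin_two_of]
  linear_combination -144 * h22⟩

/-- second generator -/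
def B2 : SL(2, ℝ) := ⟨!![-26, -15; -45, -26], by
  rw [Matrix.det_fin_two_of]; norm_num⟩

theorem A2_entries : A2 0 0 = -(17 + 12 * √2) ∧ A2 0 1 = 0 ∧ A2 1 0 = 0 ∧
    A2 1 1 = -(17 - 12 * √2) := by
  refine ⟨?_, ?_, ?_, ?_⟩ <;> simp [A2]

theorem B2_entries : B2 0 0 = -26 ∧ B2 0 1 = -15 ∧ B2 1 0 = -45 ∧ B2 1 1 = -26 := by
  refine ⟨?_, ?_, ?_, ?_⟩ <;> simp [B2]

theorem A2_mem : A2 ∈ G2 := by
  obtain ⟨h1, h2, h3, h4⟩ := A2_entries
  refine ⟨-17, -12, 0, 0, by norm_num, ?_, ?_, ?_, ?_, by norm_num, by norm_num, by norm_num⟩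
  · rw [h1]; push_cast; ring
  · rw [h2]; simp
  · rw [h3]; simp
  · rw [h4]; push_cast; ring

theorem B2_mem : B2 ∈ G2 := by
  obtain ⟨h1, h2, h3, h4⟩ := B2_entries
  refine ⟨-26, 0, -15, 0, by norm_num, ?_, ?_, ?_, ?_, by norm_num, by norm_num, by norm_num⟩
  · rw [h1]; push_cast; ring
  · rw [h2]; push_cast; ring
  · rw [h3]; push_cast; ring
  · rw [h4]; push_cast; ring

end Pool.Agent.H934R3
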