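import Mathlib
import Pool.Agent.H934R3.Arith2

set_option autoImplicit false

noncomputable section

open Filter Metric Real Set Topology MeasureTheory
open scoped ContDiff NNReal ENNReal RealInnerProductSpace Pointwise MatrixGroups UpperHalfPlane

namespace Pool.Agent.H934R3

open H3

theorem coe_smul_eq (g : SL(2, ℝ)) (w : ℍ) : ((g • w : ℍ) : ℂ) =
    ((g 0 0 : ℂ) * w + (g 0 1 : ℂ)) / ((g 1 0 : ℂ) * w + (g 1 1 : ℂ)) := by
  have h := UpperHalfPlane.coe_specialLinearGroup_apply g w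
  simpa only [Algebra.algebraMap_self, RingHom.id_apply] using h

theorem affine_ne (a b : ℝ) (ha : a ≠ 0) (w : ℍ) : (a : ℂ) * w + (b : ℂ) ≠ 0 := by
  intro h
  have h1 := congrArg Complex.im h
  have e1 : (w : ℂ).im = w.im := rfl
  simp only [Complex.add_im, Complex.mul_im, Complex.ofReal_re, Complex.ofReal_im, zero_mul,
    add_zero, Complex.zero_im, e1] at h1
  have := w.im_pos
  rcases mul_eq_zero.1 h1 with h2 | h2
  · exact ha h2
  · exact this.ne' h2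

theorem A2_norm (w : ℍ) : ‖((A2 • w : ℍ) : ℂ)‖ = (17 + 12 * √2) ^ 2 * ‖(w : ℂ)‖ := by
  obtain ⟨h1, h2, h3, h4⟩ := A2_entries
  have h22 : (√2 : ℝ) ^ 2 = 2 := Real.sq_sqrt (by norm_num)
  have hp : (0 : ℝ) < 17 + 12 * √2 := by positivity
  have hm : (17 - 12 * √2 : ℝ) ≠ 0 := by
    intro h
    have : (17 - 12 * √2 : ℝ) * (17 + 12 * √2) = 1 := by linear_combination -144 * h22
    rw [h, zero_mul] at this
    exact zero_ne_one this
  have e : ((A2 • w : ℍ) : ℂ) = (((17 + 12 * √2) ^ 2 : ℝ) : ℂ) * (w : ℂ) := by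
    rw [coe_smul_eq, h1, h2, h3, h4]
    have hm' : ((-(17 - 12 * √2) : ℝ) : ℂ) ≠ 0 := by
      rw [Complex.ofReal_ne_zero]; exact neg_ne_zero.2 hm
    rw [Complex.ofReal_zero, zero_mul, add_zero, zero_add, div_eq_iff hm', mul_right_comm,
      ← Complex.ofReal_mul]
    congr 2
    linear_combination (-(17 + 12 * √2)) * (144 * h22)
  rw [e, norm_mul, Complex.norm_real, Real.norm_eq_abs, abs_of_pos (by positivity)]

theorem B2_norm (w : ℍ) : ‖(45 : ℂ) * ((B2 • w : ℍ) : ℂ) - 26‖ * ‖(45 : ℂ) * (w : ℂ) + 26‖ = 1 := by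
  obtain ⟨h1, h2, h3, h4⟩ := B2_entries
  have hne := affine_ne 45 26 (by norm_num) w
  have hne' := affine_ne (-45) (-26) (by norm_num) w
  rw [← norm_mul]
  have : ((45 : ℂ) * ((B2 • w : ℍ) : ℂ) - 26) * ((45 : ℂ) * (w : ℂ) + 26) = -1 := by
    rw [coe_smul_eq, h1, h2, h3, h4]
    push_cast at hne ⊢
    have e : (-45 : ℂ) * w + -26 = -(45 * w + 26) := by ring
    rw [e, div_neg, mul_neg, sub_mul, neg_mul, mul_assoc, div_mul_cancel₀ _ hne]
    ring
  rw [this]; simp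

/-- generators of the group -/
def gen2 (i : Bool) : SL(2, ℝ) := if i then A2 else B2

/-- attracting sets -/
def X2 (i : Bool) : Set ℍ := if i then {w | 2 < ‖(w : ℂ)‖} else {w | ‖(45 : ℂ) * w - 26‖ ≤ 1}
/-- repelling sets -/
def Y2 (i : Bool) : Set ℍ := if i then {w | ‖(w : ℂ)‖ < 1 / 2} else {w | ‖(45 : ℂ) * w + 26‖ < 1}

theorem norm_B_left {w : ℍ} (h : ‖(45 : ℂ) * w - 26‖ ≤ 1) : 25 ≤ 45 * ‖(w : ℂ)‖ ∧
    45 * ‖(w : ℂ)‖ ≤ 27 := by
  have e : ‖(45 : ℂ) * w‖ = 45 * ‖(w : ℂ)‖ := by rw [norm_mul]; simp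
  have h26 : ‖(26 : ℂ)‖ = 26 := by simp
  rw [← e]
  constructor
  · have := norm_sub_norm_le (26 : ℂ) (26 - (45 : ℂ) * w)
    rw [h26, norm_sub_rev 26 ((45 : ℂ) * w)] at this
    have e2 : (26 : ℂ) - (26 - 45 * w) = 45 * w := by ring
    rw [e2] at this
    linarith
  · have := norm_add_le ((45 : ℂ) * w - 26) 26
    rw [h26] at this
    have e2 : (45 : ℂ) * w - 26 + 26 = 45 * w := by ring
    rw [e2] at this
    linarith

theorem norm_B_right {w : ℍ} (h : ‖(45 : ℂ) * w + 26‖ < 1) : 25 ≤ 45 * ‖(w : ℂ)‖ ∧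
    45 * ‖(w : ℂ)‖ ≤ 27 := by
  have e : ‖(45 : ℂ) * w‖ = 45 * ‖(w : ℂ)‖ := by rw [norm_mul]; simp
  have h26 : ‖(26 : ℂ)‖ = 26 := by simp
  rw [← e]
  constructor
  · have := norm_sub_norm_le (26 : ℂ) (26 + (45 : ℂ) * w)
    rw [h26, add_comm 26 ((45 : ℂ) * w)] at this
    have e2 : (26 : ℂ) - (45 * w + 26) = -(45 * w) := by ring
    rw [e2, norm_neg] at this
    linarith
  · have := norm_sub_le ((45 : ℂ) * w + 26) 26
    rw [h26] at this
    have e2 : (45 : ℂ) * w + 26 - 26 = 45 * w := by ring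
    rw [e2] at this
    linarith

theorem gen2_injective : Function.Injective (FreeGroup.lift gen2) := by
  have hlam : (289 : ℝ) ≤ (17 + 12 * √2) ^ 2 := by
    have : (0 : ℝ) ≤ √2 := Real.sqrt_nonneg _
    nlinarith
  apply FreeGroup.injective_lift_of_ping_pong gen2 X2 Y2
  · intro i
    cases i
    · refine ⟨⟨⟨26 / 45, 1 / 45⟩, by norm_num⟩, ?_⟩
      show ‖(45 : ℂ) * (⟨26 / 45, 1 / 45⟩ : ℂ) - 26‖ ≤ 1
      have : (45 : ℂ) * (⟨26 / 45, 1 / 45⟩ : ℂ) - 26 = Complex.I := by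
        apply Complex.ext
        · simp; norm_num
        · simp
      rw [this]; simp
    · refine ⟨⟨⟨0, 3⟩, by norm_num⟩, ?_⟩
      show 2 < ‖(⟨0, 3⟩ : ℂ)‖
      have : (⟨0, 3⟩ : ℂ) = 3 * Complex.I := by
        apply Complex.ext <;> simp
      rw [this]; simp; norm_num
  · intro i j hij
    cases i <;> cases j
    · exact absurd rfl hij
    · refine Set.disjoint_left.2 fun w hw hw' => ?_
      have h1 := norm_B_left (show ‖(45 : ℂ) * w - 26‖ ≤ 1 from hw)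
      have h2 : 2 < ‖(w : ℂ)‖ := hw'
      linarith [h1.1, h1.2]
    · refine Set.disjoint_left.2 fun w hw' hw => ?_
      have h1 := norm_B_left (show ‖(45 : ℂ) * w - 26‖ ≤ 1 from hw)
      have h2 : 2 < ‖(w : ℂ)‖ := hw'
      linarith [h1.1, h1.2]
    · exact absurd rfl hij
  · intro i j hij
    cases i <;> cases j
    · exact absurd rfl hij
    · refine Set.disjoint_left.2 fun w hw hw' => ?_
      have h1 := norm_B_right (show ‖(45 : ℂ) * w + 26‖ < 1 from hw)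
      have h2 : ‖(w : ℂ)‖ < 1 / 2 := hw'
      linarith [h1.1, h1.2]
    · refine Set.disjoint_left.2 fun w hw' hw => ?_
      have h1 := norm_B_right (show ‖(45 : ℂ) * w + 26‖ < 1 from hw)
      have h2 : ‖(w : ℂ)‖ < 1 / 2 := hw'
      linarith [h1.1, h1.2]
    · exact absurd rfl hij
  · intro i j
    cases i <;> cases j
    · refine Set.disjoint_left.2 fun w hw hw' => ?_
      have h1 : ‖(45 : ℂ) * w - 26‖ ≤ 1 := hw
      have h2 : ‖(45 : ℂ) * w + 26‖ < 1 := hw'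
      have h3 := norm_sub_le ((45 : ℂ) * w + 26) ((45 : ℂ) * w - 26)
      have e : (45 : ℂ) * w + 26 - ((45 : ℂ) * w - 26) = 52 := by ring
      rw [e] at h3
      have : ‖(52 : ℂ)‖ = 52 := by simp
      rw [this] at h3
      linarith
    · refine Set.disjoint_left.2 fun w hw hw' => ?_
      have h1 := norm_B_left (show ‖(45 : ℂ) * w - 26‖ ≤ 1 from hw)
      have h2 : ‖(w : ℂ)‖ < 1 / 2 := hw'
      linarith [h1.1, h1.2]
    · refine Set.disjoint_left.2 fun w hw' hw => ?_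
      have h1 := norm_B_right (show ‖(45 : ℂ) * w + 26‖ < 1 from hw)
      have h2 : 2 < ‖(w : ℂ)‖ := hw'
      linarith [h1.1, h1.2]
    · refine Set.disjoint_left.2 fun w hw hw' => ?_
      have h1 : 2 < ‖(w : ℂ)‖ := hw
      have h2 : ‖(w : ℂ)‖ < 1 / 2 := hw'
      linarith
  · intro i
    cases i
    · rintro _ ⟨w, hw, rfl⟩
      have h1 : ¬ ‖(45 : ℂ) * w + 26‖ < 1 := hw
      show ‖(45 : ℂ) * ((B2 • w : ℍ) : ℂ) - 26‖ ≤ 1
      have h2 := B2_norm w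
      push Not at h1
      nlinarith [norm_nonneg ((45 : ℂ) * ((B2 • w : ℍ) : ℂ) - 26)]
    · rintro _ ⟨w, hw, rfl⟩
      have h1 : ¬ ‖(w : ℂ)‖ < 1 / 2 := hw
      show 2 < ‖((A2 • w : ℍ) : ℂ)‖
      rw [A2_norm]
      push Not at h1
      nlinarith
  · intro i
    cases i
    · rintro _ ⟨w, hw, rfl⟩
      have h1 : ¬ ‖(45 : ℂ) * w - 26‖ ≤ 1 := hw
      show ‖(45 : ℂ) * ((B2⁻¹ • w : ℍ) : ℂ) + 26‖ < 1
      have h2 := B2_norm (B2⁻¹ • w)
      rw [smul_inv_smul] at h2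
      push Not at h1
      nlinarith [norm_nonneg ((45 : ℂ) * ((B2⁻¹ • w : ℍ) : ℂ) + 26)]
    · rintro _ ⟨w, hw, rfl⟩
      have h1 : ¬ 2 < ‖(w : ℂ)‖ := hw
      show ‖((A2⁻¹ • w : ℍ) : ℂ)‖ < 1 / 2
      have h2 := A2_norm (A2⁻¹ • w)
      rw [smul_inv_smul] at h2
      push Not at h1
      rw [h2] at h1
      nlinarith [norm_nonneg ((A2⁻¹ • w : ℍ) : ℂ)]

end Pool.Agent.H934R3
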