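import Mathlib
import Pool.Agent.H934R3.Ping2

set_option autoImplicit false

noncomputable section

open Filter Metric Real Set Topology MeasureTheory
open scoped ContDiff NNReal ENNReal RealInnerProductSpace Pointwise MatrixGroups UpperHalfPlane

namespace Pool.Agent.H934R3

open H3

/-- the representation -/
def phi2 : F2 →* SL(2, ℝ) := FreeGroup.lift gen2

theorem phi2_a : phi2 ga = A2 := by simp [phi2, ga, gen2]
theorem phi2_b : phi2 gb = B2 := by simp [phi2, gb, gen2]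

theorem phi2_mem (w : F2) : phi2 w ∈ G2 := by
  have h : phi2.range ≤ G2 := by
    rw [phi2, FreeGroup.range_lift_eq_closure, Subgroup.closure_le]
    rintro _ ⟨i, rfl⟩
    cases i
    · exact B2_mem
    · exact A2_mem
  exact h ⟨w, rfl⟩

theorem cosh_two_lt : cosh 2 < 7 := by
  rw [Real.cosh_eq]
  have h1 : exp 2 = exp 1 ^ 2 := by rw [← Real.exp_nat_mul]; norm_num
  have h2 := Real.exp_one_lt_d9
  have h3 : exp (-2) ≤ 1 := Real.exp_le_one_iff.2 (by norm_num)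
  have h4 := Real.exp_pos 1
  rw [h1]
  nlinarith

theorem disp_of_cosh {p q : H3} (h : 7 ≤ cosh (dist p q)) : 2 ≤ dist p q := by
  by_contra hlt
  push Not at hlt
  have h1 : cosh (dist p q) ≤ cosh 2 := by
    rw [Real.cosh_le_cosh, abs_of_nonneg dist_nonneg, abs_of_pos two_pos]
    exact hlt.le
  linarith [cosh_two_lt]

theorem phi2_disp (w : F2) (hw : w ≠ 1) (p : H3) : 2 ≤ dist p (rho (phi2 w) p) := by
  apply disp_of_cosh
  have h1 : phi2 w ≠ 1 := by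
    intro h
    exact hw (gen2_injective (by rw [map_one]; exact h))
  have h2 := (G2_trace (phi2_mem w)).resolve_left h1
  refine le_trans ?_ (disp_ge (phi2 w) p)
  have h3 : (16 : ℝ) ≤ (phi2 w 0 0 + phi2 w 1 1) ^ 2 := by
    rw [← sq_abs]; nlinarith
  linarith

theorem goodRep2 : GoodRep phi2 base 1 where
  disc := by
    intro p r
    refine (G2_discrete p r).subset ?_
    rintro γ ⟨hγ, hd⟩
    refine ⟨?_, hd⟩
    obtain ⟨g, ⟨w, rfl⟩, rfl⟩ := Subgroup.mem_map.1 hγ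
    exact Subgroup.mem_map.2 ⟨_, phi2_mem w, rfl⟩
  eps := one_pos
  plane := base_val.2.1
  disp := fun w hw => by
    have := phi2_disp w hw base
    linarith

theorem no_parabolic2 (N : Subgroup F2) : ∀ γ ∈ grp phi2 N, ¬ IsParabolic γ := by
  rintro γ hγ ⟨h1, h2⟩
  obtain ⟨w, -, rfl⟩ := mem_grp.1 hγ
  by_cases hw : w = 1
  · subst hw
    exact h1 base (by rw [map_one, map_one]; rfl)
  · obtain ⟨p, hp⟩ := h2 1 one_pos
    have := phi2_disp w hw p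
    linarith

theorem B2_pow_entries (n : ℕ) : 0 ≤ (B2 ^ n) 1 0 * (B2 ^ n) 1 1 ∧ (B2 ^ n) 1 1 ≠ 0 ∧
    0 < (B2 ^ (n + 1)) 1 0 * (B2 ^ (n + 1)) 1 1 := by
  have hstep : ∀ n : ℕ, (B2 ^ (n + 1)) 1 0 = -26 * (B2 ^ n) 1 0 - 45 * (B2 ^ n) 1 1 ∧
      (B2 ^ (n + 1)) 1 1 = -15 * (B2 ^ n) 1 0 - 26 * (B2 ^ n) 1 1 := by
    intro n
    obtain ⟨h1, h2, h3, h4⟩ := B2_entries
    have hmul : ∀ i j, (B2 ^ (n + 1)) i j = (B2 ^ n) i 0 * B2 0 j + (B2 ^ n) i 1 * B2 1 j := by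
      intro i j
      rw [pow_succ]
      simp [Matrix.mul_apply, Fin.sum_univ_two]
    constructor
    · rw [hmul, h1, h3]; ring
    · rw [hmul, h2, h4]; ring
  have key : ∀ n : ℕ, 0 ≤ (B2 ^ n) 1 0 * (B2 ^ n) 1 1 → (B2 ^ n) 1 1 ≠ 0 →
      0 < (B2 ^ (n + 1)) 1 0 * (B2 ^ (n + 1)) 1 1 := by
    intro n h1 h2
    rw [(hstep n).1, (hstep n).2]
    have h3 : 0 < (B2 ^ n) 1 1 ^ 2 := by positivity
    nlinarith [sq_nonneg ((B2 ^ n) 1 0)]
  induction n with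
  | zero =>
    have h0 : (B2 ^ 0) 1 0 = 0 ∧ (B2 ^ 0) 1 1 = 1 := by simp
    have e1 : 0 ≤ (B2 ^ 0) 1 0 * (B2 ^ 0) 1 1 := by rw [h0.1, h0.2]; norm_num
    have e2 : (B2 ^ 0) 1 1 ≠ 0 := by rw [h0.2]; norm_num
    exact ⟨e1, e2, key 0 e1 e2⟩
  | succ n ih =>
    obtain ⟨-, -, h3⟩ := ih
    have e2 : (B2 ^ (n + 1)) 1 1 ≠ 0 := by
      intro h; rw [h, mul_zero] at h3; exact lt_irrefl _ h3
    exact ⟨h3.le, e2, key _ h3.le e2⟩

theorem ell_zero : ell 0 = base := by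
  apply H3.ext
  simp [ell, base]

/-- `A2` acts by a dilation -/
theorem A2_act (y : H3) : (rho A2 y).val = ((17 + 12 * √2) ^ 2) • y.val := by
  obtain ⟨h1, h2, h3, h4⟩ := A2_entries
  have h22 : (√2 : ℝ) ^ 2 = 2 := Real.sq_sqrt (by norm_num)
  have hm : (17 - 12 * √2 : ℝ) * (17 + 12 * √2) = 1 := by linear_combination -144 * h22
  have hinv : ((-(17 - 12 * √2)) ^ 2)⁻¹ = (17 + 12 * √2) ^ 2 := by
    apply inv_eq_of_mul_eq_one_right
    have : (-(17 - 12 * √2)) ^ 2 * (17 + 12 * √2) ^ 2 = ((17 - 12 * √2) * (17 + 12 * √2)) ^ 2 := by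
      ring
    rw [this, hm, one_pow]
  rw [rho_apply, actFun_val, h1, h2, h3, h4]
  have e : ((0 * y.val 0 + -(17 - 12 * √2)) ^ 2 + 0 ^ 2 * (y.val 1 ^ 2 + y.val 2 ^ 2))⁻¹ =
      (17 + 12 * √2) ^ 2 := by
    rw [← hinv]; congr 1; ring
  rw [e]
  congr 1
  ext i
  fin_cases i
  · simp
    linear_combination (-(y.val 0)) * (144 * h22)
  · simp
  · simp

theorem A2_pow_norm (k : ℕ) (y : H3) : ‖(rho (A2 ^ k) y).val‖ =
    ((17 + 12 * √2) ^ 2) ^ k * ‖y.val‖ := by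
  induction k with
  | zero => rw [pow_zero, map_one, pow_zero, one_mul]; rfl
  | succ k ih =>
    have : rho (A2 ^ (k + 1)) y = rho A2 (rho (A2 ^ k) y) := by
      rw [pow_succ', map_mul]; rfl
    rw [this, A2_act, norm_smul, ih, Real.norm_eq_abs, abs_of_nonneg (by positivity)]
    ring

theorem norm_pos (y : H3) : 0 < ‖y.val‖ := by
  have h1 := norm_ge_height y.val 2
  have h2 := y.pos
  rw [abs_of_pos h2] at h1
  linarith

theorem A2_pow_tendsto (y : H3) : Tendsto (fun k : ℕ => ‖(rho (A2 ^ k) y).val‖) atTop atTop := by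
  simp_rw [A2_pow_norm]
  refine Tendsto.atTop_mul_const (norm_pos y) (tendsto_pow_atTop_atTop_of_one_lt ?_)
  have : (0 : ℝ) ≤ √2 := Real.sqrt_nonneg _
  nlinarith

theorem A2_conj : Sm * A2 * Sm⁻¹ = A2⁻¹ := by
  obtain ⟨h1, h2, h3, h4⟩ := A2_entries
  obtain ⟨s0, s1, s2, s3⟩ := Sm_entries
  have h22 : (√2 : ℝ) ^ 2 = 2 := Real.sq_sqrt (by norm_num)
  have hm : (17 - 12 * √2 : ℝ) * (17 + 12 * √2) = 1 := by linear_combination -144 * h22
  have key : A2 * (Sm * A2) = Sm := by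
    have hmul : ∀ (g h : SL(2, ℝ)) i j, (g * h) i j = g i 0 * h 0 j + g i 1 * h 1 j := by
      intro g h i j
      simp [Matrix.mul_apply, Fin.sum_univ_two]
    ext i j
    rw [hmul, hmul, hmul]
    fin_cases i <;> fin_cases j <;> simp [h1, h2, h3, h4, s0, s1, s2, s3] <;>
      first | linear_combination hm | linear_combination -hm
  rw [eq_inv_iff_mul_eq_one, mul_assoc, mul_assoc]
  have : A2 * (Sm * A2 * Sm⁻¹) = 1 := by
    rw [← mul_assoc, key, mul_inv_cancel]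
  have h2 := mul_eq_one_iff_inv_eq.1 this
  have h3 : Sm * A2 * Sm⁻¹ * A2 = 1 := by
    rw [← h2, inv_mul_cancel]
  simpa only [mul_assoc] using h3

theorem rho_mul_apply (g h : SL(2, ℝ)) (p : H3) : rho (g * h) p = rho g (rho h p) := by
  rw [map_mul]; rfl

theorem hull2 (n : ℕ) : rho (phi2 (gb ^ (n + 1))) base ∈ limitHull (grp phi2 chi.ker) := by
  obtain ⟨-, -, h3⟩ := B2_pow_entries n
  have hb : phi2 (gb ^ (n + 1)) = B2 ^ (n + 1) := by rw [map_pow, phi2_b]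
  have hc : (phi2 (gb ^ (n + 1))) 1 0 ≠ 0 := by
    rw [hb]; intro h; rw [h, zero_mul] at h3; exact lt_irrefl _ h3
  have hd : (phi2 (gb ^ (n + 1))) 1 1 ≠ 0 := by
    rw [hb]; intro h; rw [h, mul_zero] at h3; exact lt_irrefl _ h3
  rw [← ell_zero]
  set h := phi2 (gb ^ (n + 1)) with hh
  refine line_mem_hull h hc hd
    (fun k => rho (phi2 (gb ^ (n + 1) * ga ^ (k : ℤ) * (gb ^ (n + 1))⁻¹)))
    (fun k => rho (A2 ^ k) (rho h⁻¹ base)) (fun k => ?_) (fun k => ?_) (A2_pow_tendsto _)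
    (fun k => rho (phi2 (gb ^ (n + 1) * ga ^ (-(k : ℤ)) * (gb ^ (n + 1))⁻¹)))
    (fun k => rho (A2 ^ k) (rho (Sm⁻¹ * h⁻¹) base)) (fun k => ?_) (fun k => ?_)
    (A2_pow_tendsto _) 0
  · exact mem_grp.2 ⟨_, conj_mem_ker _ _, rfl⟩
  · have : phi2 (gb ^ (n + 1) * ga ^ (k : ℤ) * (gb ^ (n + 1))⁻¹) = h * (A2 ^ k * h⁻¹) := by
      rw [map_mul, map_mul, map_inv, map_zpow, phi2_a, ← hh, zpow_natCast, mul_assoc]
    show rho (phi2 _) base = _
    rw [this, rho_mul_apply, rho_mul_apply (A2 ^ k)]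
  · exact mem_grp.2 ⟨_, conj_mem_ker _ _, rfl⟩
  · have : phi2 (gb ^ (n + 1) * ga ^ (-(k : ℤ)) * (gb ^ (n + 1))⁻¹) =
        h * Sm * (A2 ^ k * (Sm⁻¹ * h⁻¹)) := by
      rw [map_mul, map_mul, map_inv, map_zpow, phi2_a, ← hh, zpow_neg, zpow_natCast, ← inv_pow,
        ← A2_conj, conj_pow]
      simp only [mul_assoc]
    show rho (phi2 _) base = _
    rw [this, rho_mul_apply, rho_mul_apply (A2 ^ k)]

/-- there is a geometrically infinite hyperbolic manifold without cusps and without complete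
embedded minimal surfaces of finite area -/
theorem main41 : ∃ Γ : Subgroup (H3 ≃ᵢ H3), IsDiscreteGroup Γ ∧ IsTorsionFreeGroup Γ ∧
    (∀ γ ∈ Γ, ¬ IsParabolic γ) ∧ ¬ IsGeometricallyFinite Γ ∧
    ∀ S : Set H3, ¬ IsFiniteAreaMinimal Γ S := by
  refine ⟨grp phi2 chi.ker, goodRep2.discrete _, goodRep2.torsionFree _, no_parabolic2 _,
    goodRep2.not_geomFinite _ (fun n => gb ^ (n + 1)) ?_ hull2,
    goodRep2.no_surface _ (fun n => gb ^ (n + 1)) ?_⟩
  · intro n m w hw h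
    exact ker_sep 1 n m w hw h
  · intro n m w hw h
    exact ker_sep 1 n m w hw h

end Pool.Agent.H934R3
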