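import Mathlib
import Pool.Agent.H934R3.Final41
import Pool.Agent.H934R3.Cusp

set_option autoImplicit false

noncomputable section

open Filter Metric Real Set Topology MeasureTheory
open scoped ContDiff NNReal ENNReal RealInnerProductSpace Pointwise MatrixGroups UpperHalfPlane

namespace Pool.Agent.H934R3

open H3

theorem mul_entries (g h : SL(2, ℝ)) (i j : Fin 2) :
    (g * h) i j = g i 0 * h 0 j + g i 1 * h 1 j := by
  simp [Matrix.mul_apply, Fin.sum_univ_two]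

/-- the principal congruence subgroup of level three -/
def G1 : Subgroup (SL(2, ℝ)) where
  carrier := {g | ∃ a b c d : ℤ, g 0 0 = 1 + 3 * a ∧ g 0 1 = 3 * b ∧ g 1 0 = 3 * c ∧
    g 1 1 = 1 + 3 * d}
  mul_mem' := by
    rintro g g' ⟨a, b, c, d, h1, h2, h3, h4⟩ ⟨a', b', c', d', h1', h2', h3', h4'⟩
    refine ⟨a + a' + 3 * a * a' + 3 * b * c', b' + 3 * a * b' + b + 3 * b * d',
      c + 3 * c * a' + c' + 3 * d * c', d + d' + 3 * d * d' + 3 * c * b', ?_, ?_, ?_, ?_⟩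
    · rw [mul_entries, h1, h2, h1', h3']; push_cast; ring
    · rw [mul_entries, h1, h2, h2', h4']; push_cast; ring
    · rw [mul_entries, h3, h4, h1', h3']; push_cast; ring
    · rw [mul_entries, h3, h4, h2', h4']; push_cast; ring
  one_mem' := ⟨0, 0, 0, 0, by simp⟩
  inv_mem' := by
    rintro g ⟨a, b, c, d, h1, h2, h3, h4⟩
    have hinv : (g⁻¹) 0 0 = g 1 1 ∧ (g⁻¹) 0 1 = - g 0 1 ∧ (g⁻¹) 1 0 = - g 1 0 ∧
        (g⁻¹) 1 1 = g 0 0 := by
      rw [Matrix.SpecialLinearGroup.SL2_inv_expl]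
      simp
    obtain ⟨e1, e2, e3, e4⟩ := hinv
    refine ⟨d, -b, -c, a, ?_, ?_, ?_, ?_⟩
    · rw [e1, h4]
    · rw [e2, h2]; push_cast; ring
    · rw [e3, h3]; push_cast; ring
    · rw [e4, h1]

theorem G1_trace {g : SL(2, ℝ)} (hg : g ∈ G1) : g 0 0 + g 1 1 = 2 ∨ 7 ≤ |g 0 0 + g 1 1| := by
  obtain ⟨a, b, c, d, h1, h2, h3, h4⟩ := hg
  have hdet := det_eq g
  have hform : a + d = 3 * (b * c - a * d) := by
    have : ((3 * (a + d) : ℤ) : ℝ) = ((3 * (3 * (b * c - a * d)) : ℤ) : ℝ) := by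
      push_cast
      rw [h1, h2, h3, h4] at hdet
      linear_combination hdet
    have h5 : 3 * (a + d) = 3 * (3 * (b * c - a * d)) := by exact_mod_cast this
    linarith
  have htr : g 0 0 + g 1 1 = ((2 + 9 * (b * c - a * d) : ℤ) : ℝ) := by
    rw [h1, h4]
    have : (a : ℝ) + d = 3 * (b * c - a * d) := by exact_mod_cast hform
    push_cast
    linear_combination 3 * this
  obtain ⟨m, hm⟩ : ∃ m : ℤ, m = b * c - a * d := ⟨_, rfl⟩
  rw [htr, ← hm]
  rcases lt_trichotomy m 0 with h | h | h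
  · right
    rw [← Int.cast_abs]
    have : (7 : ℤ) ≤ |2 + 9 * m| := by
      rw [abs_of_neg (by omega)]; omega
    exact_mod_cast this
  · left; rw [h]; norm_num
  · right
    rw [← Int.cast_abs]
    have : (7 : ℤ) ≤ |2 + 9 * m| := by
      rw [abs_of_pos (by omega)]; omega
    exact_mod_cast this

theorem G1_disp {g : SL(2, ℝ)} (hg : g ∈ G1) (hne : g ≠ 1) :
    11 / 2 ≤ cosh (dist base (rho g base)) := by
  rw [disp_base]
  obtain ⟨a, b, c, d, h1, h2, h3, h4⟩ := hg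
  have hdet := det_eq g
  rw [h1, h2, h3, h4] at hdet ⊢
  have hdetZ : (1 + 3 * a) * (1 + 3 * d) - 3 * b * (3 * c) = 1 := by exact_mod_cast hdet
  have ha : 1 ≤ (1 + 3 * a) ^ 2 := by
    have : 1 + 3 * a ≠ 0 := by omega
    have := sq_pos_of_ne_zero this
    omega
  have hd : 1 ≤ (1 + 3 * d) ^ 2 := by
    have : 1 + 3 * d ≠ 0 := by omega
    have := sq_pos_of_ne_zero this
    omega
  have hbc : 1 ≤ b ^ 2 + c ^ 2 := by
    by_contra hcon
    have hb : b = 0 := by nlinarith [sq_nonneg b, sq_nonneg c]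
    have hc : c = 0 := by nlinarith [sq_nonneg b, sq_nonneg c]
    subst hb hc
    have h5 : (1 + 3 * a) * (1 + 3 * d) = 1 := by linarith
    rcases Int.eq_one_or_neg_one_of_mul_eq_one' h5 with ⟨h6, h7⟩ | ⟨h6, h7⟩
    · apply hne
      have ha0 : a = 0 := by omega
      have hd0 : d = 0 := by omega
      subst ha0 hd0
      ext i j
      fin_cases i <;> fin_cases j <;> simp [h1, h2, h3, h4]
    · omega
  have key : 11 ≤ (1 + 3 * a) ^ 2 + (3 * b) ^ 2 + (3 * c) ^ 2 + (1 + 3 * d) ^ 2 := by nlinarith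
  have keyR : (11 : ℝ) ≤ (1 + 3 * a) ^ 2 + (3 * b) ^ 2 + (3 * c) ^ 2 + (1 + 3 * d) ^ 2 := by
    exact_mod_cast key
  linarith

theorem cosh_two_lt' : cosh 2 < 11 / 2 := by
  rw [Real.cosh_eq]
  have h1 : exp 2 = exp 1 ^ 2 := by rw [← Real.exp_nat_mul]; norm_num
  have h2 := Real.exp_one_lt_d9
  have h3 : exp (-2) ≤ 1 := Real.exp_le_one_iff.2 (by norm_num)
  have h4 := Real.exp_pos 1
  rw [h1]
  nlinarith

theorem G1_discrete : IsDiscreteGroup (G1.map rho) := by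
  apply discrete_of_bounded
  intro R
  obtain ⟨M, hM⟩ := exists_nat_ge (R + 1)
  set box : Set (ℤ × ℤ × ℤ × ℤ) := (Icc (-(M : ℤ)) M) ×ˢ (Icc (-(M : ℤ)) M) ×ˢ
    (Icc (-(M : ℤ)) M) ×ˢ (Icc (-(M : ℤ)) M) with hbox
  have hfin : box.Finite := (finite_Icc _ _).prod ((finite_Icc _ _).prod
    ((finite_Icc _ _).prod (finite_Icc _ _)))
  set f : ℤ × ℤ × ℤ × ℤ → Matrix (Fin 2) (Fin 2) ℝ := fun v =>
    !![1 + 3 * (v.1 : ℝ), 3 * (v.2.1 : ℝ); 3 * (v.2.2.1 : ℝ), 1 + 3 * (v.2.2.2 : ℝ)] with hf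
  refine ((hfin.image f).preimage (Subtype.coe_injective.injOn)).subset ?_
  rintro g ⟨⟨a, b, c, d, h1, h2, h3, h4⟩, ha, hb, hc, hd⟩
  refine ⟨(a, b, c, d), ?_, ?_⟩
  · rw [h1, abs_le] at ha
    rw [h2, abs_le] at hb
    rw [h3, abs_le] at hc
    rw [h4, abs_le] at hd
    have key : ∀ x : ℤ, (-(R + 1) ≤ 3 * (x : ℝ) ∧ 3 * (x : ℝ) ≤ R + 1) → x ∈ Icc (-(M : ℤ)) M := by
      rintro x ⟨h, h'⟩
      have hM0 : (0 : ℝ) ≤ M := Nat.cast_nonneg M
      constructor
      · have : (-(M : ℝ)) ≤ x := by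
          rcases le_total 0 (x : ℝ) with h0 | h0 <;> linarith
        exact_mod_cast this
      · have : (x : ℝ) ≤ M := by
          rcases le_total 0 (x : ℝ) with h0 | h0 <;> linarith
        exact_mod_cast this
    exact ⟨key _ ⟨by linarith, by linarith⟩, key _ ⟨by linarith, by linarith⟩,
      key _ ⟨by linarith, by linarith⟩, key _ ⟨by linarith, by linarith⟩⟩
  · ext i j
    fin_cases i <;> fin_cases j <;> simp [hf, h1, h2, h3, h4]

/-- parabolic generator fixing infinity -/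
def A1 : SL(2, ℝ) := ⟨!![1, 3; 0, 1], by rw [Matrix.det_fin_two_of]; norm_num⟩

/-- parabolic generator fixing zero -/
def B1 : SL(2, ℝ) := ⟨!![1, 0; 3, 1], by rw [Matrix.det_fin_two_of]; norm_num⟩

theorem A1_entries : A1 0 0 = 1 ∧ A1 0 1 = 3 ∧ A1 1 0 = 0 ∧ A1 1 1 = 1 := by
  refine ⟨?_, ?_, ?_, ?_⟩ <;> simp [A1]

theorem B1_entries : B1 0 0 = 1 ∧ B1 0 1 = 0 ∧ B1 1 0 = 3 ∧ B1 1 1 = 1 := by
  refine ⟨?_, ?_, ?_, ?_⟩ <;> simp [B1]

theorem A1_mem : A1 ∈ G1 := by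
  obtain ⟨h1, h2, h3, h4⟩ := A1_entries
  exact ⟨0, 1, 0, 0, by rw [h1]; simp, by rw [h2]; simp, by rw [h3]; simp, by rw [h4]; simp⟩

theorem B1_mem : B1 ∈ G1 := by
  obtain ⟨h1, h2, h3, h4⟩ := B1_entries
  exact ⟨0, 0, 1, 0, by rw [h1]; simp, by rw [h2]; simp, by rw [h3]; simp, by rw [h4]; simp⟩

theorem A1_pow_entries (k : ℕ) : (A1 ^ k) 0 0 = 1 ∧ (A1 ^ k) 0 1 = 3 * k ∧ (A1 ^ k) 1 0 = 0 ∧
    (A1 ^ k) 1 1 = 1 := by
  obtain ⟨h1, h2, h3, h4⟩ := A1_entries
  induction k with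
  | zero => simp
  | succ k ih =>
    obtain ⟨i1, i2, i3, i4⟩ := ih
    rw [pow_succ]
    simp only [mul_entries, i1, i2, i3, i4, h1, h2, h3, h4]
    push_cast
    refine ⟨?_, ?_, ?_, ?_⟩ <;> ring

theorem B1_pow_entries (k : ℕ) : (B1 ^ k) 0 0 = 1 ∧ (B1 ^ k) 0 1 = 0 ∧ (B1 ^ k) 1 0 = 3 * k ∧
    (B1 ^ k) 1 1 = 1 := by
  obtain ⟨h1, h2, h3, h4⟩ := B1_entries
  induction k with
  | zero => simp
  | succ k ih =>
    obtain ⟨i1, i2, i3, i4⟩ := ih
    rw [pow_succ]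
    simp only [mul_entries, i1, i2, i3, i4, h1, h2, h3, h4]
    push_cast
    refine ⟨?_, ?_, ?_, ?_⟩ <;> ring

/-- unipotent upper triangular elements of the group are powers of `A1` -/
theorem eq_A1_zpow {g : SL(2, ℝ)} (hg : g ∈ G1) (hc : g 1 0 = 0) :
    ∃ k : ℤ, g = A1 ^ k := by
  obtain ⟨a, b, c, d, h1, h2, h3, h4⟩ := hg
  have hdet := det_eq g
  rw [hc, mul_zero, sub_zero, h1, h4] at hdet
  have hdetZ : (1 + 3 * a) * (1 + 3 * d) = 1 := by exact_mod_cast hdet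
  rcases Int.eq_one_or_neg_one_of_mul_eq_one' hdetZ with ⟨h6, h7⟩ | ⟨h6, h7⟩
  · have ha0 : a = 0 := by omega
    have hd0 : d = 0 := by omega
    subst ha0 hd0
    have hpos : ∀ k : ℕ, ∀ g : SL(2, ℝ), g 0 0 = 1 → g 1 0 = 0 → g 1 1 = 1 → g 0 1 = 3 * k →
        g = A1 ^ k := by
      intro k g e1 e2 e3 e4
      obtain ⟨i1, i2, i3, i4⟩ := A1_pow_entries k
      ext i j
      fin_cases i <;> fin_cases j <;> simp [e1, e2, e3, e4, i1, i2, i3, i4]
    have e1 : g 0 0 = 1 := by rw [h1]; simp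
    have e4 : g 1 1 = 1 := by rw [h4]; simp
    rcases le_total 0 b with hb | hb
    · obtain ⟨k, rfl⟩ := Int.eq_ofNat_of_zero_le hb
      exact ⟨k, by rw [zpow_natCast]; exact hpos k g e1 hc e4 (by rw [h2]; simp)⟩
    · obtain ⟨k, hk⟩ := Int.eq_ofNat_of_zero_le (neg_nonneg.2 hb)
      have hinv : (g⁻¹) 0 0 = g 1 1 ∧ (g⁻¹) 0 1 = - g 0 1 ∧ (g⁻¹) 1 0 = - g 1 0 ∧
          (g⁻¹) 1 1 = g 0 0 := by
        rw [Matrix.SpecialLinearGroup.SL2_inv_expl]
        simp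
      obtain ⟨f1, f2, f3, f4⟩ := hinv
      have : g⁻¹ = A1 ^ k := by
        refine hpos k _ (by rw [f1, e4]) (by rw [f3, hc, neg_zero]) (by rw [f4, e1]) ?_
        rw [f2, h2]
        have : (-b : ℝ) = k := by exact_mod_cast hk
        linear_combination 3 * this
      refine ⟨-k, ?_⟩
      rw [zpow_neg, zpow_natCast, ← this, inv_inv]
  · omega

theorem trace_of_small_disp {g : SL(2, ℝ)} (h : ∀ ε > 0, ∃ p : H3, dist p (rho g p) < ε) :
    (g 0 0 + g 1 1) ^ 2 ≤ 4 := by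
  by_contra hcon
  push Not at hcon
  have h1 : 1 < ((g 0 0 + g 1 1) ^ 2 - 2) / 2 := by linarith
  have h2 : ∀ᶠ x in 𝓝 (0 : ℝ), cosh x < ((g 0 0 + g 1 1) ^ 2 - 2) / 2 := by
    have := (Real.continuous_cosh.tendsto 0).eventually_lt_const (by rw [cosh_zero]; exact h1)
    exact this
  obtain ⟨δ, hδ, h3⟩ := Metric.eventually_nhds_iff.1 h2
  obtain ⟨p, hp⟩ := h δ hδ
  have h4 := h3 (y := dist p (rho g p)) (by
    rw [Real.dist_eq, sub_zero, abs_of_nonneg dist_nonneg]; exact hp)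
  exact absurd (disp_ge g p) (not_le.2 h4)

theorem A1_act (k : ℕ) (y : H3) : (rho (A1 ^ k) y).val 0 = y.val 0 + 3 * k ∧
    (rho (A1 ^ k) y).val 1 = y.val 1 ∧ (rho (A1 ^ k) y).val 2 = y.val 2 := by
  obtain ⟨h1, h2, h3, h4⟩ := A1_pow_entries k
  rw [rho_apply, actFun_val, h1, h2, h3, h4]
  simp

theorem A1_pow_tendsto (y : H3) : Tendsto (fun k : ℕ => ‖(rho (A1 ^ k) y).val‖) atTop atTop := by
  have h1 : ∀ k : ℕ, (3 : ℝ) * k + y.val 0 ≤ ‖(rho (A1 ^ k) y).val‖ := by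
    intro k
    have := norm_ge_height (rho (A1 ^ k) y).val 0
    rw [(A1_act k y).1] at this
    have := le_abs_self (y.val 0 + 3 * k)
    linarith
  refine tendsto_atTop_mono h1 ?_
  apply tendsto_atTop_add_const_right
  exact Tendsto.const_mul_atTop (by norm_num) tendsto_natCast_atTop_atTop

theorem parabolic_A1_pow {k : ℕ} (hk : 0 < k) : IsParabolic (rho (A1 ^ k)) := by
  constructor
  · intro p h
    have h1 := (A1_act k p).1
    rw [h] at h1
    have : (0 : ℝ) < k := by exact_mod_cast hk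
    linarith
  · intro ε hε
    -- the point (0,0,t)
    set t : ℝ := 3 * k / ε + 1 with ht
    have hkp : (0 : ℝ) < k := by exact_mod_cast hk
    have htp : 0 < t := by positivity
    let p : H3 := ⟨!₂[0, 0, t], by simpa using htp⟩
    have hp0 : p.val 0 = 0 := by simp [p]
    have hp1 : p.val 1 = 0 := by simp [p]
    have hp2 : p.val 2 = t := by simp [p]
    refine ⟨p, (dist_le_div_sqrt _ _).trans_lt ?_⟩
    obtain ⟨e1, e2, e3⟩ := A1_act k p
    have hd : dist p.val (rho (A1 ^ k) p).val = 3 * k := by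
      have h5 := H3.dist_sq p.val (rho (A1 ^ k) p).val
      rw [e1, e2, e3, hp0, hp1, hp2] at h5
      have h6 : dist p.val (rho (A1 ^ k) p).val ^ 2 = (3 * k) ^ 2 := by rw [h5]; ring
      exact (sq_eq_sq₀ dist_nonneg (by positivity)).1 h6
    rw [hd, e3, hp2, ← pow_two, Real.sqrt_sq htp.le, div_lt_iff₀ htp, ht]
    field_simp
    linarith

theorem isParabolic_inv {g : H3 ≃ᵢ H3} (h : IsParabolic g) : IsParabolic g⁻¹ := by
  constructor
  · intro p hp
    apply h.1 p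
    conv_lhs => rw [← hp]
    exact apply_inv_self g p
  · intro ε hε
    obtain ⟨p, hp⟩ := h.2 ε hε
    refine ⟨g p, ?_⟩
    rw [inv_apply_self, dist_comm]
    exact hp

theorem parabolic_A1_zpow {k : ℤ} (hk : k ≠ 0) : IsParabolic (rho (A1 ^ k)) := by
  rcases lt_or_gt_of_ne hk with h | h
  · obtain ⟨n, hn⟩ := Int.eq_ofNat_of_zero_le (neg_nonneg.2 h.le)
    have hk' : k = -(n : ℤ) := by omega
    rw [hk', zpow_neg, zpow_natCast, map_inv]
    exact isParabolic_inv (parabolic_A1_pow (by omega))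
  · obtain ⟨n, hn⟩ := Int.eq_ofNat_of_zero_le h.le
    rw [hn, zpow_natCast]
    exact parabolic_A1_pow (by omega)

/-- the cusp at infinity -/
theorem hasRankOneCusp {Γ : Subgroup (H3 ≃ᵢ H3)} (hΓ : Γ ≤ G1.map rho) (hA : rho A1 ∈ Γ) :
    HasRankOneCusp Γ := by
  have hpar : ∀ g ∈ Subgroup.zpowers (rho A1), g ≠ 1 → IsParabolic g := by
    intro g hg hne
    obtain ⟨k, rfl⟩ := Subgroup.mem_zpowers_iff.1 hg
    rw [← map_zpow] at hne ⊢
    apply parabolic_A1_zpow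
    rintro rfl
    apply hne
    rw [zpow_zero, map_one]
  have hne1 : rho A1 ≠ 1 := by
    intro h
    have h1 := (A1_act 1 base).1
    rw [pow_one, h] at h1
    have h2 : ((1 : H3 ≃ᵢ H3) base) = base := rfl
    rw [h2] at h1
    norm_num at h1
  refine ⟨Subgroup.zpowers (rho A1), ⟨?_, ?_, hpar, ?_⟩, ?_⟩
  · rwa [Subgroup.zpowers_le]
  · intro h
    rw [Subgroup.zpowers_eq_bot] at h
    exact hne1 h
  · intro Q hQ hPQ hQpar
    refine le_antisymm ?_ hPQ
    intro γ hγ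
    obtain ⟨g, hg, rfl⟩ := Subgroup.mem_map.1 (hΓ (hQ hγ))
    have htr : ∀ g' ∈ G1, rho g' ∈ Q → g' 0 0 + g' 1 1 = 2 := by
      intro g' hg' hQg'
      have hsmall : ∀ ε > 0, ∃ p : H3, dist p (rho g' p) < ε := by
        intro ε hε
        by_cases h1 : rho g' = 1
        · refine ⟨base, ?_⟩
          rw [h1]
          show dist base base < ε
          rw [dist_self]; exact hε
        · exact (hQpar _ hQg' h1).2 ε hε
      rcases G1_trace hg' with h | h
      · exact h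
      · exfalso
        have h1 := trace_of_small_disp hsmall
        rw [← sq_abs] at h1
        nlinarith
    have h1 := htr g hg hγ
    have h2 := htr (A1 * g) (G1.mul_mem A1_mem hg) (by
      rw [map_mul]; exact Q.mul_mem (hPQ (Subgroup.mem_zpowers _)) hγ)
    rw [mul_entries, mul_entries] at h2
    obtain ⟨e1, e2, e3, e4⟩ := A1_entries
    rw [e1, e2, e3, e4] at h2
    have hc : g 1 0 = 0 := by linarith
    obtain ⟨k, rfl⟩ := eq_A1_zpow hg hc
    rw [map_zpow]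
    exact Subgroup.mem_zpowers_iff.2 ⟨k, rfl⟩
  · have hinj : Function.Injective (zpowersHom (H3 ≃ᵢ H3) (rho A1)) := by
      rw [injective_iff_map_eq_one]
      intro m hm
      by_contra hne
      have hm0 : m.toAdd ≠ 0 := fun h => hne (by rw [← ofAdd_toAdd m, h, ofAdd_zero])
      have h1 : rho (A1 ^ m.toAdd) = 1 := by
        rw [map_zpow]; simpa using hm
      have h2 := parabolic_A1_zpow hm0
      rw [h1] at h2
      exact h2.1 base rfl
    have hrange : (zpowersHom (H3 ≃ᵢ H3) (rho A1)).range = Subgroup.zpowers (rho A1) := rfl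
    exact ⟨(MonoidHom.ofInjective hinj).trans (MulEquiv.subgroupCongr hrange)⟩

end Pool.Agent.H934R3
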