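import Mathlib
import Pool.Agent.H934R3.Arith1

set_option autoImplicit false

noncomputable section

open Filter Metric Real Set Topology MeasureTheory
open scoped ContDiff NNReal ENNReal RealInnerProductSpace Pointwise MatrixGroups UpperHalfPlane

namespace Pool.Agent.H934R3

open H3

theorem A1_re (w : ℍ) : (A1 • w).re = w.re + 3 := by
  obtain ⟨h1, h2, h3, h4⟩ := A1_entries
  have h := coe_smul_eq A1 w
  rw [h1, h2, h3, h4] at h
  have e : (A1 • w).re = ((A1 • w : ℍ) : ℂ).re := rfl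
  rw [e, h]
  simp

theorem B1_norm (w : ℍ) : ‖(3 : ℂ) * ((B1 • w : ℍ) : ℂ) - 1‖ * ‖(3 : ℂ) * (w : ℂ) + 1‖ = 1 := by
  obtain ⟨h1, h2, h3, h4⟩ := B1_entries
  have hne := affine_ne 3 1 (by norm_num) w
  rw [← norm_mul]
  have : ((3 : ℂ) * ((B1 • w : ℍ) : ℂ) - 1) * ((3 : ℂ) * (w : ℂ) + 1) = -1 := by
    rw [coe_smul_eq, h1, h2, h3, h4]
    push_cast at hne ⊢
    rw [sub_mul, mul_assoc, div_mul_cancel₀ _ hne]
    ring
  rw [this]; simp

/-- attracting sets -/
def X1 (i : Bool) : Set ℍ := if i then {w | 3 / 2 ≤ w.re} else {w | ‖(3 : ℂ) * w - 1‖ ≤ 1}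
/-- repelling sets -/
def Y1 (i : Bool) : Set ℍ := if i then {w | w.re < -(3 / 2)} else {w | ‖(3 : ℂ) * w + 1‖ < 1}

theorem re_B_left {w : ℍ} (h : ‖(3 : ℂ) * w - 1‖ ≤ 1) : 0 ≤ w.re ∧ w.re ≤ 2 / 3 := by
  have h1 := (Complex.abs_re_le_norm _).trans h
  have e : ((3 : ℂ) * w - 1).re = 3 * w.re - 1 := by
    have e0 : (w : ℂ).re = w.re := rfl
    simp
  rw [e, abs_le] at h1
  constructor <;> linarith [h1.1, h1.2]

theorem re_B_right {w : ℍ} (h : ‖(3 : ℂ) * w + 1‖ < 1) : -(2 / 3) < w.re ∧ w.re < 0 := by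
  have h1 := (Complex.abs_re_le_norm _).trans_lt h
  have e : ((3 : ℂ) * w + 1).re = 3 * w.re + 1 := by
    have e0 : (w : ℂ).re = w.re := rfl
    simp
  rw [e, abs_lt] at h1
  constructor <;> linarith [h1.1, h1.2]

/-- generators of the group -/
def gen1 (B : SL(2, ℝ)) (i : Bool) : SL(2, ℝ) := if i then A1 else B

theorem gen1_injective (B : SL(2, ℝ)) (hB : ∀ w ∉ Y1 false, B • w ∈ X1 false)
    (hB' : ∀ w ∉ X1 false, B⁻¹ • w ∈ Y1 false) :
    Function.Injective (FreeGroup.lift (gen1 B)) := by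
  apply FreeGroup.injective_lift_of_ping_pong (gen1 B) X1 Y1
  · intro i
    cases i
    · refine ⟨⟨⟨1 / 3, 1 / 3⟩, by norm_num⟩, ?_⟩
      show ‖(3 : ℂ) * (⟨1 / 3, 1 / 3⟩ : ℂ) - 1‖ ≤ 1
      have : (3 : ℂ) * (⟨1 / 3, 1 / 3⟩ : ℂ) - 1 = Complex.I := by
        apply Complex.ext <;> simp
      rw [this]; simp
    · refine ⟨⟨⟨3, 3⟩, by norm_num⟩, ?_⟩
      show (3 : ℝ) / 2 ≤ 3
      norm_num
  · intro i j hij
    cases i <;> cases j
    · exact absurd rfl hij
    · refine Set.disjoint_left.2 fun w hw hw' => ?_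
      have h1 := re_B_left (show ‖(3 : ℂ) * w - 1‖ ≤ 1 from hw)
      have h2 : 3 / 2 ≤ w.re := hw'
      linarith [h1.1, h1.2]
    · refine Set.disjoint_left.2 fun w hw' hw => ?_
      have h1 := re_B_left (show ‖(3 : ℂ) * w - 1‖ ≤ 1 from hw)
      have h2 : 3 / 2 ≤ w.re := hw'
      linarith [h1.1, h1.2]
    · exact absurd rfl hij
  · intro i j hij
    cases i <;> cases j
    · exact absurd rfl hij
    · refine Set.disjoint_left.2 fun w hw hw' => ?_
      have h1 := re_B_right (show ‖(3 : ℂ) * w + 1‖ < 1 from hw)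
      have h2 : w.re < -(3 / 2) := hw'
      linarith [h1.1, h1.2]
    · refine Set.disjoint_left.2 fun w hw' hw => ?_
      have h1 := re_B_right (show ‖(3 : ℂ) * w + 1‖ < 1 from hw)
      have h2 : w.re < -(3 / 2) := hw'
      linarith [h1.1, h1.2]
    · exact absurd rfl hij
  · intro i j
    cases i <;> cases j
    · refine Set.disjoint_left.2 fun w hw hw' => ?_
      have h1 := re_B_left (show ‖(3 : ℂ) * w - 1‖ ≤ 1 from hw)
      have h2 := re_B_right (show ‖(3 : ℂ) * w + 1‖ < 1 from hw')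
      linarith [h1.1, h2.2]
    · refine Set.disjoint_left.2 fun w hw hw' => ?_
      have h1 := re_B_left (show ‖(3 : ℂ) * w - 1‖ ≤ 1 from hw)
      have h2 : w.re < -(3 / 2) := hw'
      linarith [h1.1, h1.2]
    · refine Set.disjoint_left.2 fun w hw' hw => ?_
      have h1 := re_B_right (show ‖(3 : ℂ) * w + 1‖ < 1 from hw)
      have h2 : 3 / 2 ≤ w.re := hw'
      linarith [h1.1, h1.2]
    · refine Set.disjoint_left.2 fun w hw hw' => ?_
      have h1 : 3 / 2 ≤ w.re := hw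
      have h2 : w.re < -(3 / 2) := hw'
      linarith
  · intro i
    cases i
    · rintro _ ⟨w, hw, rfl⟩
      exact hB w hw
    · rintro _ ⟨w, hw, rfl⟩
      have h1 : ¬ w.re < -(3 / 2) := hw
      show 3 / 2 ≤ (A1 • w).re
      rw [A1_re]
      push Not at h1
      linarith
  · intro i
    cases i
    · rintro _ ⟨w, hw, rfl⟩
      exact hB' w hw
    · rintro _ ⟨w, hw, rfl⟩
      have h1 : ¬ 3 / 2 ≤ w.re := hw
      show (A1⁻¹ • w).re < -(3 / 2)
      have h2 := A1_re (A1⁻¹ • w)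
      rw [smul_inv_smul] at h2
      push Not at h1
      linarith

theorem B1_ping {w : ℍ} (hw : w ∉ Y1 false) : B1 • w ∈ X1 false := by
  have h1 : ¬ ‖(3 : ℂ) * w + 1‖ < 1 := hw
  show ‖(3 : ℂ) * ((B1 • w : ℍ) : ℂ) - 1‖ ≤ 1
  have h2 := B1_norm w
  push Not at h1
  nlinarith [norm_nonneg ((3 : ℂ) * ((B1 • w : ℍ) : ℂ) - 1)]

theorem B1_pong {w : ℍ} (hw : w ∉ X1 false) : B1⁻¹ • w ∈ Y1 false := by
  have h1 : ¬ ‖(3 : ℂ) * w - 1‖ ≤ 1 := hw
  show ‖(3 : ℂ) * ((B1⁻¹ • w : ℍ) : ℂ) + 1‖ < 1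
  have h2 := B1_norm (B1⁻¹ • w)
  rw [smul_inv_smul] at h2
  push Not at h1
  nlinarith [norm_nonneg ((3 : ℂ) * ((B1⁻¹ • w : ℍ) : ℂ) + 1)]

theorem XY_false {w : ℍ} (hx : w ∈ X1 false) (hy : w ∈ Y1 false) : False := by
  have h1 := re_B_left (show ‖(3 : ℂ) * w - 1‖ ≤ 1 from hx)
  have h2 := re_B_right (show ‖(3 : ℂ) * w + 1‖ < 1 from hy)
  linarith [h1.1, h2.2]

theorem gen1_injective_one : Function.Injective (FreeGroup.lift (gen1 B1)) :=
  gen1_injective B1 (fun _ hw => B1_ping hw) (fun _ hw => B1_pong hw)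

theorem gen1_injective_two : Function.Injective (FreeGroup.lift (gen1 (B1 ^ 2))) := by
  refine gen1_injective (B1 ^ 2) (fun w hw => ?_) (fun w hw => ?_)
  · rw [pow_two, mul_smul]
    exact B1_ping fun h => XY_false (B1_ping hw) h
  · rw [pow_two, mul_inv_rev, mul_smul]
    exact B1_pong fun h => XY_false h (B1_pong hw)

/-- the representation -/
def phi1 : F2 →* SL(2, ℝ) := FreeGroup.lift (gen1 B1)

theorem phi1_a : phi1 ga = A1 := by simp [phi1, ga, gen1]
theorem phi1_b : phi1 gb = B1 := by simp [phi1, gb, gen1]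

theorem phi1_mem (w : F2) : phi1 w ∈ G1 := by
  have h : phi1.range ≤ G1 := by
    rw [phi1, FreeGroup.range_lift_eq_closure, Subgroup.closure_le]
    rintro _ ⟨i, rfl⟩
    cases i
    · exact B1_mem
    · exact A1_mem
  exact h ⟨w, rfl⟩

theorem phi1_disp (w : F2) (hw : w ≠ 1) : 2 ≤ dist base (rho (phi1 w) base) := by
  have h1 : phi1 w ≠ 1 := by
    intro h
    exact hw (gen1_injective_one (by rw [map_one]; exact h))
  have h2 := G1_disp (phi1_mem w) h1
  by_contra hlt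
  push Not at hlt
  have h3 : cosh (dist base (rho (phi1 w) base)) ≤ cosh 2 := by
    rw [Real.cosh_le_cosh, abs_of_nonneg dist_nonneg, abs_of_pos two_pos]
    exact hlt.le
  linarith [cosh_two_lt']

theorem grp_phi1_le (N : Subgroup F2) : grp phi1 N ≤ G1.map rho := by
  intro γ hγ
  obtain ⟨w, -, rfl⟩ := mem_grp.1 hγ
  exact Subgroup.mem_map.2 ⟨_, phi1_mem w, rfl⟩

theorem goodRep1 : GoodRep phi1 base 1 where
  disc := by
    intro p r
    refine (G1_discrete p r).subset ?_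
    rintro γ ⟨hγ, hd⟩
    refine ⟨?_, hd⟩
    obtain ⟨g, ⟨w, rfl⟩, rfl⟩ := Subgroup.mem_map.1 hγ
    exact Subgroup.mem_map.2 ⟨_, phi1_mem w, rfl⟩
  eps := one_pos
  plane := base_val.2.1
  disp := fun w hw => by
    have := phi1_disp w hw
    linarith

theorem rho_phi1_injective : Function.Injective (rho.comp phi1) := by
  rw [injective_iff_map_eq_one]
  intro w hw
  refine goodRep1.inj ?_
  have : rho (phi1 w) = 1 := hw
  rw [this]; rfl

/-! ### The geometrically infinite example -/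

theorem mem_limit_k (k : ℕ) (hk : 0 < k) :
    ((!₂[1 / (3 * (k : ℝ)), 0, 0] : E3) : OnePoint E3) ∈ limitSet (grp phi1 chi.ker) := by
  obtain ⟨e1, e2, e3, e4⟩ := B1_pow_entries k
  have hkp : (0 : ℝ) < k := by exact_mod_cast hk
  have h := mem_limitSet (Γ := grp phi1 chi.ker) (B1 ^ k) (by rw [e3]; positivity)
    (fun j => rho (phi1 (gb ^ k * ga ^ (j : ℤ) * (gb ^ k)⁻¹)))
    (fun j => rho (A1 ^ j) (rho (B1 ^ k)⁻¹ base)) (fun j => ?_) (fun j => ?_)
    (A1_pow_tendsto _)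
  · rwa [e1, e3] at h
  · exact mem_grp.2 ⟨_, conj_mem_ker _ _, rfl⟩
  · have : phi1 (gb ^ k * ga ^ (j : ℤ) * (gb ^ k)⁻¹) = B1 ^ k * (A1 ^ j * (B1 ^ k)⁻¹) := by
      rw [map_mul, map_mul, map_inv, map_zpow, map_pow, phi1_a, phi1_b, zpow_natCast, mul_assoc]
    show rho (phi1 _) base = _
    rw [this, rho_mul_apply, rho_mul_apply (A1 ^ j)]

theorem mem_limit_zero :
    ((!₂[0, 0, 0] : E3) : OnePoint E3) ∈ limitSet (grp phi1 chi.ker) := by
  refine ⟨?_, boundary_not_mem _⟩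
  have h1 : Tendsto (fun k : ℕ => ((!₂[1 / (3 * ((k + 1 : ℕ) : ℝ)), 0, 0] : E3) : OnePoint E3))
      atTop (𝓝 ((!₂[0, 0, 0] : E3) : OnePoint E3)) := by
    refine (OnePoint.continuous_coe.tendsto _).comp ?_
    have h2 : Tendsto (fun k : ℕ => 1 / (3 * ((k + 1 : ℕ) : ℝ))) atTop (𝓝 0) := by
      have h3 := (tendsto_one_div_add_atTop_nhds_zero_nat (𝕜 := ℝ)).const_mul (1 / 3)
      rw [mul_zero] at h3
      refine h3.congr fun k => ?_
      push_cast
      field_simp
    have hc : Continuous (fun s : ℝ => (!₂[s, 0, 0] : E3)) := by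
      refine (PiLp.continuous_toLp 2 _).comp ?_
      refine continuous_pi fun i => ?_
      fin_cases i
      · exact continuous_id
      · exact continuous_const
      · exact continuous_const
    exact (hc.tendsto 0).comp h2
  refine isClosed_closure.mem_of_tendsto h1 (Eventually.of_forall fun k => ?_)
  exact (mem_limit_k (k + 1) (Nat.succ_pos k)).1

theorem line_mem_hull' {Γ : Subgroup (H3 ≃ᵢ H3)} (h : SL(2, ℝ)) (hc : h 1 0 ≠ 0) (hd : h 1 1 ≠ 0)
    (hξ : ((!₂[h 0 0 / h 1 0, 0, 0] : E3) : OnePoint E3) ∈ limitSet Γ)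
    (hη : ((!₂[h 0 1 / h 1 1, 0, 0] : E3) : OnePoint E3) ∈ limitSet Γ) (t : ℝ) :
    rho h (ell t) ∈ limitHull Γ := by
  intro C _ _ hC
  obtain ⟨m0, m1⟩ := mul_Sm h
  have hc' : (h * Sm) 1 0 ≠ 0 := by rw [m1]; exact hd
  refine hC (fun t => rho h (ell t)) _ _ ⟨(rho h).isometry.comp isometry_ell,
    tendsto_far h hc tendsto_ell_norm, ?_⟩ hξ hη t
  have h1 := (tendsto_far (h * Sm) hc' tendsto_ell_norm).comp tendsto_neg_atBot_atTop
  rw [m0, m1] at h1
  refine h1.congr fun s => ?_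
  show toSphere (rho (h * Sm) (ell (-s))) = toSphere (rho h (ell s))
  rw [rho_mul_apply, Sm_ell, neg_neg]

theorem hull1 (n : ℕ) : rho (phi1 (gb ^ (n + 1))) base ∈ limitHull (grp phi1 chi.ker) := by
  obtain ⟨e1, e2, e3, e4⟩ := B1_pow_entries (n + 1)
  have hb : phi1 (gb ^ (n + 1)) = B1 ^ (n + 1) := by rw [map_pow, phi1_b]
  rw [← ell_zero, hb]
  have hn : (0 : ℝ) < ((n + 1 : ℕ) : ℝ) := by positivity
  apply line_mem_hull'
  · rw [e3]; positivity
  · rw [e4]; norm_num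
  · rw [e1, e3]; exact mem_limit_k (n + 1) (Nat.succ_pos n)
  · rw [e2, e4, zero_div]; exact mem_limit_zero

/-- geometrically infinite manifold with a rank-one cusp and without complete embedded minimal
surfaces of finite area -/
theorem main1e_infinite : ∃ Γ : Subgroup (H3 ≃ᵢ H3), IsDiscreteGroup Γ ∧ IsTorsionFreeGroup Γ ∧
    HasRankOneCusp Γ ∧ ¬ IsGeometricallyFinite Γ ∧
    ∀ S : Set H3, ¬ IsFiniteAreaMinimal Γ S := by
  refine ⟨grp phi1 chi.ker, goodRep1.discrete _, goodRep1.torsionFree _,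
    hasRankOneCusp (grp_phi1_le _) ?_,
    goodRep1.not_geomFinite _ (fun n => gb ^ (n + 1)) ?_ hull1,
    goodRep1.no_surface _ (fun n => gb ^ (n + 1)) ?_⟩
  · refine mem_grp.2 ⟨ga, ?_, by rw [phi1_a]⟩
    rw [MonoidHom.mem_ker, chi_a]
  · intro n m w hw h
    exact ker_sep 1 n m w hw h
  · intro n m w hw h
    exact ker_sep 1 n m w hw h

/-! ### The finitely generated example -/

/-- the embedding of the free group onto the subgroup generated by `a` and `b²` -/
def psi : F2 →* F2 := FreeGroup.lift fun i => if i then ga else gb ^ 2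

theorem psi_injective : Function.Injective psi := by
  have h : phi1.comp psi = FreeGroup.lift (gen1 (B1 ^ 2)) := by
    ext1 i
    cases i
    · simp [psi, gen1, phi1_b]
    · simp [psi, gen1, phi1_a]
  have h2 : Function.Injective (phi1.comp psi) := by rw [h]; exact gen1_injective_two
  exact Function.Injective.of_comp h2

/-- a permutation representation -/
def perm : F2 →* Equiv.Perm (Option ℤ) :=
  FreeGroup.lift fun i => if i then Equiv.optionCongr (Equiv.addRight (1 : ℤ))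
    else Equiv.swap none (some 0)

theorem perm_a (n : ℤ) : perm ga (some n) = some (n + 1) := by simp [perm, ga]
theorem perm_a_none : perm ga none = none := by simp [perm, ga]
theorem perm_b : perm gb = Equiv.swap none (some 0) := by simp [perm, gb]

theorem perm_a_pow (k : ℕ) (n : ℤ) : perm (ga ^ k) (some n) = some (n + k) := by
  induction k with
  | zero => simp
  | succ k ih =>
    rw [pow_succ', map_mul, Equiv.Perm.mul_apply, ih, perm_a]
    push_cast
    rw [add_assoc]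

theorem perm_psi (w : F2) : perm (psi w) none = none := by
  have h : psi.range ≤ (MulAction.stabilizer (Equiv.Perm (Option ℤ)) (none : Option ℤ)).comap perm
      := by
    rw [psi, FreeGroup.range_lift_eq_closure, Subgroup.closure_le]
    rintro _ ⟨i, rfl⟩
    cases i
    · show perm (gb ^ 2) none = none
      rw [map_pow, perm_b, pow_two, Equiv.swap_mul_self]; rfl
    · exact perm_a_none
  exact h ⟨w, rfl⟩

theorem coset_sep (n m : ℕ) (w : F2) (hw : w ∈ psi.range)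
    (h : (gb⁻¹ * (ga ^ m)⁻¹)⁻¹ * w * (gb⁻¹ * (ga ^ n)⁻¹) = 1) : w = 1 ∧ n = m := by
  obtain ⟨v, rfl⟩ := hw
  have h1 : psi v = gb⁻¹ * (ga ^ m)⁻¹ * (ga ^ n * gb) := by
    have : psi v = (gb⁻¹ * (ga ^ m)⁻¹) * ((gb⁻¹ * (ga ^ m)⁻¹)⁻¹ * psi v *
      (gb⁻¹ * (ga ^ n)⁻¹)) * (gb⁻¹ * (ga ^ n)⁻¹)⁻¹ := by group
    rw [this, h]; group
  have h2 := perm_psi v
  rw [h1, map_mul, map_mul, map_mul, map_inv, map_inv, perm_b] at h2
  simp only [Equiv.Perm.mul_apply] at h2
  rw [Equiv.swap_apply_left] at h2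
  rw [perm_a_pow] at h2
  rw [Equiv.Perm.inv_eq_iff_eq, Equiv.swap_apply_left, Equiv.Perm.inv_eq_iff_eq, perm_a_pow] at h2
  have h3 : n = m := by
    have := Option.some_injective _ h2
    omega
  refine ⟨?_, h3⟩
  rw [h1, h3]; group

/-- finitely generated free Fuchsian group with a rank-one cusp -/
theorem main1e_free : ∃ Γ : Subgroup (H3 ≃ᵢ H3), IsDiscreteGroup Γ ∧ IsTorsionFreeGroup Γ ∧
    HasRankOneCusp Γ ∧ Nonempty (FreeGroup Bool ≃* Γ) ∧
    ∀ S : Set H3, ¬ IsFiniteAreaMinimal Γ S := by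
  refine ⟨grp phi1 psi.range, goodRep1.discrete _, goodRep1.torsionFree _,
    hasRankOneCusp (grp_phi1_le _) ?_, ?_,
    goodRep1.no_surface _ (fun n => gb⁻¹ * (ga ^ n)⁻¹) ?_⟩
  · refine mem_grp.2 ⟨ga, ⟨FreeGroup.of true, ?_⟩, by rw [phi1_a]⟩
    simp [psi]
  · have hinj : Function.Injective ((rho.comp phi1).comp psi) :=
      rho_phi1_injective.comp psi_injective
    have hr : ((rho.comp phi1).comp psi).range = grp phi1 psi.range := by
      rw [grp, MonoidHom.range_comp]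
    exact ⟨(MonoidHom.ofInjective hinj).trans (MulEquiv.subgroupCongr hr)⟩
  · intro n m w hw h
    exact coset_sep n m w hw h

end Pool.Agent.H934R3
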